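import Mathlib

/-!
A finite extension of domains is generically monogenic.
-/

set_option autoImplicit false

noncomputable section

namespace M4.Un

open Polynomial

theorem exists_prim (B R : Type) [CommRing B] [IsDomain B] [IsIntegrallyClosed B] [CharZero B]
    [CommRing R] [IsDomain R] [Algebra B R] [Module.Finite B R] [FaithfulSMul B R] :
    ∃ (t : R) (Δ : B), Δ ≠ 0 ∧ (∀ r : R, ∃ P : B[X], algebraMap B R Δ * r = aeval t P) ∧
      ∃ A A' : B[X], A * minpoly B t + A' * derivative (minpoly B t) = C Δ := by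
  let K := FractionRing B
  let L := FractionRing R
  let _ : Algebra K L := FractionRing.liftAlgebra B L
  have : FiniteDimensional K L := inferInstance
  obtain ⟨x, hx⟩ := Field.exists_primitive_element K L
  obtain ⟨b, hb, t, ht⟩ : ∃ b : B, b ≠ 0 ∧ ∃ t : R, algebraMap R L t = b • x := by
    obtain ⟨⟨t, _, b, hb, rfl⟩, h⟩ := IsLocalization.surj
      (Algebra.algebraMapSubmonoid R (nonZeroDivisors B)) x
    refine ⟨b, nonZeroDivisors.ne_zero hb, t, ?_⟩
    rw [← h, Algebra.smul_def, mul_comm, IsScalarTower.algebraMap_apply B R L]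
  have hi : IsIntegral B t := Algebra.IsIntegral.isIntegral t
  have hi' : IsIntegral K (algebraMap R L t) := Algebra.IsIntegral.isIntegral _
  have htop : Algebra.adjoin K {algebraMap R L t} = ⊤ := by
    rw [← IntermediateField.adjoin_simple_toSubalgebra_of_isAlgebraic hi'.isAlgebraic,
      ← IntermediateField.top_toSubalgebra, IntermediateField.toSubalgebra_inj, eq_top_iff, ← hx,
      IntermediateField.adjoin_simple_le_iff]
    have h1 : x = (algebraMap B K b)⁻¹ • algebraMap R L t := by
      rw [ht, ← algebraMap_smul K b, inv_smul_smul₀ (by simpa using hb)]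
    rw [h1]
    exact IntermediateField.smul_mem _ (IntermediateField.mem_adjoin_simple_self K _)
  let pb := PowerBasis.ofAdjoinEqTop hi' htop
  have hg : pb.gen = algebraMap R L t := PowerBasis.ofAdjoinEqTop_gen _ _
  have hgi : IsIntegral B pb.gen := hg ▸ hi.algebraMap
  obtain ⟨d, hd⟩ := IsIntegrallyClosed.isIntegral_iff.1 (Algebra.discr_isIntegral K
    (b := pb.basis) fun i => by rw [pb.basis_eq_pow]; exact hgi.pow _)
  have hd0 : d ≠ 0 := fun h => Algebra.discr_not_zero_of_basis K pb.basis (by
    rw [← hd, h, map_zero])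
  have hsep : ((minpoly B t).map (algebraMap B K)).Separable := by
    rw [← minpoly.isIntegrallyClosed_eq_field_fractions K L hi]
    exact Algebra.IsSeparable.isSeparable K _
  obtain ⟨a, a', ha⟩ := hsep
  obtain ⟨e, he, h1⟩ := IsLocalization.integerNormalization_spec (nonZeroDivisors B) a
  obtain ⟨e', he', h2⟩ := IsLocalization.integerNormalization_spec (nonZeroDivisors B) a'
  refine ⟨t, e * e' * d, mul_ne_zero (mul_ne_zero (nonZeroDivisors.ne_zero he)
    (nonZeroDivisors.ne_zero he')) hd0, fun r => ?_,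
    C (e' * d) * IsLocalization.integerNormalization (nonZeroDivisors B) a,
    C (e * d) * IsLocalization.integerNormalization (nonZeroDivisors B) a', ?_⟩
  · have h3 := Algebra.discr_mul_isIntegral_mem_adjoin K hgi
      (Algebra.IsIntegral.isIntegral (R := B) r).algebraMap
    rw [Algebra.adjoin_singleton_eq_range_aeval, ← hd, hg] at h3
    obtain ⟨P, hP⟩ := h3
    refine ⟨C (e * e') * P, IsFractionRing.injective R L ?_⟩
    have h4 : aeval (algebraMap R L t) P = _ := hP
    rw [aeval_algebraMap_apply, algebraMap_smul, Algebra.smul_def,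
      IsScalarTower.algebraMap_apply B R L] at h4
    simp only [map_mul, aeval_C, h4, mul_assoc]
  · apply map_injective _ (IsFractionRing.injective B K)
    rw [derivative_map] at ha
    simp only [Polynomial.map_add, Polynomial.map_mul, h1, h2, map_C, map_mul,
      ← algebraMap_smul K e, ← algebraMap_smul K e', smul_eq_C_mul]
    linear_combination C (algebraMap B K e) * C (algebraMap B K e') * C (algebraMap B K d) * ha

theorem exists_ext {A R : Type} [CommRing A] [CommRing R] [Algebra A R] [Algebra.IsIntegral A R]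
    (f : A →+* ℂ) (h : ∀ a, algebraMap A R a = 0 → f a = 0) :
    ∃ ψ : R →+* ℂ, ∀ a, ψ (algebraMap A R a) = f a := by
  have : (RingHom.ker f).IsPrime := RingHom.ker_isPrime f
  obtain ⟨M, -, hM, hM'⟩ :=
    Ideal.exists_ideal_over_prime_of_isIntegral (RingHom.ker f) (⊥ : Ideal R) h
  have : M.LiesOver (RingHom.ker f) := ⟨hM'.symm⟩
  let _ : Algebra (A ⧸ RingHom.ker f) ℂ := (RingHom.kerLift f).toAlgebra
  have : FaithfulSMul (A ⧸ RingHom.ker f) ℂ :=
    (faithfulSMul_iff_algebraMap_injective _ _).2 (RingHom.kerLift_injective f)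
  let ψ : (R ⧸ M) →ₐ[A ⧸ RingHom.ker f] ℂ := IsAlgClosed.lift
  exact ⟨ψ.toRingHom.comp (Ideal.Quotient.mk M), fun a => ψ.commutes (Ideal.Quotient.mk _ a)⟩

/-- A root of the specialised minimal polynomial comes from a point. -/
theorem exists_point {B R : Type} [CommRing B] [IsDomain B] [IsIntegrallyClosed B]
    [CommRing R] [IsDomain R] [Algebra B R] [Module.Finite B R] [FaithfulSMul B R]
    (t : R) (φ : B →+* ℂ) {T : ℂ} (h : ((minpoly B t).map φ).eval T = 0) :
    ∃ ψ : R →+* ℂ, (∀ b, ψ (algebraMap B R b) = φ b) ∧ ψ t = T := by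
  let _ : Algebra B[X] R := (aeval t : B[X] →ₐ[B] R).toRingHom.toAlgebra
  have : IsScalarTower B B[X] R := .of_algebraMap_eq fun b => (aeval_C t b).symm
  have : Algebra.IsIntegral B[X] R := .tower_top B
  obtain ⟨ψ, hψ⟩ := exists_ext (R := R) (eval₂RingHom φ T) fun P hP => by
    obtain ⟨c, rfl⟩ := minpoly.isIntegrallyClosed_dvd (Algebra.IsIntegral.isIntegral t)
      (show aeval t P = 0 from hP)
    rw [eval_map] at h
    simp [h]
  refine ⟨ψ, fun b => ?_, ?_⟩
  · rw [IsScalarTower.algebraMap_apply B B[X] R, hψ]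
    simp
  · exact (congrArg ψ (aeval_X t).symm).trans ((hψ X).trans (eval₂_X _ _))

end M4.Un
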