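import Pool.Agent.Lib.MP_33b3f9_ag.Un.GRoot
import Pool.Agent.Lib.MP_33b3f9_ag.Un.GAlg

/-!
Holomorphic functions of polynomial growth on an irreducible affine variety are rational.
-/

set_option autoImplicit false

noncomputable section

namespace M4.Un

open Filter Topology Function Polynomial

variable {ι : Type}

/-- The values of a family of polynomials. -/
def xv {α : Type} (x : α → MvPolynomial ι ℂ) (p : ι → ℂ) : α → ℂ :=
  fun i => MvPolynomial.eval p (x i)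

/-- A finite projection with a primitive element. -/
structure Nor (X : Set (ι → ℂ)) {s : ℕ} (x : Fin s → MvPolynomial ι ℂ) (t : MvPolynomial ι ℂ)
    (Q : (MvPolynomial (Fin s) ℂ)[X]) (Δ : MvPolynomial (Fin s) ℂ)
    (P M : ι → (MvPolynomial (Fin s) ℂ)[X]) : Prop where
  mon : Q.Monic
  deg : 0 < Q.natDegree
  ne : Δ ≠ 0
  root : ∀ p ∈ X, (sp Q (xv x p)).eval (MvPolynomial.eval p t) = 0
  co : ∀ p ∈ X, ∀ a, MvPolynomial.eval (xv x p) Δ * p a =
    (sp (P a) (xv x p)).eval (MvPolynomial.eval p t)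
  surj : ∀ ξ T, (sp Q ξ).eval T = 0 → ∃ p ∈ X, xv x p = ξ ∧ MvPolynomial.eval p t = T
  sep : ∀ ξ, MvPolynomial.eval ξ Δ ≠ 0 → (sp Q ξ).Separable
  int : ∀ a, (M a).Monic ∧ ∀ p ∈ X, (sp (M a) (xv x p)).eval (p a) = 0

theorem exists_nor [Finite ι] (I : Ideal (MvPolynomial ι ℂ)) [hI : I.IsPrime] :
    ∃ (s : ℕ) (x : Fin s → MvPolynomial ι ℂ) (t : _) (Q : _) (Δ : _) (P M : _),
      Nor {p | ∀ F ∈ I, MvPolynomial.eval p F = 0} x t Q Δ P M := by
  obtain ⟨s, g, hg, hf⟩ := exists_finite_inj_algHom_of_fg ℂ (MvPolynomial ι ℂ ⧸ I)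
  let _ : Algebra (MvPolynomial (Fin s) ℂ) (MvPolynomial ι ℂ ⧸ I) := g.toRingHom.toAlgebra
  have : Module.Finite (MvPolynomial (Fin s) ℂ) (MvPolynomial ι ℂ ⧸ I) := hf
  have : FaithfulSMul (MvPolynomial (Fin s) ℂ) (MvPolynomial ι ℂ ⧸ I) :=
    (faithfulSMul_iff_algebraMap_injective _ _).2 hg
  obtain ⟨t, Δ, hΔ, h1, A, A', h2⟩ := exists_prim (MvPolynomial (Fin s) ℂ) (MvPolynomial ι ℂ ⧸ I)
  obtain ⟨t, rfl⟩ := Ideal.Quotient.mk_surjective t
  choose x hx using fun i => Ideal.Quotient.mk_surjective (g (MvPolynomial.X i))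
  choose P hP using fun a => h1 (Ideal.Quotient.mk I (MvPolynomial.X a))
  have hi := fun r : MvPolynomial ι ℂ ⧸ I =>
    Algebra.IsIntegral.isIntegral (R := MvPolynomial (Fin s) ℂ) r
  have key : ∀ (p : ι → ℂ) (ψ : (MvPolynomial ι ℂ ⧸ I) →+* ℂ),
      (∀ F, ψ (Ideal.Quotient.mk I F) = MvPolynomial.eval p F) →
      ψ.comp (algebraMap (MvPolynomial (Fin s) ℂ) _) = MvPolynomial.eval (xv x p) :=
    fun p ψ hψ => MvPolynomial.ringHom_ext
      (fun c => (congrArg ψ (g.commutes c)).trans ((hψ (MvPolynomial.C c)).trans (by simp)))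
      fun i => (congrArg ψ (hx i).symm).trans ((hψ _).trans (by simp [xv]))
  have ke : ∀ p, (∀ F ∈ I, MvPolynomial.eval p F = 0) → ∃ ψ : (MvPolynomial ι ℂ ⧸ I) →+* ℂ,
      (∀ F, ψ (Ideal.Quotient.mk I F) = MvPolynomial.eval p F) ∧
      (∀ b, ψ (algebraMap (MvPolynomial (Fin s) ℂ) _ b) = MvPolynomial.eval (xv x p) b) ∧
      ∀ (r : _) (S : (MvPolynomial (Fin s) ℂ)[X]),
        ψ (aeval r S) = (sp S (xv x p)).eval (ψ r) := fun p hp =>
    ⟨Ideal.Quotient.lift I _ hp, fun _ => rfl,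
      RingHom.congr_fun (key p (Ideal.Quotient.lift I _ hp) fun _ => rfl),
      fun r S => by rw [aeval_def, hom_eval₂, key p _ fun _ => rfl, eval_map]⟩
  refine ⟨s, x, t, minpoly _ (Ideal.Quotient.mk I t), Δ, P,
    fun a => minpoly _ (Ideal.Quotient.mk I (MvPolynomial.X a)), minpoly.monic (hi _),
    minpoly.natDegree_pos (hi _), hΔ, fun p hp => ?_, fun p hp a => ?_, fun ξ T h => ?_,
    fun ξ h => ?_, fun a => ⟨minpoly.monic (hi _), fun p hp => ?_⟩⟩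
  · obtain ⟨ψ, h3, -, h5⟩ := ke p hp
    rw [← h3, ← h5, minpoly.aeval, map_zero]
  · obtain ⟨ψ, h3, h4, h5⟩ := ke p hp
    rw [← h3 t, ← h5, ← hP, map_mul, h4, h3, MvPolynomial.eval_X]
  · obtain ⟨ψ, h3, h4⟩ := exists_point _ _ h
    have h5 : ψ.comp (Ideal.Quotient.mk I) =
        MvPolynomial.eval fun a => ψ (Ideal.Quotient.mk I (MvPolynomial.X a)) :=
      MvPolynomial.ringHom_ext (fun c => (congrArg ψ (g.commutes c).symm).trans
        ((h3 (MvPolynomial.C c)).trans (by simp))) fun i => by simp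
    refine ⟨_, fun F hF => (RingHom.congr_fun h5 F).symm.trans ?_, funext fun i => ?_,
      (RingHom.congr_fun h5 t).symm.trans h4⟩
    · rw [RingHom.comp_apply, Ideal.Quotient.eq_zero_iff_mem.2 hF, map_zero]
    · refine (RingHom.congr_fun h5 _).symm.trans ((congrArg ψ (hx i)).trans ((h3 _).trans ?_))
      simp
  · have h3 := congrArg (Polynomial.map (MvPolynomial.eval ξ)) h2
    simp only [Polynomial.map_add, Polynomial.map_mul, map_C, ← derivative_map] at h3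
    refine ⟨C (MvPolynomial.eval ξ Δ)⁻¹ * sp A ξ, C (MvPolynomial.eval ξ Δ)⁻¹ * sp A' ξ, ?_⟩
    rw [mul_assoc, mul_assoc, ← mul_add, h3, ← map_mul, inv_mul_cancel₀ h, map_one]
  · obtain ⟨ψ, h3, -, h5⟩ := ke p hp
    rw [← MvPolynomial.eval_X (f := p) a, ← h3, ← h5, minpoly.aeval, map_zero]

variable {X : Set (ι → ℂ)} {s : ℕ} {x : Fin s → MvPolynomial ι ℂ} {t : MvPolynomial ι ℂ}
  {Q : (MvPolynomial (Fin s) ℂ)[X]} {Δ : MvPolynomial (Fin s) ℂ}
  {P M : ι → (MvPolynomial (Fin s) ℂ)[X]}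

/-- The point over `ξ` with primitive coordinate `T`. -/
def pt (Δ : MvPolynomial (Fin s) ℂ) (P : ι → (MvPolynomial (Fin s) ℂ)[X]) (ξ : Fin s → ℂ)
    (T : ℂ) : ι → ℂ := fun a => (sp (P a) ξ).eval T / MvPolynomial.eval ξ Δ

theorem Nor.pt_eq (h : Nor X x t Q Δ P M) {p : ι → ℂ} (hp : p ∈ X)
    (h0 : MvPolynomial.eval (xv x p) Δ ≠ 0) : pt Δ P (xv x p) (MvPolynomial.eval p t) = p :=
  funext fun a => by rw [pt, ← h.co p hp, mul_div_cancel_left₀ _ h0]

theorem Nor.pt_mem (h : Nor X x t Q Δ P M) {ξ : Fin s → ℂ} {T : ℂ}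
    (h0 : MvPolynomial.eval ξ Δ ≠ 0) (hT : (sp Q ξ).eval T = 0) :
    pt Δ P ξ T ∈ X ∧ xv x (pt Δ P ξ T) = ξ := by
  obtain ⟨p, hp, rfl, rfl⟩ := h.surj ξ T hT
  rw [h.pt_eq hp h0]
  exact ⟨hp, rfl⟩

theorem Nor.trace [Fintype ι] (h : Nor X x t Q Δ P M) {f : (ι → ℂ) → ℂ}
    (hf : ∀ p ∈ X, ∃ g, DifferentiableAt ℂ g p ∧ ∀ᶠ q in 𝓝 p, q ∈ X → f q = g q)
    (hb : Gw X fun p => ‖f p‖) (i : ℕ) : ∃ G : MvPolynomial (Fin s) ℂ, ∀ ξ,
      MvPolynomial.eval ξ Δ * ∑ T ∈ (sp Q ξ).roots.toFinset, f (pt Δ P ξ T) * T ^ i =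
        MvPolynomial.eval ξ G := by
  refine rat_of_growth (fun ξ hξ => sum_roots_diff h.mon (h.sep ξ hξ) fun τ hτ hr => ?_) ?_
  · have hΔ := (AnalyticOnNhd.eval_mvPolynomial Δ ξ (Set.mem_univ _)).differentiableAt
    have h1 : DifferentiableAt ℂ (fun y => pt Δ P y (τ y)) ξ :=
      differentiableAt_pi.2 fun a => by
        simpa only [pt, div_eq_mul_inv] using (sp_diff (P a) hτ).fun_mul (hΔ.fun_inv hξ)
    obtain ⟨g, hg, h2⟩ := hf _ (h.pt_mem hξ hr.self_of_nhds).1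
    refine ((hg.comp ξ h1).congr_of_eventuallyEq ?_).mul (hτ.pow i)
    filter_upwards [h1.continuousAt.eventually h2, hr, hΔ.continuousAt.eventually_ne hξ]
      with y h3 h4 h5
    exact h3 (h.pt_mem h5 h4).1
  · obtain ⟨c, k, hc, hb⟩ := hb
    obtain ⟨b, h1, h1', h2⟩ := root_growth h.mon
    choose β h3 h3' h4 using fun a => root_growth (h.int a).1
    have h5 : ∀ ξ, 0 ≤ 1 + ∑ a, β a ξ := fun ξ =>
      add_nonneg zero_le_one (Finset.sum_nonneg fun a _ => h3' a ξ)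
    refine ((Gw.const (Q.natDegree : ℝ)).mul (((Gw.const c).mul (((Gw.const 1).add
      (Gw.sum Finset.univ fun a _ => h3 a _)).pow (fun ξ _ => h5 ξ) k)
        fun ξ _ => pow_nonneg (h5 ξ) k).mul ((h1 _).pow (fun ξ _ => h1' ξ) i)
          fun ξ _ => pow_nonneg (h1' ξ) i) fun ξ _ => mul_nonneg (mul_nonneg hc
            (pow_nonneg (h5 ξ) k)) (pow_nonneg (h1' ξ) i)).of_le fun ξ hξ => ?_
    refine (norm_sum_le _ _).trans ((Finset.sum_le_card_nsmul _ _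
      (c * (1 + ∑ a, β a ξ) ^ k * b ξ ^ i) fun T hT => ?_).trans ?_)
    · rw [Multiset.mem_toFinset, mem_roots (h.mon.map _).ne_zero, IsRoot.def] at hT
      obtain ⟨h6, h7⟩ := h.pt_mem hξ hT
      have h8 : ‖pt Δ P ξ T‖ ≤ ∑ a, β a ξ :=
        (pi_norm_le_iff_of_nonneg (Finset.sum_nonneg fun a _ => h3' a ξ)).2 fun a =>
          (h4 a ξ _ (h7 ▸ (h.int a).2 _ h6 :)).trans
            (Finset.single_le_sum (fun a _ => h3' a ξ) (Finset.mem_univ a))
      rw [norm_mul, norm_pow]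
      refine mul_le_mul ((hb _ h6).trans ?_) (pow_le_pow_left₀ (norm_nonneg _) (h2 ξ T hT) i)
        (by positivity) (mul_nonneg hc (pow_nonneg (h5 ξ) k))
      gcongr
    · rw [nsmul_eq_mul]
      refine mul_le_mul_of_nonneg_right (Nat.cast_le.2 ((Multiset.toFinset_card_le _).trans
        ((card_roots' _).trans (h.mon.natDegree_map _).le))) (mul_nonneg (mul_nonneg hc
            (pow_nonneg (h5 ξ) k)) (pow_nonneg (h1' ξ) i))

theorem sum_div {q : ℂ[X]} (hq : q ≠ 0) {T : ℂ} (hT : q.eval T = 0) (F : ℂ → ℂ) :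
    ∑ S ∈ q.roots.toFinset, F S * (q /ₘ (Polynomial.X - C T)).eval S =
      F T * q.derivative.eval T := by
  rw [Finset.sum_eq_single_of_mem T (by simp [hq, hT]) fun S hS hST => ?_]
  · rw [← divByMonic_add_X_sub_C_mul_derivative_divByMonic_eq_derivative q T]
    simp
  · rw [Multiset.mem_toFinset, mem_roots hq, IsRoot.def, ← mul_divByMonic_eq_iff_isRoot.2 hT,
      eval_mul, mul_eq_zero] at hS
    rw [hS.resolve_left (by simpa [sub_eq_zero] using hST), mul_zero]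

theorem affine [Fintype ι] (I : Ideal (MvPolynomial ι ℂ)) [I.IsPrime] {X : Set (ι → ℂ)}
    (hX : X = {p | ∀ F ∈ I, MvPolynomial.eval p F = 0}) :
    ∃ Q₀ : MvPolynomial ι ℂ, (∃ p ∈ X, MvPolynomial.eval p Q₀ ≠ 0) ∧ ∀ f : (ι → ℂ) → ℂ,
      (∀ p ∈ X, ∃ g, DifferentiableAt ℂ g p ∧ ∀ᶠ q in 𝓝 p, q ∈ X → f q = g q) →
      (Gw X fun p => ‖f p‖) → ∃ P₀ : MvPolynomial ι ℂ,
        ∀ p ∈ X, f p * MvPolynomial.eval p Q₀ = MvPolynomial.eval p P₀ := by
  obtain ⟨s, x, t, Q, Δ, P, M, h⟩ := exists_nor I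
  rw [← hX] at h
  let L : (MvPolynomial (Fin s) ℂ)[X] →+* MvPolynomial ι ℂ :=
    eval₂RingHom (MvPolynomial.aeval x).toRingHom t
  have hL : ∀ p S, MvPolynomial.eval p (L S) = (sp S (xv x p)).eval (MvPolynomial.eval p t) :=
    fun p S => by
      rw [eval_map, coe_eval₂RingHom, hom_eval₂]
      congr 1
      exact MvPolynomial.ringHom_ext (fun c => by simp) fun i => by simp [xv]
  refine ⟨L (C (Δ * Δ) * derivative Q), ?_, fun f hf hb => ?_⟩
  · obtain ⟨ξ, hξ⟩ : ∃ ξ, MvPolynomial.eval ξ Δ ≠ 0 :=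
      not_forall.1 fun h0 => h.ne (MvPolynomial.funext fun ξ => by simpa using h0 ξ)
    obtain ⟨T, hT⟩ := IsAlgClosed.exists_root (sp Q ξ) (natDegree_pos_iff_degree_pos.1
      (h.deg.trans_eq (h.mon.natDegree_map _).symm)).ne'
    obtain ⟨p, hp, rfl, rfl⟩ := h.surj ξ T hT
    refine ⟨p, hp, ?_⟩
    have h1 := sep_ne (h.sep _ hξ) hT
    rw [derivative_map] at h1
    simp [hL, hξ, h1]
  · choose G hG using h.trace hf hb
    let D := Q.map C /ₘ (Polynomial.X - C (Polynomial.X : (MvPolynomial (Fin s) ℂ)[X]))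
    refine ⟨L (C Δ * ∑ i ∈ Finset.range (D.natDegree + 1), D.coeff i * C (G i)), fun p hp => ?_⟩
    by_cases h0 : MvPolynomial.eval (xv x p) Δ = 0
    · simp [hL, h0]
    have h1 := sum_div (h.mon.map _).ne_zero (h.root p hp) fun T => f (pt Δ P (xv x p) T)
    have h2 : sp Q (xv x p) /ₘ (Polynomial.X - C (MvPolynomial.eval p t)) =
        D.map (eval₂RingHom (MvPolynomial.eval (xv x p)) (MvPolynomial.eval p t)) := by
      rw [map_divByMonic _ (monic_X_sub_C _), Polynomial.map_map]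
      congr 2
      · ext1 b
        simp
      · simp
    simp only [h2, h.pt_eq hp h0, eval_map, eval₂_eq_sum_range (p := D), Finset.mul_sum,
      derivative_map, coe_eval₂RingHom] at h1
    rw [Finset.sum_comm] at h1
    simp only [hL, eval_map, eval₂_mul, eval₂_C, eval₂_finsetSum, ← hG, map_mul]
    rw [show ∀ a b c : ℂ, a * (b * b * c) = b * (b * (a * c)) from fun a b c => by ring, ← h1,
      Finset.mul_sum]
    congr 1
    refine Finset.sum_congr rfl fun i _ => ?_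
    simp only [Finset.mul_sum]
    exact Finset.sum_congr rfl fun T _ => by ring

end M4.Un
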