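import Pool.Agent.Lib.MP_33b3f9_ag.Un.GLoc
import Pool.Agent.Lib.MP_33b3f9_ag.Un.GAff

/-!
Every section is a quotient of forms near every point.
-/

set_option autoImplicit false

noncomputable section

namespace M4.Un

open Filter Topology MvPolynomial

variable {α κ μ : Type} [Fintype α] [Fintype κ] [Fintype μ]
  {u : (κ → ℂ) → α → ℂ} {p : (μ → ℝ) ≃ₗ[ℝ] (κ → ℂ)}

/-- An entire function that is homogeneous of degree `k` on the cone. -/
def Sec (u : (κ → ℂ) → α → ℂ) (k : ℕ) (s : (κ → ℂ) → ℂ) : Prop :=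
  Differentiable ℂ s ∧ ∀ z w (c : ℂ), u z = c • u w → s z = c ^ k * s w

omit [Fintype κ] in
theorem Up.bound (h : Up u p) {k : ℕ} {s : (κ → ℂ) → ℂ} (hs : Sec u k s) :
    ∃ C, 0 ≤ C ∧ ∀ z, ‖s z‖ ≤ C * ‖u z‖ ^ k := by
  have hp : Continuous p := p.toLinearMap.continuous_of_finiteDimensional
  have hu := h.hol.continuous
  have h1 := hs.1.continuous
  have h0 : ∀ z, 0 < ‖u z‖ ^ k := fun z => pow_pos (norm_pos_iff.2 (h.ne z)) k
  obtain ⟨C, hC⟩ := (isCompact_Icc (a := (0 : μ → ℝ)) (b := 1)).exists_bound_of_continuousOn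
    (f := fun x => ‖s (p x)‖ / ‖u (p x)‖ ^ k)
    (Continuous.div (by fun_prop) (by fun_prop) fun x => (h0 _).ne').continuousOn
  refine ⟨|C|, abs_nonneg C, fun z => ?_⟩
  obtain ⟨x, hx, c, hc⟩ := h.red z
  have h2 := (div_le_iff₀ (h0 _)).1 ((le_abs_self _).trans ((hC x hx).trans (le_abs_self C)))
  have hc0 : c ≠ 0 := fun e => h.ne _ (by rw [hc, e, zero_smul])
  rw [hs.2 _ _ c hc, hc, norm_mul, norm_pow, norm_smul, mul_pow, mul_left_comm] at h2
  exact le_of_mul_le_mul_left h2 (pow_pos (norm_pos_iff.2 hc0) k)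

theorem exists_hom (a : α) (F : MvPolynomial α ℂ) {e : ℕ} (he : F.totalDegree ≤ e) :
    ∃ F₀ : MvPolynomial α ℂ, F₀.IsHomogeneous e ∧ ∀ (q : α → ℂ) (c : ℂ), q a = 1 →
      eval (c • q) F₀ = c ^ e * eval q F := by
  have h1 : (∑ d ∈ Finset.range (F.totalDegree + 1),
      homogeneousComponent d F * X a ^ (e - d)).IsHomogeneous e :=
    IsHomogeneous.sum _ _ _ fun d hd => by
      have h2 := (homogeneousComponent_isHomogeneous d F).mul (isHomogeneous_X_pow (R := ℂ) a (e - d))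
      rwa [Nat.add_sub_cancel' ((Nat.lt_succ_iff.1 (Finset.mem_range.1 hd)).trans he)] at h2
  refine ⟨_, h1, fun q c hq => ?_⟩
  rw [Gr.proja_smul h1]
  conv_rhs => rw [← sum_homogeneousComponent F]
  simp [hq]

omit [Fintype μ] in
theorem Up.ev (h : Up u p) (F : MvPolynomial α ℂ) : Differentiable ℂ fun z => eval (u z) F :=
  fun z => (AnalyticOnNhd.eval_mvPolynomial F _ (Set.mem_univ _)).differentiableAt.comp z (h.hol z)

omit [Fintype α] [Fintype κ] [Fintype μ] in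
theorem Up.chart (h : Up u p) {a : α} {z : κ → ℂ} {q : α → ℂ} (hz : u z = u z a • q) :
    u z a ≠ 0 ∧ q a = 1 := by
  have h0 : u z a ≠ 0 := fun e => h.ne z (by rw [hz, e, zero_smul])
  exact ⟨h0, mul_left_cancel₀ h0 ((congrFun hz a).symm.trans (mul_one _).symm)⟩

omit [Fintype α] [Fintype μ] in
theorem Up.cancel (h : Up u p) {a : α} (ha : ∃ z, u z a ≠ 0) {f : (κ → ℂ) → ℂ}
    (hf : Differentiable ℂ f) (h0 : ∀ z, u z a ≠ 0 → f z = 0) : f = 0 := by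
  refine (entire_mul_eq_zero (differentiable_pi.1 h.hol a) hf (funext fun z => ?_)).resolve_left
    fun e => ha.elim fun z hz => hz (congrFun e z)
  by_cases hz : u z a = 0
  · simp [hz]
  · simp [h0 z hz]

/-- One denominator for all sections. -/
theorem Up.generic (h : Up u p) {J : Set (MvPolynomial α ℂ)}
    (hJ : ∀ v : α → ℂ, v ≠ 0 → ((∀ F ∈ J, eval v F = 0) ↔ ∃ z, ∃ c : ℂ, v = c • u z)) :
    ∃ (a : α) (b : κ → ℂ) (e : ℕ) (Q : MvPolynomial α ℂ), u b a ≠ 0 ∧ Q.IsHomogeneous e ∧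
      eval (u b) Q ≠ 0 ∧ ∀ k s, Sec u k s → ∃ (n : ℕ) (P : MvPolynomial α ℂ),
        P.IsHomogeneous (e + n + k) ∧ ∀ z, s z * (eval (u z) Q * u z a ^ n) = eval (u z) P := by
  obtain ⟨a, ha⟩ := Function.ne_iff.1 (h.ne 0)
  have hy : ∀ z, u z a ≠ 0 → u z = u z a • ((u z a)⁻¹ • u z) := fun z hz =>
    (smul_inv_smul₀ hz _).symm
  let Y : Set (α → ℂ) := {q | ∃ z, u z = u z a • q}
  have hp : (vanishingIdeal ℂ Y).IsPrime := by
    refine ⟨fun e => ?_, fun {F G} hFG => ?_⟩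
    · simpa using (e ▸ Submodule.mem_top : 1 ∈ vanishingIdeal ℂ Y) _ ⟨0, hy 0 ha⟩
    obtain ⟨F₀, -, hF⟩ := exists_hom a F le_rfl
    obtain ⟨G₀, -, hG⟩ := exists_hom a G le_rfl
    have key : ∀ {F F₀ : MvPolynomial α ℂ}, (∀ (q : α → ℂ) (c : ℂ), q a = 1 →
        eval (c • q) F₀ = c ^ F.totalDegree * eval q F) → (fun z => eval (u z) F₀) = 0 →
        F ∈ vanishingIdeal ℂ Y := fun {F F₀} hF h0 q ⟨z, hz⟩ => by
      have h1 := congrFun h0 z
      rw [hz, hF _ _ (h.chart hz).2] at h1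
      exact (mul_eq_zero.1 h1).resolve_left (pow_ne_zero _ (h.chart hz).1)
    refine (entire_mul_eq_zero (h.ev F₀) (h.ev G₀) (h.cancel ⟨0, ha⟩ ((h.ev F₀).mul (h.ev G₀))
      fun z hz => ?_)).imp (key hF) (key hG)
    have h1 : eval _ (F * G) = 0 := hFG _ ⟨z, hy z hz⟩
    rw [Pi.mul_apply, hy z hz, hF _ _ (h.chart (hy z hz)).2, hG _ _ (h.chart (hy z hz)).2,
      mul_mul_mul_comm, ← map_mul, h1, mul_zero]
  have hY : Y = {q | ∀ F ∈ vanishingIdeal ℂ Y, eval q F = 0} := by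
    refine Set.Subset.antisymm (fun q hq F hF => hF q hq) fun q hq => ?_
    have h1 : q a = 1 := by
      simpa [sub_eq_zero] using hq (X a - 1) fun q ⟨z, hz⟩ => by simp [(h.chart hz).2]
    obtain ⟨z, c, hc⟩ := (hJ q fun e => by simp [e] at h1).1 fun F hF => hq F fun q ⟨z, hz⟩ =>
      (hJ q fun e => h.ne z (by rw [hz, e, smul_zero])).2
        ⟨z, (u z a)⁻¹, by rw [eq_inv_smul_iff₀ (h.chart hz).1, ← hz]⟩ F hF
    refine ⟨z, ?_⟩
    rw [hc, smul_smul, mul_comm, show c * u z a = 1 from (congrFun hc a).symm.trans h1, one_smul]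
  obtain ⟨Q, ⟨q, ⟨b, hb⟩, hq⟩, hQ⟩ := affine _ hY
  obtain ⟨Q₀, h1, h2⟩ := exists_hom a Q le_rfl
  refine ⟨a, b, _, Q₀, (h.chart hb).1, h1, ?_, fun k s hs => ?_⟩
  · rw [hb, h2 _ _ (h.chart hb).2]
    exact mul_ne_zero (pow_ne_zero _ (h.chart hb).1) hq
  choose! zz hzz using fun q (hq : q ∈ Y) => hq
  have hf : ∀ z q, u z = u z a • q → s (zz q) / u (zz q) a ^ k = s z / u z a ^ k := fun z q hz => by
    have h3 := hzz q ⟨z, hz⟩
    have h4 := (h.chart hz).1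
    have h5 := (h.chart h3).1
    rw [hs.2 (zz q) z (u (zz q) a / u z a) (h3.trans (by
      rw [div_eq_mul_inv, mul_smul, (inv_smul_eq_iff₀ h4).2 hz])), div_pow]
    field_simp
  obtain ⟨P, hP⟩ := hQ (fun q => s (zz q) / u (zz q) a ^ k) (by
    rintro q ⟨z, hz⟩
    obtain ⟨ρ, h3, h4⟩ := h.inv (h.chart hz).1
    have hq : q = (u z a)⁻¹ • u z := by rw [eq_inv_smul_iff₀ (h.chart hz).1, ← hz]
    have hu := differentiable_pi.1 h.hol a
    refine ⟨fun q => s (ρ q) / u (ρ q) a ^ k, ?_, ?_⟩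
    · simp only [hq, div_eq_mul_inv]
      exact ((hs.1 _).comp _ h3).fun_mul
        ((((hu _).comp _ h3).fun_pow k).fun_inv (pow_ne_zero k (by
          simpa [h4.self_of_nhds] using (h.chart hz).1)))
    · rw [hq]
      filter_upwards [h.emb (a := a) h4] with q' hq' ⟨z', hz'⟩
      obtain ⟨w, h5, h6⟩ := hq' z' hz'
      rw [hf w q' h6]
      rw [(inv_smul_eq_iff₀ (h.chart h6).1).2 h6] at h5
      rw [h5]) (by
    obtain ⟨C, hC, hb⟩ := h.bound hs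
    refine ⟨C, k, hC, fun q ⟨z, hz⟩ => ?_⟩
    have h3 := hb z
    beta_reduce
    rw [hf z q hz, norm_div, norm_pow, div_le_iff₀ (pow_pos (norm_pos_iff.2 (h.chart hz).1) k),
      mul_assoc, ← mul_pow]
    refine h3.trans ?_
    conv_lhs => rw [hz, norm_smul, mul_comm ‖u z a‖]
    gcongr
    exact le_add_of_nonneg_left zero_le_one)
  obtain ⟨P₀, h3, h4⟩ := exists_hom a P (e := Q.totalDegree + P.totalDegree + k) (by omega)
  refine ⟨_, P₀, h3, fun z => sub_eq_zero.1 (congrFun (h.cancel ⟨0, ha⟩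
    ((hs.1.fun_mul ((h.ev Q₀).fun_mul ((differentiable_pi.1 h.hol a).fun_pow _))).fun_sub
      (h.ev P₀)) fun z hz => ?_) z)⟩
  have h5 := hP _ ⟨z, hy z hz⟩
  have h6 := h2 _ (u z a) (h.chart (hy z hz)).2
  have h7 := h4 _ (u z a) (h.chart (hy z hz)).2
  rw [← hy z hz] at h6 h7
  simp only [hf z _ (hy z hz)] at h5
  rw [h6, h7, ← h5]
  field_simp
  ring

theorem Up.rat (h : Up u p) {J : Set (MvPolynomial α ℂ)}
    (hJ : ∀ v : α → ℂ, v ≠ 0 → ((∀ F ∈ J, eval v F = 0) ↔ ∃ z, ∃ c : ℂ, v = c • u z))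
    {k : ℕ} {s : (κ → ℂ) → ℂ} (hs : Sec u k s) (z₀ : κ → ℂ) :
    ∃ (e : ℕ) (P Q : MvPolynomial α ℂ), P.IsHomogeneous (e + k) ∧ Q.IsHomogeneous e ∧
      eval (u z₀) Q ≠ 0 ∧ ∀ z, s z * eval (u z) Q = eval (u z) P := by
  obtain ⟨a, b, e, Q, hb, hQ, hQb, hg⟩ := h.generic hJ
  obtain ⟨t, rfl⟩ : ∃ t, z₀ = b + t := ⟨z₀ - b, (add_sub_cancel _ _).symm⟩
  obtain ⟨d, Ψ, h1, ⟨a₂, h2⟩, h3⟩ := h.sub b (-t)
  obtain ⟨d', Ψ', h1', ⟨a₃, h2'⟩, h3'⟩ := h.sub (b + t) t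
  choose c hc using h3
  simp only [sub_neg_eq_add] at hc
  have ht : Differentiable ℂ fun z : κ → ℂ => z + t := differentiable_id.add_const t
  have hcd : Differentiable ℂ c := entire_of_ratio (fun i => h.ev (Ψ i))
    (fun i => (differentiable_pi.1 h.hol i).comp ht) (fun z => Function.ne_iff.1 (h.ne _))
    fun i z => hc z i
  obtain ⟨n, P, hP, hP'⟩ := hg (d * k) (fun z => s (z + t) * c z ^ k)
    ⟨(hs.1.comp ht).mul (hcd.pow k), fun z w l hl => by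
      obtain ⟨m, hm⟩ := (h.fib (z + t) (w + t)).2 (by simpa using (h.fib z w).1 ⟨l, hl⟩)
      obtain ⟨i, hi⟩ := Function.ne_iff.1 (h.ne (w + t))
      have h4 := hc z i
      rw [hl, Gr.proja_smul (h1 i), hc, hm, Pi.smul_apply, smul_eq_mul, ← mul_assoc,
        ← mul_assoc] at h4
      beta_reduce
      rw [hs.2 _ _ m hm, pow_mul, mul_right_comm, ← mul_pow, mul_comm m,
        ← mul_right_cancel₀ hi h4]
      ring⟩
  obtain ⟨i, hi⟩ := Function.ne_iff.1 (h.ne (b + t))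
  have hR : (Q * X a ^ n * Ψ i ^ k).IsHomogeneous (e + n + d * k) :=
    (hQ.mul (isHomogeneous_X_pow a n)).mul ((h1 i).pow k)
  choose c' hc' using h3'
  have key : ∀ {F : MvPolynomial α ℂ}, F.IsHomogeneous (e + n + d * k) → ∀ z,
      eval (u z) (aeval Ψ' F) = c' z ^ (e + n + d * k) * eval (u (z - t)) F := fun {F} hF z => by
    rw [← Gr.proja_smul hF, show c' z • u (z - t) = fun j => eval (u z) (Ψ' j) from
      funext fun j => (hc' z j).symm]
    exact (comp_aeval_apply Ψ' (aeval (u z)) F :)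
  refine ⟨_, aeval Ψ' P * X i ^ k, _, (hP.aeval _ h1').mul (isHomogeneous_X_pow i k),
    hR.aeval _ h1', ?_, fun z => ?_⟩
  · rw [hc'] at h2'
    rw [hc] at h2
    rw [key hR]
    simp only [add_sub_cancel_right, map_mul, map_pow, eval_X, hc]
    exact mul_ne_zero (pow_ne_zero _ (left_ne_zero_of_mul h2')) (mul_ne_zero (mul_ne_zero hQb
      (pow_ne_zero _ hb)) (pow_ne_zero _ (mul_ne_zero (left_ne_zero_of_mul h2) hi)))
  · rw [key hR, map_mul (eval (u z)), key hP, ← hP']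
    simp only [map_mul, map_pow, eval_X, hc, sub_add_cancel]
    ring

/-- Homogeneous components of a polynomial map that sends a line through the origin to a line. -/
theorem hom_comp {Ψ : α → MvPolynomial α ℂ} {v w : α → ℂ} (hw : w ≠ 0)
    (h : ∀ s : ℂ, ∃ c : ℂ, ∀ a, eval (s • v) (Ψ a) = c * w a) (d : ℕ) :
    ∃ c : ℂ, ∀ a, eval v (homogeneousComponent d (Ψ a)) = c * w a := by
  obtain ⟨b, hb⟩ := Function.ne_iff.1 hw
  have key : ∀ F : MvPolynomial α ℂ, (∀ s : ℂ, eval (s • v) F = 0) →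
      eval v (homogeneousComponent d F) = 0 := fun F hF => by
    have h1 : ∑ n ∈ Finset.range (F.totalDegree + 1),
        Polynomial.monomial n (eval v (homogeneousComponent n F)) = 0 :=
      Polynomial.funext fun s => by
        rw [Polynomial.eval_zero, ← hF s]
        conv_rhs => rw [← sum_homogeneousComponent F]
        simp [Polynomial.eval_finsetSum, Gr.proja_smul (homogeneousComponent_isHomogeneous _ F),
          mul_comm]
    by_cases hd : F.totalDegree < d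
    · rw [homogeneousComponent_eq_zero _ _ hd, map_zero]
    · simpa [Polynomial.coeff_monomial, Nat.lt_succ_iff, not_lt.1 hd] using
        congrArg (fun q => Polynomial.coeff q d) h1
  refine ⟨eval v (homogeneousComponent d (Ψ b)) / w b, fun a => ?_⟩
  have h1 := key (C (w b) * Ψ a - C (w a) * Ψ b) fun s => by
    obtain ⟨c, hc⟩ := h s
    simp only [map_sub, map_mul, eval_C, hc]
    ring
  simp only [map_sub, homogeneousComponent_C_mul, map_mul, eval_C] at h1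
  have hb' : w b ≠ 0 := hb
  field_simp
  linear_combination h1

omit [Fintype κ] in
theorem hom_sub (h0 : ∀ z, u z ≠ 0) {z₀ w₀ : κ → ℂ} {Ψ : α → MvPolynomial α ℂ}
    (h1 : ∃ a, eval (u z₀) (Ψ a) ≠ 0)
    (h2 : ∀ z (s : ℂ), ∃ c : ℂ, ∀ a, eval (s • u z) (Ψ a) = c * u (z - w₀) a) :
    ∃ (d : ℕ) (Ψ : α → MvPolynomial α ℂ), (∀ a, (Ψ a).IsHomogeneous d) ∧
      (∃ a, eval (u z₀) (Ψ a) ≠ 0) ∧ ∀ z, ∃ c : ℂ, ∀ a, eval (u z) (Ψ a) = c * u (z - w₀) a := by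
  obtain ⟨a, ha⟩ := h1
  rw [← sum_homogeneousComponent (Ψ a), map_sum] at ha
  obtain ⟨d, -, hd⟩ := Finset.exists_ne_zero_of_sum_ne_zero ha
  exact ⟨d, fun a => homogeneousComponent d (Ψ a), fun a => homogeneousComponent_isHomogeneous _ _,
    ⟨a, hd⟩, fun z => hom_comp (h0 _) (h2 z) d⟩

/-- Every section is a quotient of forms near every point. -/
theorem rational (u : (κ → ℂ) → α → ℂ) (hu : ∀ a, Differentiable ℂ fun z => u z a)
    (h0 : ∀ z, u z ≠ 0) (p : (μ → ℝ) ≃ₗ[ℝ] (κ → ℂ)) (J : Set (MvPolynomial α ℂ))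
    (himg : ∀ v : α → ℂ, v ≠ 0 → ((∀ F ∈ J, eval v F = 0) ↔ ∃ z, ∃ c : ℂ, v = c • u z))
    (hfib : ∀ z w, (∃ c : ℂ, u z = c • u w) ↔ ∃ n, z - w = p (rz n))
    (hsub : ∀ z₀ w₀, ∃ (d : ℕ) (Ψ : α → MvPolynomial α ℂ), (∀ a, (Ψ a).IsHomogeneous d) ∧
      (∃ a, eval (u z₀) (Ψ a) ≠ 0) ∧ ∀ z, ∃ c : ℂ, ∀ a, eval (u z) (Ψ a) = c * u (z - w₀) a)
    (k : ℕ) (s : (κ → ℂ) → ℂ) (hs : Differentiable ℂ s)
    (hs' : ∀ z w (c : ℂ), u z = c • u w → s z = c ^ k * s w) (z₀ : κ → ℂ) :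
    ∃ (e : ℕ) (P Q : MvPolynomial α ℂ), P.IsHomogeneous (e + k) ∧ Q.IsHomogeneous e ∧
      eval (u z₀) Q ≠ 0 ∧ ∀ z, s z * eval (u z) Q = eval (u z) P :=
  Up.rat ⟨differentiable_pi.2 hu, h0, hfib, hsub⟩ himg ⟨hs, hs'⟩ z₀

end M4.Un
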