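import Pool.Agent.Lib.MP_33b3f9_ag.MT

/-!
Conjugation of Zariski closures and of Mumford-Tate groups.
-/

set_option autoImplicit false

noncomputable section

namespace M4.Un

open Matrix Pool.Agent.Lib.MP_33b3f9_ag

variable {ν : Type} [Fintype ν] [DecidableEq ν]

/-- The substitution `g ↦ A g B` in a polynomial in the matrix entries. -/
def cj {F : Type*} [Field F] (A B : Matrix ν ν F) (P : MvPolynomial (ν × ν) F) :
    MvPolynomial (ν × ν) F :=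
  MvPolynomial.aeval (fun p : ν × ν => (A.map MvPolynomial.C *
    (Matrix.of fun s t => MvPolynomial.X (s, t)) * B.map MvPolynomial.C :
      Matrix ν ν (MvPolynomial (ν × ν) F)) p.1 p.2) P

omit [DecidableEq ν] in
theorem evalM_cj {F Ω : Type*} [Field F] [Field Ω] [Algebra F Ω] (A B : Matrix ν ν F)
    (g : Matrix ν ν Ω) (P : MvPolynomial (ν × ν) F) :
    evalM g (cj A B P) = evalM (A.map (algebraMap F Ω) * g * B.map (algebraMap F Ω)) P := by
  unfold evalM cj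
  rw [← AlgHom.comp_apply, MvPolynomial.comp_aeval]
  congr 2
  funext p
  simp [Matrix.mul_apply]

theorem zcl_conj {F Ω : Type*} [Field F] [Field Ω] [Algebra F Ω] {A B : Matrix ν ν F}
    {T T' : Set (GL ν F)} (h : ∀ t' ∈ T', ∃ t ∈ T, (t : Matrix ν ν F) = A * t' * B)
    {g g' : GL ν Ω} (hg : g' ∈ zcl Ω T')
    (e : (g : Matrix ν ν Ω) = A.map (algebraMap F Ω) * g' * B.map (algebraMap F Ω)) :
    g ∈ zcl Ω T := fun P hP => by
  rw [e, ← evalM_cj]
  refine hg _ fun t' ht' => ?_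
  obtain ⟨t, ht, e'⟩ := h t' ht'
  rw [evalM_cj]
  simpa [← e'] using hP t ht

/-- The invertible matrix over `Ω` of a rational matrix with inverse `B`. -/
def glQ (Ω : Type*) [Field Ω] [Algebra ℚ Ω] {A B : Matrix ν ν ℚ} (h : A * B = 1) : GL ν Ω :=
  ⟨A.map (algebraMap ℚ Ω), B.map (algebraMap ℚ Ω),
    by rw [← Matrix.map_mul, h, Matrix.map_one _ (map_zero _) (map_one _)],
    by rw [← Matrix.map_mul, mul_eq_one_comm.1 h, Matrix.map_one _ (map_zero _) (map_one _)]⟩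

theorem cj_mem {A B : Matrix ν ν ℚ} (h : A * B = 1) {I I' : Matrix ν ν ℝ}
    (hI : I' * A.map (algebraMap ℚ ℝ) = A.map (algebraMap ℚ ℝ) * I)
    {P : MvPolynomial (ν × ν) ℚ} (hP : P ∈ mtEqns I') : cj A B P ∈ mtEqns I := by
  obtain ⟨S, ⟨⟨H, hH⟩, hS⟩, hP⟩ := hP
  refine ⟨cj A B '' S, ⟨⟨H.comap (MulAut.conj (glQ (AlgebraicClosure ℚ) h)).toMonoidHom, ?_⟩,
    ?_⟩, P, hP, rfl⟩
  · ext g
    rw [SetLike.mem_coe, Subgroup.mem_comap, ← SetLike.mem_coe, hH]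
    simp only [zeroSet, Set.mem_ofPred_eq, Set.forall_mem_image, evalM_cj]
    rfl
  · rintro u v huv _ ⟨Q, hQ, rfl⟩
    have h1 : A.map (algebraMap ℚ ℝ) * B.map (algebraMap ℚ ℝ) = 1 := (glQ ℝ h).val_inv
    rw [evalM_cj, Matrix.mul_add, Matrix.mul_smul, Matrix.mul_smul, ← hI, Matrix.add_mul,
      Matrix.smul_mul, Matrix.smul_mul, Matrix.mul_one, Matrix.mul_assoc, h1, Matrix.mul_one]
    exact hS u v huv Q hQ

theorem mt_conj {Ω : Type*} [Field Ω] [Algebra ℚ Ω] {A B : Matrix ν ν ℚ} (h : A * B = 1)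
    {I I' : Matrix ν ν ℝ} (hI : I' * A.map (algebraMap ℚ ℝ) = A.map (algebraMap ℚ ℝ) * I)
    {g g' : GL ν Ω} (hg : g ∈ zeroSet Ω (mtEqns I))
    (e : (g' : Matrix ν ν Ω) = A.map (algebraMap ℚ Ω) * g * B.map (algebraMap ℚ Ω)) :
    g' ∈ zeroSet Ω (mtEqns I') := fun P hP => by
  rw [e, ← evalM_cj]
  exact hg _ (cj_mem h hI hP)

/-- The conjecture passes along a rational conjugation to a larger set. -/
theorem conj_main {F Ω : Type*} [Field F] [Algebra ℚ F] [Field Ω] [Algebra ℚ Ω] [Algebra F Ω]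
    {A B : Matrix ν ν ℚ} (h : A * B = 1)
    {I I' : Matrix ν ν ℝ} (hI : I' * A.map (algebraMap ℚ ℝ) = A.map (algebraMap ℚ ℝ) * I)
    {T T' : Set (GL ν F)} (hT : ∀ t' ∈ T', ∃ t ∈ T,
      (t' : Matrix ν ν F) * A.map (algebraMap ℚ F) = A.map (algebraMap ℚ F) * t)
    (h1 : T ⊆ zeroSet F (mtEqns I))
    (h2 : T' ⊆ zeroSet F (mtEqns I') → zcl Ω T' = zeroSet Ω (mtEqns I')) :
    zcl Ω T = zeroSet Ω (mtEqns I) := by
  have hAB : A.map (algebraMap ℚ F) * B.map (algebraMap ℚ F) = 1 := (glQ F h).val_inv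
  have hBA : B.map (algebraMap ℚ F) * A.map (algebraMap ℚ F) = 1 := (glQ F h).inv_val
  refine (MT_sub T _ h1).antisymm fun g hg => ?_
  have h3 := h2 fun t' ht' => by
    obtain ⟨t, ht, e⟩ := hT t' ht'
    refine mt_conj h hI (h1 ht) ?_
    rw [← e, Matrix.mul_assoc, hAB, Matrix.mul_one]
  have h4 : glQ Ω h * g * (glQ Ω h)⁻¹ ∈ zcl Ω T' := h3 ▸ mt_conj h hI hg rfl
  refine zcl_conj (A := B.map (algebraMap ℚ F)) (B := A.map (algebraMap ℚ F))
    (fun t' ht' => ?_) h4 ?_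
  · obtain ⟨t, ht, e⟩ := hT t' ht'
    exact ⟨t, ht, by rw [Matrix.mul_assoc, e, ← Matrix.mul_assoc, hBA, Matrix.one_mul]⟩
  · have e : ∀ C : Matrix ν ν ℚ, (C.map (algebraMap ℚ F)).map (algebraMap F Ω) =
        C.map (algebraMap ℚ Ω) := fun C => by
      ext i j
      simp
    rw [e, e]
    change _ = (((glQ Ω h)⁻¹ * (glQ Ω h * g * (glQ Ω h)⁻¹) * glQ Ω h : GL ν Ω) : Matrix ν ν Ω)
    congr 1
    group

end M4.Un
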