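import Pool.Agent.Lib.MP_33b3f9_ag.M4.P.GC

/-!
An additive map of a real torus acts on the Tate module.
-/

set_option autoImplicit false

noncomputable section

namespace M4.Un

open Matrix

variable {κ : Type}

/-- `R` is the graph of an additive map of `ℝ^κ / ℤ^κ`. -/
structure Gr (R : (κ → ℝ) → (κ → ℝ) → Prop) : Prop where
  ex : ∀ x, ∃ y, R x y
  sub : ∀ x y x' y', R x y → R x' y' → R (x - x') (y - y')
  un : ∀ x y y', R x y → R x y' → ∃ n, y - y' = rz n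
  sh : ∀ x y n n', R x y → R (x + rz n) (y + rz n')

variable {R : (κ → ℝ) → (κ → ℝ) → Prop}

theorem Gr.zero (h : Gr R) : R 0 0 := by
  obtain ⟨y, hy⟩ := h.ex 0
  simpa using h.sub _ _ _ _ hy hy

theorem Gr.add (h : Gr R) {x y x' y' : κ → ℝ} (h1 : R x y) (h2 : R x' y') :
    R (x + x') (y + y') := by
  simpa using h.sub _ _ _ _ h1 (h.sub _ _ _ _ h.zero h2)

theorem Gr.zsmul (h : Gr R) {x y : κ → ℝ} (h1 : R x y) (n : ℤ) :
    R ((n : ℝ) • x) ((n : ℝ) • y) := by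
  induction n using Int.induction_on with
  | zero => simpa using h.zero
  | succ n ih => simpa [add_smul] using h.add ih h1
  | pred n ih => simpa [sub_smul] using h.sub _ _ _ _ ih h1

theorem Gr.tors (h : Gr R) {N : ℕ} (hN : N ≠ 0) (a : κ → ℤ) :
    ∃ b, R (Kz.rq N a) (Kz.rq N b) := by
  obtain ⟨y, hy⟩ := h.ex (Kz.rq N a)
  have hN' : (N : ℝ) ≠ 0 := Nat.cast_ne_zero.2 hN
  have h1 := h.zsmul hy N
  rw [Kz.rq, Int.cast_natCast, smul_inv_smul₀ hN'] at h1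
  obtain ⟨b, hb⟩ := h.un _ _ _ h1 (by simpa [rz_zero] using h.sh _ _ a 0 h.zero)
  refine ⟨b, ?_⟩
  rw [Kz.rq.eq_1 N b, ← hb, sub_zero, inv_smul_smul₀ hN']
  exact hy

theorem rq_dvd {M : ℕ} (hM : M ≠ 0) {b b' n : κ → ℤ} (h : Kz.rq M b - Kz.rq M b' = rz n)
    (i : κ) : (M : ℤ) ∣ b i - b' i := by
  have h1 := congrFun h i
  have hM' : (M : ℝ) ≠ 0 := Nat.cast_ne_zero.2 hM
  simp only [Kz.rq, rz, Pi.sub_apply, Pi.smul_apply, smul_eq_mul] at h1
  field_simp at h1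
  exact ⟨n i, by exact_mod_cast h1⟩

theorem Gr.congr (h : Gr R) {x : κ → ℝ} {M : ℕ} (hM : M ≠ 0) {b b' : κ → ℤ}
    (h0 : R x (Kz.rq M b)) (hb : ∀ i, (M : ℤ) ∣ b' i - b i) : R x (Kz.rq M b') := by
  choose n hn using hb
  have h1 := h.sh _ _ 0 n h0
  rwa [rz_zero, add_zero, ← Kz.rq_smul hM, ← Kz.rq_add,
    show b + (M : ℤ) • n = b' from funext fun i => by simp [← hn i]] at h1

variable [Fintype κ] [DecidableEq κ]

theorem Gr.acts (h : Gr R) {N : ℕ} (hN : N ≠ 0) :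
    ∃ A : Matrix κ κ ℤ, ∀ a, R (Kz.rq N a) (Kz.rq N (A *ᵥ a)) := by
  choose b hb using fun j => h.tors hN (Pi.single j 1)
  refine ⟨Matrix.of fun i j => b j i, fun a => ?_⟩
  refine Pi.single_induction (fun a => R (Kz.rq N a)
    (Kz.rq N ((Matrix.of fun i j => b j i) *ᵥ a))) a ?_ (fun f g hf hg => ?_) fun j m => ?_
  · rw [mulVec_zero, Kz.rq_zero]
    exact h.zero
  · rw [mulVec_add, Kz.rq_add, Kz.rq_add]
    exact h.add hf hg
  · have e : ∀ a : κ → ℤ, Kz.rq N (m • a) = (m : ℝ) • Kz.rq N a := fun a => by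
      rw [Kz.rq, Kz.rq, rz_smul, smul_comm]
    rw [show (Pi.single j m : κ → ℤ) = m • Pi.single j 1 by
      rw [← Pi.single_smul, smul_eq_mul, mul_one], mulVec_smul, e, e, mulVec_single_one]
    exact h.zsmul (hb j) m

variable {l : ℕ} [Fact l.Prime]

/-- `g` is the matrix of `R` on the Tate module. -/
def Ta (R : (κ → ℝ) → (κ → ℝ) → Prop) (g : Matrix κ κ ℤ_[l]) : Prop :=
  ∀ (n : ℕ) (x y : κ → ℤ), (∀ i, (l : ℤ_[l]) ^ n ∣ (g *ᵥ fun j => (x j : ℤ_[l])) i - y i) →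
    R (Kz.rq (l ^ n) x) (Kz.rq (l ^ n) y)

theorem Gr.ta (h : Gr R) : ∃ g : Matrix κ κ ℤ_[l], Ta R g := by
  have hl : ∀ n : ℕ, l ^ n ≠ 0 := fun n => pow_ne_zero _ (Fact.out : l.Prime).ne_zero
  choose A hA using fun n => h.acts (hl n)
  have h1 : ∀ i j n, (l : ℤ) ^ n ∣ A (n + 1) i j - A n i j := fun i j n => by
    have h2 := hA (n + 1) ((l : ℤ) • Pi.single j 1)
    rw [mulVec_smul, pow_succ', Kz.rq_mul (Fact.out : l.Prime).ne_zero,
      Kz.rq_mul (Fact.out : l.Prime).ne_zero] at h2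
    obtain ⟨m, hm⟩ := h.un _ _ _ h2 (hA n _)
    simpa [mulVec_single_one] using rq_dvd (hl n) hm i
  refine ⟨Matrix.of fun i j => PadicInt.ofIntSeq _
    (PadicInt.isCauSeq_padicNorm_of_pow_dvd_sub (fun n => A n i j) l (h1 i j)), fun n x y hx => ?_⟩
  refine h.congr (hl n) (hA n x) fun i => ?_
  have h2 := Ideal.mem_span_singleton.2 (hx i)
  rw [← PadicInt.ker_toZModPow, RingHom.mem_ker] at h2
  simp only [mulVec, dotProduct, of_apply, map_sub, map_sum, map_mul, map_intCast,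
    PadicInt.toZModPow_ofIntSeq_of_pow_dvd_sub (fun n => A n i _) l (h1 i _)] at h2
  rw [← ZMod.intCast_eq_intCast_iff_dvd_sub, ← sub_eq_zero, ← h2]
  simp [mulVec, dotProduct]

/-- An integral matrix that maps one graph to another intertwines the actions. -/
theorem Ta.inter {R' : (κ → ℝ) → (κ → ℝ) → Prop}
    (hu : ∀ x y y', R' x y → R' x y' → ∃ n, y - y' = rz n) {G : Matrix κ κ ℤ}
    (hG : ∀ x y, R x y → R' (G.map (Int.cast : ℤ → ℝ) *ᵥ x) (G.map (Int.cast : ℤ → ℝ) *ᵥ y))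
    {g g' : Matrix κ κ ℤ_[l]} (h : Ta R g) (h' : Ta R' g') :
    g' * G.map (Int.cast : ℤ → ℤ_[l]) = G.map (Int.cast : ℤ → ℤ_[l]) * g := by
  ext i j : 2
  refine PadicInt.ext_of_toZModPow.1 fun n => ?_
  have hl : l ^ n ≠ 0 := pow_ne_zero _ (Fact.out : l.Prime).ne_zero
  have e : ∀ a : κ → ℤ, G.map (Int.cast : ℤ → ℝ) *ᵥ Kz.rq (l ^ n) a = Kz.rq (l ^ n) (G *ᵥ a) :=
    fun a => by
      rw [Kz.rq, Kz.rq, mulVec_smul]
      congr 1
      funext i
      simp [rz, mulVec, dotProduct]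
  obtain ⟨y, hy⟩ := Gal.exists_appr n fun i => g i j
  obtain ⟨y', hy'⟩ := Gal.exists_appr n fun i => (g' * G.map (Int.cast : ℤ → ℤ_[l])) i j
  have h1 := hG _ _ (h n (Pi.single j 1) y fun i => by
    simpa [mulVec, dotProduct, Pi.single_apply] using hy i)
  rw [e, e] at h1
  obtain ⟨m, hm⟩ := hu _ _ _ h1 (h' n _ y' fun i => by
    simpa [mulVec, dotProduct, Pi.single_apply, Matrix.mul_apply] using hy' i)
  have h2 : (l : ℤ_[l]) ^ n ∣ ((G *ᵥ y) i : ℤ_[l]) - y' i := by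
    exact_mod_cast map_dvd (Int.castRingHom ℤ_[l]) (rq_dvd hl hm i)
  have h3 := ((hy' i).sub h2).sub
    (Finset.dvd_sum (s := Finset.univ) fun k _ => (hy k).mul_left (G i k : ℤ_[l]))
  rw [← sub_eq_zero, ← map_sub, ← RingHom.mem_ker, PadicInt.ker_toZModPow]
  refine Ideal.mem_span_singleton.2 ?_
  convert h3 using 1
  simp only [mul_sub, Finset.sum_sub_distrib, mulVec, dotProduct, Matrix.mul_apply,
    Matrix.map_apply, Int.cast_sum, Int.cast_mul]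
  ring

end M4.Un
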