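import Pool.Agent.Lib.MP_33b3f9_ag.Un.AH
import Pool.Agent.Lib.MP_33b3f9_ag.M4.F.FinB
import Pool.Agent.Lib.MP_33b3f9_ag.M4.ThId

/-! From the Riemann form to a point of the Siegel space. -/

set_option autoImplicit false

noncomputable section

namespace M4.Un

open Complex Matrix
open scoped Real

theorem rf_aux {F W : Type} [Field F] [AddCommGroup W] [Module F W] [FiniteDimensional F W]
    (B : W →ₗ[F] W →ₗ[F] F) (ha : ∀ x y, B y x = -B x y) (h0 : ∀ x, B x x = 0)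
    (hn : ∀ x, (∀ y, B x y = 0) → x = 0) (k : ℕ) (hk : 2 * k ≤ Module.finrank F W) :
    ∃ e f : Fin k → W, (∀ i j, B (e i) (e j) = 0) ∧ (∀ i j, B (f i) (f j) = 0) ∧
      ∀ i j, B (e i) (f j) = if i = j then 1 else 0 := by
  induction k with
  | zero => exact ⟨0, 0, nofun, nofun, nofun⟩
  | succ k ih =>
    obtain ⟨e, f, h1, h2, h3⟩ := ih (by omega)
    obtain ⟨a, ha1, ha0⟩ := (Submodule.ne_bot_iff _).1 (LinearMap.ker_ne_bot_of_finrank_lt
      (f := LinearMap.pi fun s : Fin k ⊕ Fin k => B (Sum.elim e f s)) (by simp; omega))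
    have h4 (i) : B (e i) a = 0 := congrFun ha1 (.inl i)
    have h5 (i) : B (f i) a = 0 := congrFun ha1 (.inr i)
    obtain ⟨w, hw⟩ := not_forall.1 (mt (hn a) ha0)
    set b := (B a w)⁻¹ • (w - ∑ i, (B (e i) w • f i - B (f i) w • e i)) with hb
    have h6 (i) : B (e i) b = 0 := by simp [hb, h1, h3]
    have h7 (i) : B (f i) b = 0 := by simp [hb, h2, ha (e _) (f i), h3]
    have h8 : B a b = 1 := by simp [hb, ha (e _) a, ha (f _) a, h4, h5, hw]
    refine ⟨Fin.cons a e, Fin.cons b f, fun i j => ?_, fun i j => ?_, fun i j => ?_⟩ <;>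
      induction i using Fin.cases <;> induction j using Fin.cases <;>
      simp [h0, h1, h2, h3, h4, h6, h7, h8, ha (e _) a, ha (f _) a, ha (f _) b, h5,
        (Fin.succ_ne_zero _).symm]

theorem rf_darboux (Ω : MZ) (ha : Ωᵀ = -Ω) (hn : Ω.det ≠ 0) : ∃ (G : MZ) (N : ℕ), N ≠ 0 ∧
    ∀ x y, E (zr G *ᵥ x) (zr G *ᵥ y) = N ^ 2 * (x ⬝ᵥ zr Ω *ᵥ y) := by
  set Q : Matrix ν ν ℚ := Ω.map (Int.castRingHom ℚ) with hQ
  have h1 (x y : ν → ℚ) : toLinearMap₂' ℚ Q y x = -toLinearMap₂' ℚ Q x y := by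
    have : Qᵀ = -Q := by rw [hQ, ← transpose_map, ha]; exact (Int.castRingHom ℚ).mapMatrix.map_neg Ω
    rw [toLinearMap₂'_apply', toLinearMap₂'_apply', dotProduct_mulVec, ← mulVec_transpose, this,
      neg_mulVec, neg_dotProduct, dotProduct_comm]
  obtain ⟨e, f, h2, h3, h4⟩ := rf_aux (toLinearMap₂' ℚ Q) h1 (fun x => by linarith [h1 x x])
    (fun x hx => (Matrix.nondegenerate_of_det_ne_zero (M := Q) (by
      rw [hQ, ← RingHom.mapMatrix_apply, ← RingHom.map_det]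
      simpa using hn)).eq_zero_of_ortho fun y => (toLinearMap₂'_apply' Q x y).symm.trans (hx y))
    4 (by simp)
  set P : Matrix ν ν ℚ := (Matrix.of (Sum.elim e f))ᵀ with hP
  have h5 : Pᵀ * Q * P = -J (Fin 4) ℚ := by
    ext s t
    have : (Pᵀ * Q * P) s t = toLinearMap₂' ℚ Q (Sum.elim e f s) (Sum.elim e f t) := by
      rw [toLinearMap₂'_apply', Matrix.mul_assoc]; rfl
    rw [this]
    rcases s with i | i <;> rcases t with j | j <;>
      simp [h2, h3, h4, h1 (e _) (f _), J, one_apply, eq_comm]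
  have h6 : IsUnit P.det := by
    have h7 := congrArg det h5
    have h8 := (isUnit_det_J (Fin 4) ℚ).ne_zero
    rw [det_mul, det_neg] at h7
    exact Ne.isUnit fun h => by simp [h, h8] at h7
  obtain ⟨N, hN⟩ := IsLocalization.exist_integer_multiples_of_finite (nonZeroDivisors ℤ)
    fun s : ν × ν => P⁻¹ s.1 s.2
  choose G hG using hN
  have h7 : (Matrix.of (Function.curry G)).map (Int.castRingHom ℚ) = (N.1 : ℚ) • P⁻¹ := by
    ext s t
    simpa using hG (s, t)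
  have h8 : (Matrix.of (Function.curry G))ᵀ * -J (Fin 4) ℤ * Matrix.of (Function.curry G) =
      N.1 ^ 2 • Ω := by
    refine Matrix.map_injective (f := Int.castRingHom ℚ) Int.cast_injective ?_
    beta_reduce
    rw [Matrix.map_mul, Matrix.map_mul, transpose_map, h7,
      show (-J (Fin 4) ℤ).map (Int.castRingHom ℚ) = -J (Fin 4) ℚ by
        rw [← map_J (Fin 4) (Int.castRingHom ℚ)]; ext; simp,
      ← h5, transpose_smul, transpose_nonsing_inv, Matrix.smul_mul, Matrix.smul_mul,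
      Matrix.mul_smul, Matrix.mul_assoc Pᵀ, nonsing_inv_mul_cancel_left _ _ (by
        rwa [det_transpose]), mul_nonsing_inv_cancel_right _ _ h6]
    ext s t
    simp only [hQ, map_apply, Matrix.smul_apply, smul_eq_mul, sq, mul_assoc, map_mul, eq_intCast]
  refine ⟨Matrix.of (Function.curry G), N.1.natAbs, Int.natAbs_ne_zero.2
    (nonZeroDivisors.coe_ne_zero N), fun x y => ?_⟩
  have h9 (x y : ν → ℝ) : E x y = x ⬝ᵥ zr (-J (Fin 4) ℤ) *ᵥ y := by
    simp [E, zr, J, dotProduct, mulVec, one_apply, sub_eq_add_neg, Finset.sum_add_distrib]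
  have h10 (A B : MZ) : zr (A * B) = zr A * zr B := Matrix.map_mul (f := Int.castRingHom ℝ)
  rw [h9, mulVec_mulVec, ← vecMul_transpose, ← dotProduct_mulVec, mulVec_mulVec,
    ← Matrix.mul_assoc, show (zr (of (Function.curry G)))ᵀ = zr (of (Function.curry G))ᵀ from rfl, ← h10, ← h10,
    h8, show zr (N.1 ^ 2 • Ω) = ((N.1 : ℝ) ^ 2) • zr Ω by
      ext; simp only [zr, map_apply, Matrix.smul_apply, smul_eq_mul, Int.cast_mul, Int.cast_pow], smul_mulVec,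
    dotProduct_smul, Nat.cast_natAbs, Int.cast_abs, sq_abs, smul_eq_mul]

theorem rf_siegel {A : Matrix ν ν ℝ} (h1 : A * A = -1)
    (h2 : ∀ x y, E (A *ᵥ x) y = E (A *ᵥ y) x) (h3 : ∀ x ≠ 0, 0 < E (A *ᵥ x) x) :
    ∃ τ : Mat, InH τ ∧ cst τ = A := by
  obtain ⟨a, b, c, d, rfl⟩ : ∃ a b c d, A = fromBlocks a b c d :=
    ⟨_, _, _, _, (fromBlocks_toBlocks A).symm⟩
  have e1 : bᵀ = b := by
    ext i j
    simpa [E, Pi.single_apply] using h2 (Pi.single (.inr i) 1) (Pi.single (.inr j) 1)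
  have e2 : d = -aᵀ := by
    ext i j
    have := h2 (Pi.single (.inl i) 1) (Pi.single (.inr j) 1)
    simp [E, Pi.single_apply] at this
    simp [this]
  have hb : b.PosDef := PosDef.of_dotProduct_mulVec_pos e1 fun x hx => by
    have := h3 (Sum.elim 0 x) fun h => hx (funext fun i => congrFun h (.inr i))
    simpa [F.finb_E, fromBlocks_mulVec, dotProduct_comm] using this
  have hd : IsUnit b.det := hb.det_pos.ne'.isUnit
  rw [fromBlocks_multiply, ← fromBlocks_one, fromBlocks_neg, e2] at h1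
  obtain ⟨k1, k2, -, -⟩ := fromBlocks_inj.1 h1
  have k3 : b⁻¹ * a * b = aᵀ := by
    rw [Matrix.mul_assoc, show a * b = b * aᵀ by
      rw [Matrix.mul_neg, neg_zero] at k2; exact add_neg_eq_zero.1 k2,
      nonsing_inv_mul_cancel_left _ _ hd]
  have k4 : (b⁻¹ * a)ᵀ = b⁻¹ * a := by
    rw [transpose_mul, transpose_nonsing_inv, e1, ← k3, mul_nonsing_inv_cancel_right _ _ hd]
  set τ : Mat := Matrix.of fun i j => (⟨(b⁻¹ * a) i j, b⁻¹ i j⟩ : ℂ)
  have t1 : τ.map re = b⁻¹ * a := rfl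
  have t2 : τ.map im = b⁻¹ := rfl
  refine ⟨τ, ⟨Matrix.ext fun i j => Complex.ext (congrFun (congrFun k4 i) j)
    (congrFun (congrFun (show b⁻¹ᵀ = b⁻¹ by rw [transpose_nonsing_inv, e1]) i) j), hb.inv⟩, ?_⟩
  rw [cst, t1, t2, nonsing_inv_nonsing_inv _ hd, mul_nonsing_inv_cancel_left _ _ hd, k3, e2, ← k3,
    Matrix.mul_assoc _ b, mul_nonsing_inv_cancel_left _ _ hd, Matrix.mul_assoc,
    eq_sub_of_add_eq k1, Matrix.mul_sub, nonsing_inv_mul_cancel_left _ _ hd]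
  simp

theorem rf_hol {τ : Mat} (hτ : InH τ) (m : ℝ) {r : (ν → ℝ) →ₗ[ℝ] (Fin 4 → ℂ)}
    (hr : ∀ w, r (cst τ *ᵥ w) = I • r w) {f : (Fin 4 → ℂ) → ℂ} (hf : Differentiable ℂ f) :
    (fun w => cexp (-(π / 2 * (m * E (cst τ *ᵥ w) w) : ℝ)) * f (r w)) ∈ Hol τ m := by
  have hd : IsUnit (τ.map im).det := hτ.2.det_pos.ne'.isUnit
  set B := (τ.map im)⁻¹ with hB
  refine ⟨fun z => cexp (-(π / 2 * m * ∑ i, ∑ j, z i * (B i j * z j))) *
    f (∑ i, z i • r (Pi.single (.inr i) 1)), by fun_prop, fun w => ?_⟩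
  have h1 (b : Fin 4 → ℝ) : per τ (Sum.elim 0 b) = fun i => (b i : ℂ) := by
    ext i; simp [per, fa, fb, mulVec, dotProduct]
  have h2 (b : Fin 4 → ℝ) : r (Sum.elim 0 b) = ∑ i, (b i : ℂ) • r (Pi.single (.inr i) 1) := by
    simp only [Complex.coe_smul, ← map_smul, ← map_sum]
    congr 1
    ext (i | i) <;> simp [Pi.single_apply]
  have h3 : w = Sum.elim (0 : Fin 4 → ℝ) (re ∘ per τ w) + cst τ *ᵥ Sum.elim 0 (im ∘ per τ w) :=
    (per_bijective hτ).1 (by rw [per_add, per_cst hτ, h1, h1]; ext i; simp [mul_comm I])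
  have h4 : ∑ i, per τ w i • r (Pi.single (.inr i) 1) = r w := by
    conv_rhs => rw [h3, map_add, hr, h2, h2, Finset.smul_sum, ← Finset.sum_add_distrib]
    exact Finset.sum_congr rfl fun i _ => by rw [smul_smul, ← add_smul]; simp [mul_comm I]
  beta_reduce
  rw [h4, ← mul_assoc (ee _), ee, ← Complex.exp_add, F.finb_form hτ, ← thid_re, ← thid_im]
  have h5 : w ∘ Sum.inl = B *ᵥ (im ∘ per τ w) := by
    rw [thid_im, mulVec_mulVec, nonsing_inv_mul _ hd, one_mulVec]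
  have h6 : Bᵀ = B := by rw [hB, transpose_nonsing_inv, F.finb_im hτ]
  have h7 : ∑ i, ∑ j, per τ w i * (B i j * per τ w j) =
      ((re ∘ per τ w) ⬝ᵥ B *ᵥ (re ∘ per τ w) - (im ∘ per τ w) ⬝ᵥ B *ᵥ (im ∘ per τ w) : ℝ) +
      ((re ∘ per τ w) ⬝ᵥ B *ᵥ (im ∘ per τ w) + (im ∘ per τ w) ⬝ᵥ B *ᵥ (re ∘ per τ w) : ℝ) * I :=
    Complex.ext (by simp [dotProduct, mulVec, Finset.mul_sum, -ofReal_sum])
      (by simp [dotProduct, mulVec, Finset.mul_sum, Finset.sum_add_distrib, -ofReal_sum])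
  have h8 : fa w ⬝ᵥ per τ w = ((w ∘ Sum.inl) ⬝ᵥ (re ∘ per τ w) : ℝ) +
      ((w ∘ Sum.inl) ⬝ᵥ (im ∘ per τ w) : ℝ) * I :=
    Complex.ext (by simp [dotProduct, fa, -ofReal_sum]) (by simp [dotProduct, fa, -ofReal_sum])
  rw [h7, h8, h5, F.finb_sym h6 (im ∘ per τ w) (re ∘ per τ w), dotProduct_comm (B *ᵥ _),
    dotProduct_comm (B *ᵥ _)]
  congr 2
  push_cast
  linear_combination (-π * m * ((im ∘ per τ w) ⬝ᵥ B *ᵥ (im ∘ per τ w) : ℝ) : ℂ) * I_sq

theorem RF {α : Type} [Fintype α] (u : (Fin 4 → ℂ) → α → ℂ) (hu : Differentiable ℂ u)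
    (h0 : ∀ z, u z ≠ 0) (p : (ν → ℝ) ≃ₗ[ℝ] (Fin 4 → ℂ)) {A : Matrix ν ν ℝ}
    (hA : ∀ x, p (A *ᵥ x) = I • p x) (hper : ∀ (n : ν → ℤ) z, ∃ c : ℂ, u (z + p (rz n)) = c • u z)
    (hfib : ∀ z (c : ℂ), u z = c • u 0 → ∃ n : ν → ℤ, z = p (rz n)) :
    ∃ (τ : Mat) (G : MZ) (k : ℕ) (v : α → (ν → ℝ) → ℂ) (γ : (ν → ℝ) → ℂ) (χ : (ν → ℤ) → ℂ),
      InH τ ∧ G.det ≠ 0 ∧ cst τ * zr G = zr G * A ∧ k ≠ 0 ∧ (∀ x, γ x ≠ 0) ∧
      (∀ a x, v a (zr G *ᵥ x) = γ x * u (p x) a) ∧ (∀ a, v a ∈ Hol τ (4 / k)) ∧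
      (∀ n, ‖χ n‖ = 1) ∧ ∀ n a, U (4 / k) (zr G *ᵥ rz n) (v a) = χ n • v a := by
  obtain ⟨h, S, hh, s1, s2, s3, s4, s5⟩ := Pool.Agent.M4.Un.AH u hu h0 p hper hfib
  choose o ho using s4
  choose χ hχ hχ' using s5
  have s6 (v w) : S (I • v) w = -S (I • w) v := by
    rw [← s2, smul_smul, I_mul_I, neg_one_smul, map_neg, LinearMap.neg_apply, s1]
  set Ω : MZ := Matrix.of fun i j => o (Pi.single j 1) (Pi.single i 1) with hΩ
  have e0 (i : ν) : (fun a => ((Pi.single i (1 : ℤ) : ν → ℤ) a : ℝ)) = Pi.single i 1 := by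
    ext a; simp [Pi.single_apply]
  have e1 (x y) : x ⬝ᵥ zr Ω *ᵥ y = S (I • p y) (p x) := by
    conv_rhs => rw [pi_eq_sum_univ' x, pi_eq_sum_univ' y]
    simp only [dotProduct, mulVec, zr, hΩ, map_apply, of_apply, ← ho, e0, map_sum, map_smul,
      Finset.smul_sum, smul_comm I, LinearMap.sum_apply, LinearMap.smul_apply, smul_eq_mul,
      mul_comm (S _ _)]
  have e2 (x) : (A *ᵥ x) ⬝ᵥ zr Ω *ᵥ x = S (p x) (p x) := by rw [e1, hA, s2]
  have e3 {M : MZ} (hM : ∀ x, zr M *ᵥ x = 0 → x = 0) : M.det ≠ 0 := fun h => by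
    obtain ⟨x, h1, h2⟩ := (exists_mulVec_eq_zero_iff (M := zr M)).2
      (((Int.castRingHom ℝ).map_det M).symm.trans (by simp [h]))
    exact h1 (hM x h2)
  have e4 (x) (hx : S (p x) (p x) = 0) : x = 0 :=
    by_contra fun h => (s3 _ (p.map_ne_zero_iff.2 h)).ne' hx
  obtain ⟨G, N, hN, hG⟩ := rf_darboux Ω (by
    ext i j
    have := s6 (p (Pi.single i 1)) (p (Pi.single j 1))
    rw [← e0, ← e0 j, ho, ho] at this
    exact_mod_cast this) (e3 fun x hx => e4 x (by rw [← e2, hx, dotProduct_zero]))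
  have hN' : (0 : ℝ) < N ^ 2 := by positivity
  have hd : G.det ≠ 0 := e3 fun x hx => e4 x (by
    have := hG (A *ᵥ x) x
    rwa [hx, E_zero_right, e2, eq_comm, mul_eq_zero_iff_left hN'.ne'] at this)
  have hu' : IsUnit (zr G).det := Ne.isUnit (((Int.castRingHom ℝ).map_det G).symm.trans_ne
    (by simpa using hd))
  have g1 (x) : (zr G)⁻¹ *ᵥ zr G *ᵥ x = x := by
    rw [mulVec_mulVec, nonsing_inv_mul _ hu', one_mulVec]
  have g2 (w) : ∃ x, zr G *ᵥ x = w :=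
    ⟨(zr G)⁻¹ *ᵥ w, by rw [mulVec_mulVec, mul_nonsing_inv _ hu', one_mulVec]⟩
  have g3 (x) : (zr G * A * (zr G)⁻¹) *ᵥ zr G *ᵥ x = zr G *ᵥ A *ᵥ x := by
    rw [← mulVec_mulVec, g1, mulVec_mulVec]
  obtain ⟨τ, hτ, ht⟩ := rf_siegel (A := zr G * A * (zr G)⁻¹)
    (Matrix.toLin'.injective (LinearMap.ext fun w => by
      obtain ⟨x, rfl⟩ := g2 w
      have : A *ᵥ A *ᵥ x = -x := p.injective (by
        rw [hA, hA, smul_smul, I_mul_I, neg_one_smul, map_neg])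
      rw [toLin'_apply, toLin'_apply, ← mulVec_mulVec, g3, g3, this, mulVec_neg, neg_mulVec,
        one_mulVec]))
    (fun w w' => by
      obtain ⟨x, rfl⟩ := g2 w
      obtain ⟨y, rfl⟩ := g2 w'
      rw [g3, g3, hG, hG, e1, e1, hA, hA, s1])
    fun w hw => by
      obtain ⟨x, rfl⟩ := g2 w
      rw [g3, hG, e2]
      exact mul_pos hN' (s3 _ (p.map_ne_zero_iff.2 fun h => hw (by rw [h, mulVec_zero])))
  set m : ℝ := 4 / (4 * N ^ 2 : ℕ) with hm
  have g4 (x y) : m * E (zr G *ᵥ x) (zr G *ᵥ y) = S (I • p y) (p x) := by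
    rw [hG, e1, hm]; push_cast; field_simp
  set r := p.toLinearMap.comp (mulVecLin (zr G)⁻¹)
  have g5 (x) : r (zr G *ᵥ x) = p x := congrArg p (g1 x)
  have g6 (x) : m * E (cst τ *ᵥ zr G *ᵥ x) (zr G *ᵥ x) = S (p x) (p x) := by
    rw [ht, g3, g4, hA, s2]
  refine ⟨τ, G, 4 * N ^ 2, fun a w => cexp (-(π / 2 * (m * E (cst τ *ᵥ w) w) : ℝ)) *
    (cexp (h (r w)) * u (r w) a), fun x => cexp (-(π / 2 * S (p x) (p x) : ℝ)) * cexp (h (p x)),
    fun n => χ n * cexp (-(π / 2 * S (p (rz n)) (p (rz n)) : ℝ)), hτ, hd,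
    by rw [ht, nonsing_inv_mul_cancel_right _ _ hu'], by positivity, fun x => by simp,
    fun a x => by simp only [g5, g6, mul_assoc], fun a => rf_hol hτ m (f := fun z =>
      cexp (h z) * u z a) (fun w => ?_) (by fun_prop), fun n => ?_, fun n a => funext fun w => ?_⟩
  · obtain ⟨x, rfl⟩ := g2 w
    rw [ht, g3, g5, g5, hA]
  · rw [norm_mul, hχ, ← ofReal_neg, norm_exp_ofReal, ← Real.exp_add]
    exact (congrArg Real.exp (add_neg_cancel _)).trans Real.exp_zero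
  · obtain ⟨x, rfl⟩ := g2 w
    have h1 : cexp (h (p x + p (rz n))) * u (p x + p (rz n)) a = χ n * cexp (π * (S (p x)
      (p (rz n)) - I * S (I • p x) (p (rz n)))) * (cexp (h (p x)) * u (p x) a) :=
      congrFun (hχ' n (p x)) a
    have h2 : cexp (2 * π * I * (S (I • p x) (p (rz n)) / 2)) * cexp (-(π / 2 * S (p x + p (rz n))
        (p x + p (rz n)) : ℝ)) * cexp (π * (S (p x) (p (rz n)) - I * S (I • p x) (p (rz n)))) =
        cexp (-(π / 2 * S (p (rz n)) (p (rz n)) : ℝ)) * cexp (-(π / 2 * S (p x) (p x) : ℝ)) := by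
      simp only [← Complex.exp_add, map_add, LinearMap.add_apply, s1 (p (rz n)) (p x)]
      congr 1
      push_cast
      ring
    rw [U, ← ofReal_mul, g4, ← mulVec_add, Pi.smul_apply]
    beta_reduce
    rw [g5, g5, g6, g6, map_add, h1, ee, smul_eq_mul]
    linear_combination χ n * (cexp (h (p x)) * u (p x) a) * h2

end M4.Un
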