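import Pool.Agent.Lib.MP_33b3f9_ag.Un.TConj
import Pool.Agent.Lib.MP_33b3f9_ag.Un.TAdic
import Pool.Agent.Lib.MP_33b3f9_ag.M4.P.Main
import Pool.Agent.Lib.MP_33b3f9_ag.M4.F.Main
import Pool.Agent.Lib.MP_33b3f9_ag.M5.Main
import Pool.Agent.Lib.MP_33b3f9_ag.M4.CBOpen

/-!
Transfer of the theorem along an isogeny to the theta model.
-/

set_option autoImplicit false

noncomputable section

namespace M4.Un

open Matrix Pool.Agent.Lib.MP_33b3f9_ag

variable {τ : Mat} {K : IntermediateField ℚ ℂ}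

theorem alg_of_fixed [FiniteDimensional ℚ K] (U : Subgroup (ℂ ≃ₐ[K] ℂ)) [U.FiniteIndex] {z : ℂ}
    (h : ∀ σ ∈ U, σ z = z) : IsAlgebraic ℚ z := by
  refine CB.alg_of_finite K ((Set.finite_range fun q : (ℂ ≃ₐ[K] ℂ) ⧸ U => q.out z).subset ?_)
  rintro _ ⟨σ, rfl⟩
  obtain ⟨u, hu⟩ := QuotientGroup.mk_out_eq_mul U σ
  exact ⟨QuotientGroup.mk σ, by simp only [hu, AlgEquiv.mul_apply, h _ u.2]⟩

theorem exists_field [FiniteDimensional ℚ K] (hτ : InH τ) (U : Subgroup (ℂ ≃ₐ[K] ℂ))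
    [U.FiniteIndex] (h : ∀ σ ∈ U, Gal.Rl τ σ.toRingEquiv 0 0) :
    ∃ K' : IntermediateField ℚ ℂ, K ≤ K' ∧ FiniteDimensional ℚ K' ∧ DefX τ K' := by
  let S : Set ℂ := insert (ee (1 / 8)) (Set.range fun q : Bits × Bits => th2 τ q.1 / th2 τ q.2)
  have : Finite S := ((Set.finite_range _).insert _).to_subtype
  have : FiniteDimensional ℚ (IntermediateField.adjoin ℚ S) := by
    refine IntermediateField.finiteDimensional_adjoin ?_
    rintro _ (rfl | ⟨q, rfl⟩)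
    · refine IsIntegral.of_pow (n := 8) (by norm_num) ?_
      rw [Kz.ee_pow, show ((8 : ℕ) : ℂ) * (1 / 8) = (1 : ℤ) by norm_num, ee_int]
      exact isIntegral_one
    · refine (alg_of_fixed U fun σ hσ => ?_).isIntegral
      obtain ⟨c, hc⟩ := h σ hσ
      have h1 : ∀ e, σ (th2 τ e) = c * th2 τ e := fun e => by
        have h2 := hc (bz e)
        rw [XX_zero] at h2
        exact h2
      rw [map_div₀, h1, h1, mul_div_mul_left _ _ (Gal.ne hτ hc)]
  refine ⟨K ⊔ IntermediateField.adjoin ℚ S, le_sup_left, inferInstance,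
    le_sup_right (a := K) (IntermediateField.subset_adjoin ℚ S (Set.mem_insert _ _)),
    fun e e' => le_sup_right (a := K) (IntermediateField.subset_adjoin ℚ S
      (Set.mem_insert_of_mem _ ⟨(e, e'), rfl⟩))⟩

/-- An automorphism over a larger field is an automorphism over the smaller field. -/
def res {K' : IntermediateField ℚ ℂ} (h : K ≤ K') : (ℂ ≃ₐ[K'] ℂ) →* (ℂ ≃ₐ[K] ℂ) where
  toFun σ := AlgEquiv.ofRingEquiv (f := σ.toRingEquiv) fun x => σ.commutes ⟨x, h x.2⟩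
  map_one' := rfl
  map_mul' _ _ := rfl

theorem det_cast {F : Type} [CommRing F] [CharZero F] {κ : Type} [Fintype κ] [DecidableEq κ]
    {G : Matrix κ κ ℤ} (hG : G.det ≠ 0) : (G.map (Int.cast : ℤ → F)).det ≠ 0 :=
  (((Int.castRingHom F).map_det G).symm.trans_ne (Int.cast_ne_zero.2 hG) :)

theorem endX {I : Matrix ν ν ℝ} (hE : Pool.Agent.M4.EndZ I) {G : MZ} (hG : G.det ≠ 0)
    (hGI : cst τ * zr G = zr G * I) : EndX τ := fun g hg => by
  have hm : ∀ a b : MZ, zr (a * b) = zr a * zr b := fun a b =>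
    Matrix.map_mul (f := Int.castRingHom ℝ)
  have hd : IsUnit (zr G) := by
    rw [Matrix.isUnit_iff_isUnit_det, isUnit_iff_ne_zero]
    exact det_cast hG
  have ha : zr G * zr G.adjugate = (G.det : ℝ) • 1 := by
    rw [← hm, Matrix.mul_adjugate]
    ext i j
    simp only [zr, Matrix.map_apply, Matrix.smul_apply, Matrix.one_apply, smul_eq_mul]
    split_ifs <;> simp
  obtain ⟨n, hn⟩ := hE (G.adjugate * g * G) (hd.mul_left_cancel (by
    change zr G * (zr _ * I) = zr G * (I * zr _)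
    rw [hm, hm]
    calc _ = zr G * zr G.adjugate * zr g * (zr G * I) := by simp only [Matrix.mul_assoc]
      _ = cst τ * (zr G * zr G.adjugate) * zr g * zr G := by
        rw [← hGI, ha]
        simp only [Matrix.smul_mul, Matrix.mul_smul, Matrix.one_mul, Matrix.mul_one]
        rw [← Matrix.mul_assoc, hg]
      _ = _ := by rw [← Matrix.mul_assoc (cst τ), hGI]; simp only [Matrix.mul_assoc]))
  have h1 : G.det • G.det • g = G.det • n • (1 : MZ) := by
    have h2 := congrArg (fun x => G * x * G.adjugate) hn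
    simp only [← Matrix.mul_assoc, Matrix.mul_adjugate, Matrix.smul_mul, Matrix.one_mul,
      Matrix.mul_smul, Matrix.mul_one] at h2
    rw [Matrix.mul_assoc, Matrix.mul_adjugate, Matrix.mul_smul, Matrix.mul_one] at h2
    rw [h2, smul_comm]
  have h2 := smul_right_injective MZ hG h1
  refine ⟨g (.inl 0) (.inl 0), smul_right_injective MZ hG ?_⟩
  have h3 := congrFun (congrFun h2 (.inl 0)) (.inl 0)
  simp only [Matrix.smul_apply, smul_eq_mul, Matrix.one_apply_eq, mul_one] at h3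
  simp only [h2, smul_smul, h3]

/-- The theorem for a torus with an additive Galois action that maps to the theta model. -/
theorem transfer (hτ : InH τ) (K : IntermediateField ℚ ℂ) [FiniteDimensional ℚ K]
    {I : Matrix ν ν ℝ} (hE : Pool.Agent.M4.EndZ I) {G : MZ} (hG : G.det ≠ 0)
    (hGI : cst τ * zr G = zr G * I) (R : (ℂ ≃ₐ[K] ℂ) → (ν → ℝ) → (ν → ℝ) → Prop)
    (hex : ∀ σ x, ∃ y, R σ x y)
    (hsub : ∀ σ x y x' y', R σ x y → R σ x' y' → R σ (x - x') (y - y'))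
    (hun : ∀ σ x y y', R σ x y → R σ x y' → ∃ n, y - y' = rz n)
    (hsh : ∀ σ x y n n', R σ x y → R σ (x + rz n) (y + rz n'))
    (U₁ : Subgroup (ℂ ≃ₐ[K] ℂ)) [U₁.FiniteIndex]
    (hR : ∀ σ ∈ U₁, ∀ x y, R σ x y → Gal.Rl τ σ.toRingEquiv (zr G *ᵥ x) (zr G *ᵥ y))
    (l : ℕ) [Fact l.Prime] (U : Subgroup (ℂ ≃ₐ[K] ℂ)) (hU : U.FiniteIndex)
    {T : Set (GL ν ℚ_[l])} (hT : ∀ σ ∈ U, ∀ g : GL ν ℤ_[l], (∀ (n : ℕ) (x y : ν → ℤ),
      (∀ i, (l : ℤ_[l]) ^ n ∣ ((g : Matrix ν ν ℤ_[l]) *ᵥ fun j => (x j : ℤ_[l])) i - y i) →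
        R σ (Kz.rq (l ^ n) x) (Kz.rq (l ^ n) y)) → Pool.Agent.M4.toQ g ∈ T)
    (h : T ⊆ zeroSet ℚ_[l] (mtEqns I)) :
    zcl (AlgebraicClosure ℚ_[l]) T = zeroSet (AlgebraicClosure ℚ_[l]) (mtEqns I) := by
  have hgr : ∀ σ, Gr (R σ) := fun σ => ⟨hex σ, hsub σ, hun σ, hsh σ⟩
  obtain ⟨K', hK, hfin, hK'⟩ := exists_field hτ U₁ fun σ hσ => by
    simpa using hR σ hσ 0 0 (hgr σ).zero
  obtain ⟨r, hr, hu⟩ := Gal.exists_rep hτ hK'
  have hA : AV τ K' r := ⟨hτ, hfin, hK', hr⟩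
  have hU' : ((U ⊓ U₁).comap (res hK)).FiniteIndex :=
    ⟨by rw [Subgroup.index_comap]; exact Subgroup.FiniteIndex.index_ne_zero⟩
  have e : ∀ (F : Type) [Field F] [Algebra ℚ F], (G.map (Int.cast : ℤ → ℚ)).map (algebraMap ℚ F) =
      G.map (Int.cast : ℤ → F) := fun F _ _ => by
    ext i j
    simp
  refine conj_main (Matrix.mul_nonsing_inv _ (Ne.isUnit (det_cast hG))) (I' := cst τ) (by rw [e]; exact hGI)
    (T' := (fun σ => Pool.Agent.M4.toQ (r l σ)) '' ((U ⊓ U₁).comap (res hK))) ?_ h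
    (Pool.Agent.M4.Mx.last K' (r l) hτ (per_cst hτ) (Kz.mu hA l) _
      (M5.dich hA (fal hA (endX hE hG hGI)) l _ hU'))
  rintro _ ⟨σ, hσ, rfl⟩
  obtain ⟨g, hg⟩ := (hgr (res hK σ)).ta (l := l)
  have h1 := hg.inter (R' := Gal.Rl τ σ.toRingEquiv) (fun x y y' a b => a.unique hτ b)
    (hR _ hσ.2) ((hu l σ _).2 rfl)
  have h2 : IsUnit g := by
    have h3 := congrArg Matrix.det h1
    rw [Matrix.det_mul, Matrix.det_mul, mul_comm] at h3
    rw [Matrix.isUnit_iff_isUnit_det, ← mul_left_cancel₀ (det_cast hG) h3]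
    exact (Matrix.isUnit_iff_isUnit_det _).1 (r l σ).isUnit
  obtain ⟨g, rfl⟩ := h2
  refine ⟨_, hT _ hσ.1 g hg, ?_⟩
  have h3 := congrArg (fun x => x.map (PadicInt.Coe.ringHom (p := l))) h1
  simp only [Matrix.map_mul] at h3
  rw [show (G.map (Int.cast : ℤ → ℤ_[l])).map (PadicInt.Coe.ringHom (p := l)) =
    G.map (Int.cast : ℤ → ℚ_[l]) by ext i j; simp] at h3
  rw [e]
  exact h3

end M4.Un
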