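import Pool.Agent.Lib.MP_33b3f9_ag.Un.AH1

/-! The theorem of Appell and Humbert, and the Riemann form. -/

namespace Pool.Agent.M4.Un

open MeasureTheory Set Filter Topology Complex Metric
open scoped Real

set_option linter.unusedSectionVars false

variable {ι κ ν : Type} [Fintype ι] [Fintype κ] [Fintype ν]

theorem ah_pluri {f : (κ → ℂ) → ℝ} {α : (κ → ℂ) → (κ → ℂ) →L[ℝ] ℝ}
    {D : (κ → ℂ) → (κ → ℂ) →L[ℝ] (κ → ℂ) →L[ℝ] ℝ} (hf : ∀ z, HasFDerivAt f (α z) z)
    (hα : ∀ z, HasFDerivAt α (D z) z) (hs : ∀ z v w, D z v w = D z w v)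
    (hI : ∀ z v w, D z (I • v) (I • w) = -D z v w) :
    ∃ h : (κ → ℂ) → ℂ, Differentiable ℂ h ∧ ∀ z, (h z).re = f z := by
  set J : (κ → ℂ) →L[ℝ] (κ → ℂ) := (I • ContinuousLinearMap.id ℂ (κ → ℂ)).restrictScalars ℝ
  have h1 (z) := (hα z).clm_comp (hasFDerivAt_const J z)
  obtain ⟨χ, hχ⟩ := convex_univ.exists_forall_hasFDerivAt_of_fderiv_symmetric isOpen_univ
    (ω := fun z => (α z).comp J) (fun z _ => (h1 z).differentiableAt.differentiableWithinAt)
    fun z _ v w => by
      have h2 := hI z w (I • v)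
      rw [smul_smul, I_mul_I, neg_one_smul, map_neg, neg_inj, hs] at h2
      rw [(h1 z).fderiv]
      simpa [J] using (hs z v (I • w)).trans ((hs _ _ _).trans h2)
  refine ⟨fun z => f z - I * χ z, fun z => (hasFDerivAt_of_restrictScalars ℝ
    (f' := StrongDual.extendRCLike (α z))
    ((ofRealCLM.hasFDerivAt.comp z (hf z)).sub
      ((ofRealCLM.hasFDerivAt.comp z (hχ z trivial)).const_mul I)) ?_).differentiableAt,
    fun z => by simp⟩
  ext v
  simp [J, StrongDual.extendRCLike_apply]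

theorem ah_levi {f : (κ → ℂ) → ℝ} (hf : ContDiff ℝ (2 : ℕ∞) f) {j : (κ → ℂ) → ℂ}
    (hj : Differentiable ℂ j) (h0 : ∀ z, j z ≠ 0) (e : ∀ z, f z = Real.log ‖j z‖) (z v) :
    fderiv ℝ (fderiv ℝ f) z v v + fderiv ℝ (fderiv ℝ f) z (I • v) (I • v) = 0 := by
  have h1 : Differentiable ℂ fun c : ℂ => j (z + c • v) := by fun_prop
  have h2 := ((h1.analyticAt 0).harmonicAt_log_norm (h0 _)).2.eq_of_nhds
  set L : ℂ →L[ℝ] (κ → ℂ) := (ContinuousLinearMap.toSpanSingleton ℂ v).restrictScalars ℝ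
  have h3 : (fun c : ℂ => Real.log ‖j (z + c • v)‖) = (fun w => f (z + w)) ∘ L :=
    funext fun c => (e _).symm
  rw [h3, InnerProductSpace.laplacian_eq_iteratedFDeriv_complexPlane] at h2
  beta_reduce at h2
  rw [L.iteratedFDeriv_comp_right (n := (2 : ℕ∞)) (f := fun w => f (z + w))
    (hf.comp (by fun_prop)) 0 le_rfl,
    iteratedFDeriv_comp_add_left] at h2
  simpa [iteratedFDeriv_two_apply, L] using h2

theorem ah_norm {u : (κ → ℂ) → ι → ℂ} (hu : Differentiable ℂ u) (h0 : ∀ z, u z ≠ 0)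
    (p : (ν → ℝ) ≃ₗ[ℝ] (κ → ℂ)) {j : (ν → ℤ) → (κ → ℂ) → ℂ} (hj : ∀ n, Differentiable ℂ (j n))
    (e : ∀ (n : ν → ℤ) z, u (z + p fun a => n a) = j n z • u z) :
    ∃ (h : (κ → ℂ) → ℂ) (S : (κ → ℂ) →L[ℝ] (κ → ℂ) →L[ℝ] ℝ) (q : (κ → ℂ) → ℝ),
      Differentiable ℂ h ∧ (∀ v w, S v w = S w v) ∧ (∀ v w, S (I • v) (I • w) = S v w) ∧
      Continuous q ∧ Per p q ∧ ∀ z, ‖cexp (h z) • u z‖ = Real.exp (π / 2 * S z z - q z) := by
  obtain ⟨ρ, r, W⟩ := exists_wt p
  have j0 (n z) : j n z ≠ 0 := fun h => h0 _ (by rw [e n z, h, zero_smul])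
  set ψ : (κ → ℂ) → ℝ := fun z => Real.log ‖u z‖ with hψ
  have hψc : Continuous ψ := hu.continuous.norm.log fun z => norm_ne_zero_iff.2 (h0 z)
  have e1 (n : ν → ℤ) (z) : ψ (z + p fun a => n a) - ψ z = Real.log ‖j n z‖ := by
    simp only [hψ]
    rw [e, norm_smul, Real.log_mul (norm_ne_zero_iff.2 (j0 n z)) (norm_ne_zero_iff.2 (h0 z)),
      add_sub_cancel_right]
  obtain ⟨q, m, hq, hP, e2⟩ := W.exists_phi hψc fun n => W.circle (by fun_prop) fun z y => by
    have h1 : Differentiable ℂ fun c : ℂ => j n (z - c • y) := by have := hj n; fun_prop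
    simp only [e1]
    simpa using AnalyticOnNhd.circleAverage_log_norm_of_ne_zero (R := 1) (c := 0)
      (fun c _ => h1.analyticAt c) fun c _ => j0 n _
  set φ : (κ → ℂ) → ℝ := fun z => ψ z + q z with hφ
  have e3 : av ρ φ = fun z => φ z + m := funext e2
  have hs : ContDiff ℝ (2 : ℕ∞) φ := by
    have := (W.contDiff (f := φ) (hψc.add hq)).sub (contDiff_const (c := m))
    simpa [e3] using this
  have hs1 : ContDiff ℝ 1 (fderiv ℝ φ) := hs.fderiv_right le_rfl
  set D := fderiv ℝ (fderiv ℝ φ) with hD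
  have hDc : Continuous D := hs1.continuous_fderiv one_ne_zero
  have e4 : av ρ D = D := by
    rw [hD, ← W.fderiv_av hs1, ← W.fderiv_av (hs.of_le (by norm_cast)), e3]
    simp only [funext fun z => fderiv_add_const (𝕜 := ℝ) (f := φ) (x := z) m]
  have e5 (z v w) : av ρ (fun z => D z v w) z = D z v w := by
    conv_rhs => rw [← e4, av, ContinuousLinearMap.integral_apply (W.integrable hDc z),
      ContinuousLinearMap.integral_apply ((W.integrable hDc z).apply_continuousLinearMap v)]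
    rfl
  have hsym (z v w) : D z v w = D z w v := hs.contDiffAt.isSymmSndFDerivAt (by simp) v w
  have e6 (z v) : D z v v + D z (I • v) (I • v) = D 0 v v + D 0 (I • v) (I • v) :=
    W.const (f := fun z => D z v v + D z (I • v) (I • v)) (by fun_prop) (fun n z => by
      have h1 : ContDiff ℝ (2 : ℕ∞) fun w => φ (w + p fun a => n a) := hs.comp (by fun_prop)
      have h2 := ah_levi (h1.sub hs) (hj n) (j0 n) (fun w => by
        rw [← e1]; simp only [hφ, hP n w]; ring) z v
      have h3 : fderiv ℝ (fun w => φ (w + p fun a => n a) - φ w) =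
          fun w => fderiv ℝ φ (w + p fun a => n a) - fderiv ℝ φ w := funext fun w => by
        rw [fderiv_fun_sub (h1.differentiable (by simp) w) (hs.differentiable (by simp) w),
          fderiv_comp_add_right]
      have h4 := hs1.differentiable one_ne_zero
      rw [h3, fderiv_fun_sub (by fun_prop) (h4 z), fderiv_comp_add_right] at h2
      simp only [_root_.sub_apply] at h2
      linarith) (fun z => by
      rw [← e5 z, ← e5 z]
      simp only [av, smul_add]
      exact integral_add (W.integrable (f := fun z => D z v v) (by fun_prop) z)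
        (W.integrable (f := fun z => D z (I • v) (I • v)) (by fun_prop) z)) z
  set J : (κ → ℂ) →L[ℝ] (κ → ℂ) := (I • ContinuousLinearMap.id ℂ (κ → ℂ)).restrictScalars ℝ
  set T := (2⁻¹ : ℝ) • (D 0 + (D 0).bilinearComp J J) with hT
  have e7 (v w) : T v w = 2⁻¹ * (D 0 v w + D 0 (I • v) (I • w)) := by simp [hT, J, mul_add]
  have e8 (z v w) : D z v w + D z (I • v) (I • w) = 2 * T v w := by
    have h1 := e6 z (v + w)
    simp only [smul_add, map_add, _root_.add_apply] at h1
    linarith [e6 z v, e6 z w, e7 v w, hsym z v w, hsym 0 v w, hsym z (I • v) (I • w),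
      hsym 0 (I • v) (I • w)]
  have t1 (v w) : T v w = T w v := by rw [e7, e7, hsym, hsym 0 (I • v)]
  have t2 (v w) : T (I • v) (I • w) = T v w := by
    simp only [e7, smul_smul, I_mul_I, neg_one_smul, map_neg, _root_.neg_apply]
    ring
  obtain ⟨h, hh, e9⟩ := ah_pluri (f := fun z => φ z - 2⁻¹ * T z z)
    (α := fun z => fderiv ℝ φ z - T z) (D := fun z => D z - T)
    (fun z => (hs.differentiable (by simp) z).hasFDerivAt.sub (by
      convert! (T.hasFDerivAt_of_bilinear (hasFDerivAt_id z) (hasFDerivAt_id z)).const_mul 2⁻¹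
        using 1
      ext v
      simp [t1 v z]
      ring))
    (fun z => (hs1.differentiable one_ne_zero z).hasFDerivAt.sub T.hasFDerivAt)
    (fun z v w => by simp only [_root_.sub_apply, hsym z v w, t1 v w])
    fun z v w => by
      simp only [_root_.sub_apply]
      linarith [e8 z v w, t2 v w]
  refine ⟨fun z => -h z, π⁻¹ • T, q, hh.neg, fun v w => by simp [t1 v w],
    fun v w => by simp [t2 v w], hq, hP, fun z => ?_⟩
  rw [norm_smul, norm_exp, ← Real.exp_log (norm_pos_iff.2 (h0 z)), ← Real.exp_add, neg_re, e9]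
  congr 1
  simp only [hφ, hψ, _root_.smul_apply, smul_eq_mul]
  field_simp
  ring

theorem AH (u : (κ → ℂ) → ι → ℂ) (hu : Differentiable ℂ u) (h0 : ∀ z, u z ≠ 0)
    (p : (ν → ℝ) ≃ₗ[ℝ] (κ → ℂ))
    (hper : ∀ (n : ν → ℤ) z, ∃ c : ℂ, u (z + p fun a => n a) = c • u z)
    (hfib : ∀ z (c : ℂ), u z = c • u 0 → ∃ n : ν → ℤ, z = p fun a => n a) :
    ∃ (h : (κ → ℂ) → ℂ) (S : (κ → ℂ) →ₗ[ℝ] (κ → ℂ) →ₗ[ℝ] ℝ), Differentiable ℂ h ∧
      (∀ v w, S v w = S w v) ∧ (∀ v w, S (I • v) (I • w) = S v w) ∧ (∀ v ≠ 0, 0 < S v v) ∧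
      (∀ n m : ν → ℤ, ∃ e : ℤ, S (I • p fun a => n a) (p fun a => m a) = e) ∧
      ∀ n : ν → ℤ, ∃ χ : ℂ, ‖χ‖ = Real.exp (π / 2 * S (p fun a => n a) (p fun a => n a)) ∧
        ∀ z, cexp (h (z + p fun a => n a)) • u (z + p fun a => n a) =
          (χ * cexp (π * (S z (p fun a => n a) - I * S (I • z) (p fun a => n a)))) •
            cexp (h z) • u z := by
  choose j hj using hper
  have hd (n) : Differentiable ℂ (j n) := fun z => by
    obtain ⟨a, ha⟩ := Function.ne_iff.1 (h0 z)
    have h1 := differentiable_pi.1 hu a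
    refine DifferentiableAt.congr_of_eventuallyEq
      (f := fun w => u (w + p fun a => n a) a / u w a) (by fun_prop (disch := exact ha)) ?_
    filter_upwards [h1.continuous.continuousAt.eventually_ne ha] with w hw
    rw [hj, Pi.smul_apply, smul_eq_mul, mul_div_cancel_right₀ _ hw]
  obtain ⟨h, S, q, hh, s1, s2, hq, hP, e⟩ := ah_norm hu h0 p hd hj
  have s3 (v w) : S (I • v) w = -S (I • w) v := by
    rw [← s2, smul_smul, I_mul_I, neg_one_smul, map_neg, _root_.neg_apply, s1]
  have key (n : ν → ℤ) : ∃ χ : ℂ, ‖χ‖ = Real.exp (π / 2 * S (p fun a => n a) (p fun a => n a)) ∧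
      ∀ z, cexp (h (z + p fun a => n a)) • u (z + p fun a => n a) =
        (χ * cexp (π * (S z (p fun a => n a) - I * S (I • z) (p fun a => n a)))) •
          cexp (h z) • u z := by
    have hn := hj n
    have hq := hP n
    set l := p fun a => n a
    set H : StrongDual ℂ (κ → ℂ) := StrongDual.extendRCLike (S.flip l)
    set k : (κ → ℂ) → ℂ := fun z => cexp (h (z + l) - h z - π * H z) * j n z with hk
    have e1 (z) : cexp (h (z + l)) • u (z + l) = (k z * cexp (π * H z)) • cexp (h z) • u z := by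
      rw [hn, smul_smul, smul_smul, hk]
      congr 1
      simp only [Complex.exp_sub]
      field_simp
    have e2 (z) : ‖k z‖ = Real.exp (π / 2 * S l l) := by
      have h1 := congrArg norm (e1 z)
      rw [e, norm_smul, e, norm_mul, norm_exp, mul_assoc, ← Real.exp_add, hq, eq_comm,
        ← eq_div_iff (Real.exp_pos _).ne', ← Real.exp_sub] at h1
      rw [h1]
      congr 1
      simp [H, StrongDual.extendRCLike_apply, s1 l z]
      ring
    have h1 : Differentiable ℂ k := by have := hd n; fun_prop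
    refine ⟨k 0, e2 0, fun z => ?_⟩
    rw [e1, h1.apply_eq_apply_of_bounded (isBounded_iff_forall_norm_le.2
      ⟨_, forall_mem_range.2 fun z => (e2 z).le⟩) z 0]
    rfl
  refine ⟨h, S.toLinearMap₁₂, hh, s1, s2, fun v hv => not_le.1 fun h1 => ?_, fun n m => ?_, key⟩
  · obtain ⟨C, hC⟩ := hP.bdd hq
    obtain ⟨a, ha⟩ := Function.ne_iff.1 (p.symm.map_ne_zero_iff.2 hv)
    have h2 : Differentiable ℂ fun c : ℂ => cexp (h (c • v)) • u (c • v) := by fun_prop
    have h3 := h2.apply_eq_apply_of_bounded (isBounded_iff_forall_norm_le.2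
      ⟨Real.exp C, forall_mem_range.2 fun c => by
        have h4 : S (c • v) (c • v) = (c.re ^ 2 + c.im ^ 2) * S v v := by
          rw [show c • v = c.re • v + c.im • I • v by
            ext i; simp only [Pi.add_apply, Pi.smul_apply, smul_eq_mul, real_smul]
            rw [← mul_assoc, ← add_mul, re_add_im]]
          simp only [map_add, map_smul, _root_.add_apply, _root_.smul_apply, smul_eq_mul, s2,
            s1 v (I • v)]
          linear_combination c.re * c.im * s3 v v
        rw [e, h4, Real.exp_le_exp]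
        have h5 := mul_nonneg (show 0 ≤ π / 2 * (c.re ^ 2 + c.im ^ 2) by positivity)
          (neg_nonneg.2 (show S v v ≤ 0 from h1))
        linarith [(abs_le.1 (hC (c • v))).1]⟩) ((2 * p.symm v a)⁻¹ : ℝ) 0
    rw [zero_smul, ← eq_inv_smul_iff₀ (Complex.exp_ne_zero _), smul_smul] at h3
    obtain ⟨n, hn⟩ := hfib _ _ h3
    have h4 := congrFun (p.symm_apply_eq.2 hn) a
    rw [Complex.coe_smul, map_smul, Pi.smul_apply, smul_eq_mul, inv_mul_eq_iff_eq_mul₀
      (mul_ne_zero two_ne_zero ha), mul_right_comm, eq_comm, mul_eq_right₀ ha] at h4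
    have h5 : 2 * n a = 1 := by exact_mod_cast h4
    omega
  · obtain ⟨χ, h1, h2⟩ := key n
    obtain ⟨χ', h1', h2'⟩ := key m
    have c1 : χ ≠ 0 := norm_pos_iff.1 (h1 ▸ Real.exp_pos _)
    have c2 : χ' ≠ 0 := norm_pos_iff.1 (h1' ▸ Real.exp_pos _)
    set l := p fun a => n a
    set l' := p fun a => m a
    have h3 := h2' (0 + l)
    rw [add_right_comm, h2, h2', h2, smul_smul (χ * _), smul_smul (χ' * _)] at h3
    have h4 := smul_left_injective ℂ (smul_ne_zero (Complex.exp_ne_zero _) (h0 0)) h3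
    simp only [zero_add, smul_zero, map_zero, _root_.zero_apply, ofReal_zero, mul_zero, sub_zero,
      Complex.exp_zero, mul_one] at h4
    obtain ⟨k, hk⟩ := Complex.exp_eq_exp_iff_exists_int.1 (mul_left_cancel₀ (mul_ne_zero c1 c2)
      (b := cexp (π * (S l' l - I * S (I • l') l))) (c := cexp (π * (S l l' - I * S (I • l) l')))
      (by linear_combination h4))
    refine ⟨k, mul_left_cancel₀ Real.two_pi_pos.ne' ?_⟩
    have h5 := congrArg im hk
    simp [s3 l' l] at h5
    change _ * S _ _ = _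
    linarith

end Pool.Agent.M4.Un
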