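import Mathlib

/-! Averaging over a ball on a complex torus. -/

namespace Pool.Agent.M4.Un

open MeasureTheory Set Filter Topology Complex Metric
open scoped Real BoundedContinuousFunction

set_option linter.unusedSectionVars false

variable {κ ν : Type} [Fintype κ] [Fintype ν]

theorem ah_uniq {r d : (κ → ℂ) → ℝ} (hi : Integrable r) (h0 : ∀ y, 0 ≤ r y) (h1 : ∫ y, r y < 1)
    (hc : Continuous d) {C : ℝ} (hb : ∀ z, |d z| ≤ C) (h : ∀ z, d z = ∫ y, r y * d (z - y)) (z) :
    d z = 0 := by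
  set D := BoundedContinuousFunction.ofNormedAddCommGroup d hc C hb
  have h2 : ‖D‖ ≤ (∫ y, r y) * ‖D‖ :=
    (BoundedContinuousFunction.norm_le (mul_nonneg (integral_nonneg h0) (norm_nonneg _))).2
      fun z => by
        change ‖d z‖ ≤ _
        rw [h, ← integral_mul_const]
        exact norm_integral_le_of_norm_le (hi.mul_const _) (.of_forall fun y => by
          rw [norm_mul, Real.norm_of_nonneg (h0 y)]
          exact mul_le_mul_of_nonneg_left (D.norm_coe_le_norm _) (h0 y))
  exact norm_le_zero_iff.1 ((D.norm_coe_le_norm z).trans (by nlinarith [norm_nonneg D]))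

theorem ah_int {r d : (κ → ℂ) → ℝ} (hi : Integrable r) (hc : Continuous d) {C : ℝ}
    (hb : ∀ z, |d z| ≤ C) (z) : Integrable fun y => r y * d (z - y) :=
  hi.mul_bdd (Continuous.aestronglyMeasurable (by fun_prop)) (.of_forall fun _ => hb _)

theorem ah_solve {r q : (κ → ℂ) → ℝ} (hi : Integrable r) (h0 : ∀ y, 0 ≤ r y) (h1 : ∫ y, r y < 1)
    (hc : Continuous q) {C : ℝ} (hb : ∀ z, |q z| ≤ C) : ∃ p : (κ → ℂ) → ℝ, Continuous p ∧
      (∃ C, ∀ z, |p z| ≤ C) ∧ ∀ z, p z = (∫ y, r y * p (z - y)) + q z := by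
  have hn (f : (κ → ℂ) →ᵇ ℝ) (z y) : ‖r y * f (z - y)‖ ≤ r y * ‖f‖ := by
    rw [norm_mul, Real.norm_of_nonneg (h0 y)]
    exact mul_le_mul_of_nonneg_left (f.norm_coe_le_norm _) (h0 y)
  have hB (f : (κ → ℂ) →ᵇ ℝ) (z) : ‖∫ y, r y * f (z - y)‖ ≤ (∫ y, r y) * ‖f‖ := by
    rw [← integral_mul_const]
    exact norm_integral_le_of_norm_le (hi.mul_const _) (.of_forall (hn f z))
  let B : ((κ → ℂ) →ᵇ ℝ) → (κ → ℂ) →ᵇ ℝ := fun f =>
    BoundedContinuousFunction.ofNormedAddCommGroup (fun z => (∫ y, r y * f (z - y)) + q z)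
      ((continuous_of_dominated (fun z => (ah_int hi f.continuous f.norm_coe_le_norm z).1)
        (fun z => .of_forall (hn f z)) (hi.mul_const _) (.of_forall fun y => by fun_prop)).add hc)
      _ fun z => (norm_add_le _ _).trans (add_le_add (hB f z) (hb z))
  have hK : ContractingWith ⟨_, integral_nonneg h0⟩ B := ⟨h1, .of_dist_le_mul fun f g =>
    (BoundedContinuousFunction.dist_le (mul_nonneg (integral_nonneg h0) dist_nonneg)).2 fun z => by
      change dist (_ + q z) (_ + q z) ≤ _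
      rw [dist_add_right, dist_eq_norm, dist_eq_norm, ← integral_sub
        (ah_int hi f.continuous f.norm_coe_le_norm z) (ah_int hi g.continuous g.norm_coe_le_norm z)]
      simpa [mul_sub] using hB (f - g) z⟩
  obtain ⟨f, hf⟩ : ∃ f, B f = f := ⟨_, hK.fixedPoint_isFixedPt⟩
  exact ⟨f, f.continuous, ⟨_, f.norm_coe_le_norm⟩, fun z => (congrArg (· z) hf).symm⟩

/-- The average of `f` with the weight `ρ`. -/
noncomputable def av {E : Type} [NormedAddCommGroup E] [NormedSpace ℝ E] (ρ : (κ → ℂ) → ℝ)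
    (f : (κ → ℂ) → E) (z : κ → ℂ) : E := ∫ y, ρ y • f (z - y)

/-- Periodic functions. -/
def Per (p : (ν → ℝ) ≃ₗ[ℝ] (κ → ℂ)) (f : (κ → ℂ) → ℝ) : Prop :=
  ∀ (n : ν → ℤ) z, f (z + p fun a => n a) = f z

/-- The weight. -/
structure Wt (p : (ν → ℝ) ≃ₗ[ℝ] (κ → ℂ)) (ρ r : (κ → ℂ) → ℝ) : Prop where
  smooth : ContDiff ℝ (2 : ℕ∞) ρ
  supp : HasCompactSupport ρ
  one : ∫ y, ρ y = 1
  rot : ∀ c : ℂ, ‖c‖ = 1 → ∀ y, ρ (c • y) = ρ y
  int : Integrable r
  nonneg : ∀ y, 0 ≤ r y
  lt : ∫ y, r y < 1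
  eq : ∀ f, Continuous f → Per p f → ∃ c, ∀ z, av ρ f z = (∫ y, r y * f (z - y)) + c

variable {p : (ν → ℝ) ≃ₗ[ℝ] (κ → ℂ)}

theorem Per.span {f : (κ → ℂ) → ℝ} (h : Per p f)
    (g : Submodule.span ℤ (range ((Pi.basisFun ℝ ν).map p))) (z) : f (z + g) = f z := by
  choose n hn using (Module.Basis.mem_span_iff_repr_mem ℤ _ _).1 g.2
  rw [← h n z]
  congr 2
  refine p.symm_apply_eq.1 (funext fun a => ?_)
  simpa using (hn a).symm

theorem Per.bdd {f : (κ → ℂ) → ℝ} (h : Per p f) (hc : Continuous f) : ∃ C, ∀ z, |f z| ≤ C := by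
  set b := (Pi.basisFun ℝ ν).map p
  obtain ⟨C, hC⟩ := (ZSpan.fundamentalDomain_isBounded b).isCompact_closure.exists_bound_of_continuousOn
    hc.continuousOn
  refine ⟨C, fun z => ?_⟩
  have h1 := h.span (ZSpan.floor b z) (ZSpan.fract b z)
  rw [ZSpan.fract_apply, sub_add_cancel, ← ZSpan.fract_apply] at h1
  rw [h1]
  exact hC _ (subset_closure (ZSpan.fract_mem_fundamentalDomain b z))

theorem exists_wt (p : (ν → ℝ) ≃ₗ[ℝ] (κ → ℂ)) : ∃ ρ r, Wt p ρ r := by
  set b := (Pi.basisFun ℝ ν).map p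
  set F := ZSpan.fundamentalDomain b
  have hF := ZSpan.fundamentalDomain_isBounded b
  have hm := ZSpan.fundamentalDomain_measurableSet b
  obtain ⟨R, hR⟩ := hF.isCompact_closure.exists_bound_of_continuousOn
    (f := fun y => ∑ i, ‖y i‖ ^ 2) (by fun_prop)
  set σ : (κ → ℂ) → ℝ := fun y => expNegInvGlue (R + 1 - ∑ i, ‖y i‖ ^ 2) with hσ
  have hs : ContDiff ℝ (2 : ℕ∞) σ := expNegInvGlue.contDiff.comp (contDiff_const.sub
    (ContDiff.sum fun i _ => (contDiff_norm_sq ℂ).comp (contDiff_apply ℝ ℂ i)))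
  have hc : HasCompactSupport σ := HasCompactSupport.intro (isCompact_closedBall 0 √(R + 1))
    fun y hy => expNegInvGlue.zero_of_nonpos (by_contra fun h => hy (mem_closedBall_zero_iff.2
      ((pi_norm_le_iff_of_nonneg (Real.sqrt_nonneg _)).2 fun i => Real.le_sqrt_of_sq_le (by
        linarith [Finset.single_le_sum (f := fun i => ‖y i‖ ^ 2) (fun _ _ => sq_nonneg _)
          (Finset.mem_univ i)]))))
  have hi := hs.continuous.integrable_of_hasCompactSupport (μ := volume) hc
  set ε := expNegInvGlue 1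
  have hε : 0 < ε := expNegInvGlue.pos_of_pos one_pos
  have hl (y) : F.indicator (fun _ => ε) y ≤ σ y := indicator_apply_le'
    (fun hy => expNegInvGlue.monotone (by linarith [(le_abs_self _).trans (hR y (subset_closure hy))]))
    fun _ => expNegInvGlue.nonneg _
  have hv : volume F ≠ ⊤ := hF.measure_lt_top.ne
  have hj : Integrable (F.indicator fun _ => ε) := (integrableOn_const hv).integrable_indicator hm
  have hp : 0 < ∫ y, F.indicator (fun _ => ε) y := by
    rw [integral_indicator_const _ hm]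
    exact mul_pos (ENNReal.toReal_pos (ZSpan.measure_fundamentalDomain_ne_zero b) hv) hε
  have hN : 0 < ∫ y, σ y := hp.trans_le (integral_mono hj hi hl)
  set N := ∫ y, σ y
  refine ⟨fun y => N⁻¹ * σ y, fun y => N⁻¹ * (σ y - F.indicator (fun _ => ε) y),
    contDiff_const.mul hs, hc.mul_left, by rw [integral_const_mul, inv_mul_cancel₀ hN.ne'],
    fun c h y => by simp [hσ, h], (hi.sub hj).const_mul _,
    fun y => mul_nonneg (inv_pos.2 hN).le (sub_nonneg.2 (hl y)), ?_, fun f hf hP => ?_⟩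
  · rw [integral_const_mul, integral_sub hi hj, inv_mul_lt_one₀ hN]
    exact sub_lt_self _ hp
  obtain ⟨C, hC⟩ := hP.bdd hf
  refine ⟨N⁻¹ * (ε * ∫ y in F, f (-y)), fun z => ?_⟩
  have h1 : ∫ y in F, f (-y) = ∫ y in F, f (z - y) := by
    have : Countable (Submodule.span ℤ (range b)).toAddSubgroup :=
      inferInstanceAs (Countable (Submodule.span ℤ (range b)))
    have h2 := (ZSpan.isAddFundamentalDomain' b volume).setIntegral_eq
      ((ZSpan.isAddFundamentalDomain' b volume).vadd_of_comm (-z)) (f := fun y => f (-y))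
      fun g x => by
        rw [← hP.span ⟨g.1, g.2⟩]
        congr 1
        change -(g.1 + x) + g.1 = _
        ring
    refine h2.trans (((measurePreserving_add_left volume (-z)).setIntegral_image_emb
      (measurableEmbedding_addLeft _) _ _).trans ?_)
    simp only [neg_add, neg_neg, ← sub_eq_add_neg, F]
  simp only [av, smul_eq_mul, mul_assoc, integral_const_mul, sub_mul]
  rw [h1, integral_sub (ah_int hi hf hC z) (ah_int hj hf hC z), ← mul_add]
  simp only [← indicator_mul_left F (fun _ => ε) fun y => f (z - y)]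
  rw [integral_indicator hm, integral_const_mul, sub_add_cancel]

namespace Wt

variable {ρ r : (κ → ℂ) → ℝ} (W : Wt p ρ r)
include W

theorem const {f : (κ → ℂ) → ℝ} (hf : Continuous f) (hP : Per p f) (h : ∀ z, av ρ f z = f z) (z) :
    f z = f 0 := by
  obtain ⟨c, hc⟩ := W.eq f hf hP
  obtain ⟨C, hC⟩ := hP.bdd hf
  have := ah_uniq W.int W.nonneg W.lt (d := fun w => f (w + z) - f w) (by fun_prop) (C := C + C)
    (fun w => (abs_sub _ _).trans (add_le_add (hC _) (hC _))) (fun w => by
      simp only [mul_sub, sub_add_eq_add_sub]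
      rw [integral_sub (ah_int W.int hf hC _) (ah_int W.int hf hC _), ← h, ← h w, hc, hc]
      ring) 0
  simpa [sub_eq_zero] using this

theorem integrable {E : Type} [NormedAddCommGroup E] [NormedSpace ℝ E] {f : (κ → ℂ) → E}
    (hf : Continuous f) (z) : Integrable fun y => ρ y • f (z - y) :=
  Continuous.integrable_of_hasCompactSupport (W.smooth.continuous.smul (by fun_prop))
    W.supp.smul_right

theorem bound {E : Type} [NormedAddCommGroup E] {f : (κ → ℂ) → E} (hf : Continuous f) (z) :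
    ∃ M, ∀ y, ∀ x ∈ ball z 1, ∀ c : ℂ, ‖c‖ = 1 → |ρ y| * ‖f (x - c • y)‖ ≤ |ρ y| * M := by
  obtain ⟨R, hR⟩ := W.supp.isCompact.isBounded.subset_closedBall 0
  obtain ⟨M, hM⟩ := (isCompact_closedBall z (1 + R)).exists_bound_of_continuousOn hf.continuousOn
  refine ⟨M, fun y x hx c hc => ?_⟩
  by_cases hy : y ∈ tsupport ρ
  · refine mul_le_mul_of_nonneg_left (hM _ (mem_closedBall_iff_norm.2 ?_)) (abs_nonneg _)
    rw [sub_right_comm]
    refine (norm_sub_le _ _).trans (add_le_add (mem_ball_iff_norm.1 hx).le ?_)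
    rw [norm_smul, hc, one_mul]
    exact mem_closedBall_zero_iff.1 (hR hy)
  · simp [image_eq_zero_of_notMem_tsupport hy]

theorem contDiff {f : (κ → ℂ) → ℝ} (hf : Continuous f) : ContDiff ℝ (2 : ℕ∞) (av ρ f) :=
  W.supp.contDiff_convolution_left (ContinuousLinearMap.lsmul ℝ ℝ) W.smooth hf.locallyIntegrable

theorem fderiv_av {E : Type} [NormedAddCommGroup E] [NormedSpace ℝ E] {f : (κ → ℂ) → E}
    (hf : ContDiff ℝ 1 f) : fderiv ℝ (av ρ f) = av ρ (fderiv ℝ f) := funext fun z => by
  have hc := hf.continuous_fderiv one_ne_zero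
  obtain ⟨M, hM⟩ := W.bound hc z
  refine (hasFDerivAt_integral_of_dominated_of_fderiv_le (ball_mem_nhds z one_pos)
    (.of_forall fun x => (W.integrable hf.continuous x).1) (W.integrable hf.continuous z)
    (F' := fun x y => ρ y • fderiv ℝ f (x - y)) (W.integrable hc z).1
    (.of_forall fun y x hx => ?_) (((W.smooth.continuous.integrable_of_hasCompactSupport
      W.supp).abs).mul_const M) (.of_forall fun y x _ => ?_)).fderiv
  · simpa [norm_smul] using hM y x hx 1 norm_one
  · exact ((hasFDerivAt_comp_sub y).2 (hf.differentiable one_ne_zero _).hasFDerivAt).const_smul _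

theorem circle {f : (κ → ℂ) → ℝ} (hf : Continuous f)
    (h : ∀ z y, Real.circleAverage (fun c : ℂ => f (z - c • y)) 0 1 = f z) (z) :
    av ρ f z = f z := by
  obtain ⟨M, hM⟩ := W.bound hf z
  have hn (θ : ℝ) : ‖circleMap 0 1 θ‖ = 1 := by simp
  have h1 (θ : ℝ) : ∫ y, ρ y * f (z - circleMap 0 1 θ • y) = av ρ f z := by
    have h2 := (volume_preserving_pi fun _ : κ => (rotation (Circle.exp θ)).measurePreserving)
    symm
    rw [av, ← h2.integral_comp (Homeomorph.piCongrRight fun _ =>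
      (rotation (Circle.exp θ)).toHomeomorph).measurableEmbedding]
    refine integral_congr_ae (.of_forall fun y => ?_)
    have h3 : (fun i => rotation (Circle.exp θ) (y i)) = circleMap 0 1 θ • y := by
      ext i; simp [circleMap]
    simp only [h3, W.rot _ (hn θ), smul_eq_mul]
  have h2 := intervalIntegral_integral_swap (μ := volume) (a := 0) (b := 2 * π)
    (f := fun θ y => ρ y * f (z - circleMap 0 1 θ • y))
    (((integrableOn_const (C := (1 : ℝ)) (by simp [ENNReal.mul_eq_top])).mul_prod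
      (((W.smooth.continuous.integrable_of_hasCompactSupport W.supp).abs).mul_const M)).mono'
      (Continuous.aestronglyMeasurable (by
        have := W.smooth.continuous
        unfold Function.uncurry; fun_prop))
      (.of_forall fun q => by simpa [Function.uncurry] using hM q.2 z (mem_ball_self one_pos) _ (hn q.1)))
  have h3 (y) : ∫ θ in (0 : ℝ)..2 * π, f (z - circleMap 0 1 θ • y) = 2 * π * f z := by
    rw [← h z y, Real.circleAverage_def, smul_eq_mul, mul_inv_cancel_left₀ (by positivity)]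
  simp only [h1, intervalIntegral.integral_const_mul, h3, integral_mul_const, W.one] at h2
  simpa [Real.pi_ne_zero] using h2

theorem exists_phi {ψ : (κ → ℂ) → ℝ} (hψ : Continuous ψ)
    (h : ∀ (n : ν → ℤ) z, av ρ (fun w => ψ (w + p fun a => n a) - ψ w) z =
      ψ (z + p fun a => n a) - ψ z) :
    ∃ q m, Continuous q ∧ Per p q ∧ ∀ z, av ρ (fun w => ψ w + q w) z = ψ z + q z + m := by
  have hc : Continuous fun z => av ρ ψ z - ψ z := (W.contDiff hψ).continuous.sub hψ
  have hP : Per p fun z => av ρ ψ z - ψ z := fun n z => by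
    have h1 := h n z
    simp only [av, smul_sub, sub_add_eq_add_sub] at h1 ⊢
    rw [integral_sub (W.integrable hψ _) (W.integrable hψ _)] at h1
    linarith
  obtain ⟨C, hC⟩ := hP.bdd hc
  obtain ⟨q, hq, ⟨D, hD⟩, e⟩ := ah_solve W.int W.nonneg W.lt hc hC
  have hQ : Per p q := fun n z => sub_eq_zero.1 (ah_uniq W.int W.nonneg W.lt
    (d := fun w => q (w + p fun a => n a) - q w) (by fun_prop) (C := D + D)
    (fun w => (abs_sub _ _).trans (add_le_add (hD _) (hD _))) (fun w => by
      simp only [mul_sub, sub_add_eq_add_sub]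
      rw [integral_sub (ah_int W.int hq hD _) (ah_int W.int hq hD _), e, e w]
      linarith [hP n w]) z)
  obtain ⟨c, e'⟩ := W.eq q hq hQ
  refine ⟨q, c, hq, hQ, fun z => ?_⟩
  have h1 := e' z
  have h2 := e z
  simp only [av, smul_add] at h1 h2 ⊢
  rw [integral_add (W.integrable hψ _) (W.integrable hq _)]
  linarith

end Wt

end Pool.Agent.M4.Un
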