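import Mathlib

/-!
Holomorphic functions of polynomial growth off a hypersurface are rational.
-/

set_option autoImplicit false

noncomputable section

namespace M4.Un

open Filter Topology Function

/-- `f` has polynomial growth on `S`. -/
def Gw {E : Type} [NormedAddCommGroup E] (S : Set E) (f : E → ℝ) : Prop :=
  ∃ (c : ℝ) (k : ℕ), 0 ≤ c ∧ ∀ x ∈ S, f x ≤ c * (1 + ‖x‖) ^ k

section gw

variable {E : Type} [NormedAddCommGroup E] {S : Set E} {f g : E → ℝ}

theorem Gw.of_le (h : Gw S g) (hf : ∀ x ∈ S, f x ≤ g x) : Gw S f :=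
  let ⟨c, k, hc, h⟩ := h
  ⟨c, k, hc, fun x hx => (hf x hx).trans (h x hx)⟩

theorem Gw.const (a : ℝ) : Gw S fun _ => a := ⟨|a|, 0, abs_nonneg a, fun _ _ => by
  simpa using le_abs_self a⟩

theorem Gw.add (hf : Gw S f) (hg : Gw S g) : Gw S fun x => f x + g x := by
  obtain ⟨c, k, hc, h⟩ := hf
  obtain ⟨c', k', hc', h'⟩ := hg
  refine ⟨c + c', k + k', add_nonneg hc hc', fun x hx => ?_⟩
  have h1 : 1 ≤ 1 + ‖x‖ := by linarith [norm_nonneg x]
  have h2 := mul_le_mul_of_nonneg_left (pow_le_pow_right₀ h1 (Nat.le_add_right k k')) hc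
  have h3 := mul_le_mul_of_nonneg_left (pow_le_pow_right₀ h1 (Nat.le_add_left k' k)) hc'
  linarith [h x hx, h' x hx]

theorem Gw.mul (hf : Gw S f) (hg : Gw S g) (h0 : ∀ x ∈ S, 0 ≤ g x) :
    Gw S fun x => f x * g x := by
  obtain ⟨c, k, hc, h⟩ := hf
  obtain ⟨c', k', hc', h'⟩ := hg
  refine ⟨c * c', k + k', mul_nonneg hc hc', fun x hx => ?_⟩
  refine (mul_le_mul (h x hx) (h' x hx) (h0 x hx) (by positivity)).trans_eq ?_
  ring

theorem Gw.pow (hf : Gw S f) (h0 : ∀ x ∈ S, 0 ≤ f x) (n : ℕ) : Gw S fun x => f x ^ n := by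
  induction n with
  | zero => simpa using Gw.const 1
  | succ n ih => simpa [pow_succ] using ih.mul hf h0

theorem Gw.sum {α : Type} (s : Finset α) {f : α → E → ℝ} (h : ∀ a ∈ s, Gw S (f a)) :
    Gw S fun x => ∑ a ∈ s, f a x := by
  classical
  induction s using Finset.induction_on with
  | empty => simpa using Gw.const 0
  | insert a s ha ih =>
    simpa [Finset.sum_insert ha] using (h a (Finset.mem_insert_self _ _)).add
      (ih fun b hb => h b (Finset.mem_insert_of_mem hb))

theorem Gw.eval {α : Type} [Fintype α] (S : Set (α → ℂ)) (P : MvPolynomial α ℂ) :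
    Gw S fun x => ‖MvPolynomial.eval x P‖ := by
  induction P using MvPolynomial.induction_on with
  | C a => simpa using Gw.const ‖a‖
  | add p q hp hq => exact (hp.add hq).of_le fun x _ => by simpa using norm_add_le _ _
  | mul_X p i hp =>
    simpa using hp.mul (g := fun x => ‖x i‖) ⟨1, 1, zero_le_one, fun x _ => by
      simpa using (norm_le_pi_norm x i).trans (le_add_of_nonneg_left zero_le_one)⟩
      fun _ _ => norm_nonneg _

end gw

theorem poly_one (k : ℕ) : ∀ g : ℂ → ℂ, Differentiable ℂ g → ∀ c R : ℝ,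
    (∀ x, R ≤ ‖x‖ → ‖g x‖ ≤ c * ‖x‖ ^ k) →
      ∃ q : Polynomial ℂ, q.natDegree ≤ k ∧ ∀ x, g x = q.eval x := by
  induction k with
  | zero =>
    rintro g hg c R h
    obtain ⟨b, hb⟩ := (isCompact_closedBall (0 : ℂ) R).exists_bound_of_continuousOn
      hg.continuous.continuousOn
    have hbd : Bornology.IsBounded (Set.range g) := by
      refine isBounded_iff_forall_norm_le.mpr ⟨max b c, ?_⟩
      rintro _ ⟨x, rfl⟩
      rcases le_total R ‖x‖ with h1 | h1
      · exact ((h x h1).trans_eq (by simp)).trans (le_max_right _ _)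
      · exact (hb x (mem_closedBall_zero_iff.mpr h1)).trans (le_max_left _ _)
    obtain ⟨a, ha⟩ := hg.exists_const_forall_eq_of_bounded hbd
    exact ⟨Polynomial.C a, by simp, fun x => by rw [ha, Polynomial.eval_C]⟩
  | succ k ih =>
    rintro g hg c R h
    have hd : Differentiable ℂ (dslope g 0) := differentiableOn_univ.mp
      ((Complex.differentiableOn_dslope univ_mem).mpr hg.differentiableOn)
    have he : ∀ x, x * dslope g 0 x = g x - g 0 := fun x => by
      have := sub_smul_dslope g 0 x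
      rwa [sub_zero, smul_eq_mul] at this
    obtain ⟨q, hq, hq'⟩ := ih _ hd (c + ‖g 0‖) (max R 1) fun x hx => by
      have h1 : 1 ≤ ‖x‖ := (le_max_right _ _).trans hx
      refine le_of_mul_le_mul_left ?_ (zero_lt_one.trans_le h1)
      rw [← norm_mul, he]
      have h2 := h x ((le_max_left _ _).trans hx)
      have h3 := mul_le_mul_of_nonneg_left (one_le_pow₀ h1 (n := k + 1)) (norm_nonneg (g 0))
      have h4 := norm_sub_le (g x) (g 0)
      rw [pow_succ] at h2 h3
      linarith
    refine ⟨Polynomial.X * q + Polynomial.C (g 0), ?_, fun x => by simp [← hq', he]⟩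
    rw [Polynomial.natDegree_add_C]
    exact Polynomial.natDegree_mul_le.trans (by rw [Polynomial.natDegree_X]; omega)

/-- A function that is a polynomial of bounded degree in each variable is a polynomial. -/
theorem poly_sep (N : ℕ) : ∀ (s : ℕ) (h : (Fin s → ℂ) → ℂ),
    (∀ ξ i, ∃ q : Polynomial ℂ, q.natDegree ≤ N ∧ ∀ t, h (update ξ i t) = q.eval t) →
      ∃ G : MvPolynomial (Fin s) ℂ, ∀ ξ, h ξ = MvPolynomial.eval ξ G := by
  intro s
  induction s with
  | zero => exact fun h _ => ⟨MvPolynomial.C (h 0), fun ξ => by simp [Subsingleton.elim ξ 0]⟩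
  | succ s ih =>
    intro h hh
    choose G hG using fun j : ℕ => ih (fun ξ => h (Fin.cons j ξ)) fun ξ i => by
      simpa only [Fin.cons_update] using hh (Fin.cons j ξ) i.succ
    refine ⟨∑ j ∈ Finset.range (N + 1), MvPolynomial.rename Fin.succ (G j) *
      Polynomial.aeval (MvPolynomial.X 0) (Lagrange.basis (Finset.range (N + 1)) Nat.cast j :
        Polynomial ℂ), fun ξ => ?_⟩
    obtain ⟨q, hq, hq'⟩ := hh ξ 0
    have h1 := Lagrange.eq_interpolate (f := q) (s := Finset.range (N + 1)) (v := Nat.cast)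
      Nat.cast_injective.injOn (by
        rw [Finset.card_range]
        exact Polynomial.degree_le_natDegree.trans_lt (by exact_mod_cast Nat.lt_succ_of_le hq))
    rw [← update_eq_self 0 ξ, hq', update_eq_self, h1, Lagrange.interpolate_apply,
      Polynomial.eval_finsetSum, map_sum]
    refine Finset.sum_congr rfl fun j _ => ?_
    rw [map_mul, MvPolynomial.eval_rename, Polynomial.eval_mul, Polynomial.eval_C, ← hq',
      show (ξ ∘ Fin.succ) = Fin.tail ξ from rfl, ← hG, ← Fin.update_cons_zero (ξ 0),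
      Fin.cons_self_tail, ← MvPolynomial.coe_aeval_eq_eval]
    congr 1
    exact ((Polynomial.aeval_algHom_apply (MvPolynomial.aeval ξ) _ _).symm.trans (by simp)).symm

theorem rat_of_growth {s : ℕ} {g : (Fin s → ℂ) → ℂ} {Δ : MvPolynomial (Fin s) ℂ}
    (hd : ∀ ξ, MvPolynomial.eval ξ Δ ≠ 0 → DifferentiableAt ℂ g ξ)
    (hb : Gw {ξ | MvPolynomial.eval ξ Δ ≠ 0} fun ξ => ‖g ξ‖) :
    ∃ G : MvPolynomial (Fin s) ℂ, ∀ ξ, MvPolynomial.eval ξ Δ * g ξ = MvPolynomial.eval ξ G := by
  obtain ⟨c, k, hc, h1⟩ := (Gw.eval _ Δ).mul hb fun _ _ => norm_nonneg _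
  obtain ⟨c', k', -, h2⟩ := hb
  refine poly_sep k s _ fun ξ i => ?_
  have hu : Differentiable ℂ (update ξ i) := fun t => (hasDerivAt_update ξ i t).differentiableAt
  have hΔ : ∀ t, AnalyticAt ℂ (fun t => MvPolynomial.eval (update ξ i t) Δ) t := fun t =>
    ((AnalyticOnNhd.eval_mvPolynomial Δ).differentiableOn.comp hu.differentiableOn
      (Set.mapsTo_univ _ _)).analyticAt univ_mem
  refine poly_one k _ (fun t => ?_) (c * (2 + ‖ξ‖) ^ k) 1 fun t ht => ?_
  · by_cases h0 : MvPolynomial.eval (update ξ i t) Δ ≠ 0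
    · exact (hΔ t).differentiableAt.mul ((hd _ h0).comp t (hu t))
    rcases (hΔ t).eventually_eq_zero_or_eventually_ne_zero with h3 | h3
    · refine (differentiableAt_const 0).congr_of_eventuallyEq (h3.mono fun x hx => ?_)
      simp only [hx, zero_mul]
    refine (Complex.analyticAt_of_differentiable_on_punctured_nhds_of_continuousAt
      (h3.mono fun x hx => (hΔ x).differentiableAt.mul ((hd _ hx).comp x (hu x)))
      ?_).differentiableAt
    rw [not_not] at h0
    have h4 : Tendsto (fun t => ‖MvPolynomial.eval (update ξ i t) Δ‖ *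
        (c' * (1 + ‖update ξ i t‖) ^ k')) (𝓝 t) (𝓝 0) := by
      have h5 := hu.continuous
      have h6 := (hΔ t).continuousAt.norm.mul
        (show ContinuousAt (fun t => c' * (1 + ‖update ξ i t‖) ^ k') t by fun_prop)
      rw [ContinuousAt, Pi.mul_apply, h0, norm_zero, zero_mul] at h6
      exact h6
    rw [ContinuousAt, Pi.mul_apply, h0, zero_mul]
    refine squeeze_zero_norm (fun x => ?_) h4
    by_cases h5 : MvPolynomial.eval (update ξ i x) Δ = 0
    · simp [h5]
    · rw [Pi.mul_apply, norm_mul]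
      exact mul_le_mul_of_nonneg_left (h2 _ h5) (norm_nonneg _)
  · by_cases h5 : MvPolynomial.eval (update ξ i t) Δ = 0
    · rw [h5, zero_mul, norm_zero]
      positivity
    have h6 : ‖update ξ i t‖ ≤ ‖ξ‖ + ‖t‖ := (pi_norm_le_iff_of_nonneg (by positivity)).2 fun j => by
      by_cases hj : j = i
      · simp [hj]
      · rw [update_of_ne hj]
        exact (norm_le_pi_norm ξ j).trans (le_add_of_nonneg_right (norm_nonneg t))
    rw [norm_mul, mul_assoc, ← mul_pow]
    refine (h1 _ h5).trans (mul_le_mul_of_nonneg_left (pow_le_pow_left₀ (by positivity) ?_ k) hc)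
    nlinarith [norm_nonneg ξ]

end M4.Un
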