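import Pool.Agent.Lib.MP_33b3f9_ag.Un.GLio
import Pool.Agent.Lib.MP_33b3f9_ag.M4.ProjA
import Pool.Agent.Lib.MP_33b3f9_ag.M4.ThLio
import Pool.Agent.Lib.MP_a47f92_an.G.Osg

/-!
A uniformisation with an algebraic group law is an embedding.
-/

set_option autoImplicit false

noncomputable section

namespace M4.Un

open Filter Topology MvPolynomial

variable {α κ μ : Type} [Fintype α] [Fintype κ] [Fintype μ]

/-- An entire map to projective space with fibres the cosets of a lattice and algebraic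
translations. -/
structure Up (u : (κ → ℂ) → α → ℂ) (p : (μ → ℝ) ≃ₗ[ℝ] (κ → ℂ)) : Prop where
  hol : Differentiable ℂ u
  ne : ∀ z, u z ≠ 0
  fib : ∀ z w, (∃ c : ℂ, u z = c • u w) ↔ ∃ n, z - w = p (rz n)
  sub : ∀ z₀ w₀, ∃ (d : ℕ) (Ψ : α → MvPolynomial α ℂ), (∀ a, (Ψ a).IsHomogeneous d) ∧
    (∃ a, eval (u z₀) (Ψ a) ≠ 0) ∧ ∀ z, ∃ c : ℂ, ∀ a, eval (u z) (Ψ a) = c * u (z - w₀) a

variable {u : (κ → ℂ) → α → ℂ} {p : (μ → ℝ) ≃ₗ[ℝ] (κ → ℂ)}

omit [Fintype α] [Fintype κ] [Fintype μ] in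
theorem Up.red (h : Up u p) (z : κ → ℂ) :
    ∃ x ∈ Set.Icc (0 : μ → ℝ) 1, ∃ c : ℂ, u (p x) = c • u z :=
  ⟨fun i => Int.fract (p.symm z i), ⟨fun i => Int.fract_nonneg _, fun i => (Int.fract_lt_one _).le⟩,
    (h.fib _ _).2 ⟨fun i => -⌊p.symm z i⌋, by
      rw [← p.apply_symm_apply z, ← map_sub, p.symm_apply_apply]
      congr 1
      funext i
      simp [rz]⟩⟩

omit [Fintype α] [Fintype κ] in
theorem Up.emb (h : Up u p) {z₀ : κ → ℂ} {a : α} {W : Set (κ → ℂ)} (hW : W ∈ 𝓝 z₀) :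
    ∀ᶠ q in 𝓝 ((u z₀ a)⁻¹ • u z₀), ∀ z, u z = u z a • q → ∃ z' ∈ W, u z' = u z' a • q := by
  have hp : Continuous p := p.toLinearMap.continuous_of_finiteDimensional
  have hu := h.hol.continuous
  have hK : IsCompact (Set.Icc (0 : μ → ℝ) 1 ∩ ⋂ n, (fun x => p x + p (rz n)) ⁻¹' (interior W)ᶜ) :=
    isCompact_Icc.inter_right (isClosed_iInter fun n =>
      isOpen_interior.isClosed_compl.preimage (by fun_prop))
  have key : ∀ {z z' : κ → ℂ} {q : α → ℂ} {c : ℂ}, u z = u z a • q → u z' = c • u z →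
      u z' = u z' a • q := fun {z z' q c} h1 h2 => by
    rw [h2, Pi.smul_apply, smul_eq_mul, mul_smul, ← h1]
  refine (hK.eventually_forall_of_forall_eventually (x₀ := (u z₀ a)⁻¹ • u z₀)
    (P := fun q x => u (p x) - u (p x) a • q ≠ 0) fun x hx => ?_).mono fun q hq z hz => ?_
  swap
  · obtain ⟨x, hx, c, hc⟩ := h.red z
    have h1 := key hz hc
    by_contra h2
    refine hq x ⟨hx, Set.mem_iInter.2 fun n hn => h2 ⟨_, interior_subset hn, ?_⟩⟩
      (sub_eq_zero.2 h1)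
    obtain ⟨c', hc'⟩ := (h.fib (p x + p (rz n)) (p x)).2 ⟨n, add_sub_cancel_left _ _⟩
    exact key h1 hc'
  · refine ContinuousAt.eventually_ne (g := fun v : (α → ℂ) × (μ → ℝ) =>
      u (p v.2) - u (p v.2) a • v.1) (by fun_prop) fun h1 => ?_
    obtain ⟨n, hn⟩ := (h.fib _ _).1 ⟨_, (sub_eq_zero.1 h1).trans (smul_smul _ _ _)⟩
    refine Set.mem_iInter.1 hx.2 (-n) ?_
    simp only [rz_neg, map_neg, ← hn]
    simpa using mem_interior_iff_mem_nhds.2 hW

theorem euler {F : MvPolynomial α ℂ} {d : ℕ} (hF : F.IsHomogeneous d) {γ : ℂ → α → ℂ} {l : ℂ}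
    (hγ : HasDerivAt γ (l • γ 0) 0) :
    HasDerivAt (fun t => eval (γ t) F) (d * l * eval (γ 0) F) 0 := by
  have h1 := (AnalyticOnNhd.eval_mvPolynomial F (γ 0) (Set.mem_univ _)).differentiableAt.hasFDerivAt
  have h2 : HasDerivAt (fun t : ℂ => 1 + t * l) l 0 := by
    simpa using ((hasDerivAt_id (0 : ℂ)).mul_const l).const_add 1
  have h3 := h1.comp_hasDerivAt_of_eq 0 (h2.smul_const (γ 0)) (by simp)
  have h4 := (h2.fun_pow d).mul_const (eval (γ 0) F)
  simp only [← Gr.proja_smul hF] at h4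
  refine (h1.comp_hasDerivAt 0 hγ).congr_deriv ?_
  rw [h3.unique h4]
  simp

omit [Fintype μ] in
theorem Up.line (h : Up u p) (z v : κ → ℂ) (t : ℂ) :
    HasDerivAt (fun s : ℂ => u (z + s • v)) (fderiv ℂ u (z + t • v) v) t :=
  (h.hol _).hasFDerivAt.comp_hasDerivAt t (by
    simpa using ((hasDerivAt_id t).smul_const v).const_add z)

theorem Up.imm (h : Up u p) {z₁ v : κ → ℂ} {l : ℂ} (hl : fderiv ℂ u z₁ v = l • u z₁) : v = 0 := by
  have h1 : ∀ z a b, fderiv ℂ u z v a * u z b = u z a * fderiv ℂ u z v b := fun z a b => by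
    obtain ⟨d, Ψ, h2, ⟨e, h3⟩, h4⟩ := h.sub z₁ (z₁ - z)
    have h5 := fun a => euler (h2 a) (γ := fun s : ℂ => u (z₁ + s • v)) (l := l)
      (by simpa [hl] using h.line z₁ v 0)
    have h6 := fun a => hasDerivAt_pi.1 (h.line z v 0) a
    have h7 := ((h5 a).fun_mul (h6 b)).unique
      (((h5 b).fun_mul (h6 a)).congr_of_eventuallyEq (.of_forall fun s => by
        obtain ⟨c, hc⟩ := h4 (z₁ + s • v)
        simp only [hc, show z₁ + s • v - (z₁ - z) = z + s • v by abel]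
        ring))
    obtain ⟨c, hc⟩ := h4 z₁
    simp only [zero_smul, add_zero, hc, sub_sub_cancel] at h7 h3
    apply mul_left_cancel₀ (left_ne_zero_of_mul h3)
    linear_combination -h7
  obtain ⟨b, hb⟩ := Function.ne_iff.1 (h.ne 0)
  have h2 := fun t a => hasDerivAt_pi.1 (h.line 0 v t) a
  obtain ⟨r, hr, h3⟩ := Metric.eventually_nhds_iff_ball.1
    ((h2 0 b).continuousAt.eventually_ne (by simpa using hb))
  have h4 : ∀ t ∈ Metric.ball (0 : ℂ) r, ∃ n, t • v = p (rz n) := fun t ht => by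
    have h5 := fun a => Metric.isOpen_ball.is_const_of_deriv_eq_zero
      (convex_ball (0 : ℂ) r).isPreconnected (f := fun s : ℂ => u (0 + s • v) a / u (0 + s • v) b)
      (fun s hs => ((h2 s a).fun_div (h2 s b) (h3 s hs)).differentiableAt.differentiableWithinAt)
      (fun s hs => by rw [((h2 s a).fun_div (h2 s b) (h3 s hs)).deriv, h1, sub_self, zero_div]; rfl)
      ht (Metric.mem_ball_self hr)
    simpa using (h.fib (0 + t • v) 0).1 ⟨u (0 + t • v) b / u 0 b, funext fun a => by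
      have h6 := h5 a
      rw [zero_smul, add_zero, div_eq_iff (h3 t ht)] at h6
      rw [h6, Pi.smul_apply, smul_eq_mul]
      ring⟩
  have h5 : ∀ᶠ t : ℝ in 𝓝 0, (t : ℂ) ∈ Metric.ball (0 : ℂ) r ∧ ‖t • p.symm v‖ < 1 :=
    (Complex.continuous_ofReal.continuousAt.eventually (Metric.ball_mem_nhds _ hr)).and
      (ContinuousAt.eventually_lt (by fun_prop) continuousAt_const (by simp))
  obtain ⟨t, ⟨h6, h7⟩, ht⟩ := ((h5.filter_mono nhdsWithin_le_nhds).and
    (self_mem_nhdsWithin (s := {0}ᶜ))).exists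
  obtain ⟨n, hn⟩ := h4 _ h6
  have h8 : t • p.symm v = rz n := by
    rw [← map_smul, LinearEquiv.symm_apply_eq, ← hn]
    rfl
  have h9 : n = 0 := funext fun i => by
    have h10 := (norm_le_pi_norm _ i).trans_lt (h8 ▸ h7)
    rw [rz, Real.norm_eq_abs] at h10
    exact Int.abs_lt_one_iff.1 (by exact_mod_cast h10)
  rw [h9, rz_zero, map_zero] at hn
  exact (smul_eq_zero.1 hn).resolve_left (Complex.ofReal_ne_zero.2 ht)

theorem Up.inv (h : Up u p) {z₀ : κ → ℂ} {a : α} (ha : u z₀ a ≠ 0) :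
    ∃ ρ : (α → ℂ) → κ → ℂ, DifferentiableAt ℂ ρ ((u z₀ a)⁻¹ • u z₀) ∧
      ∀ᶠ z in 𝓝 z₀, ρ ((u z a)⁻¹ • u z) = z := by
  have hu := (differentiable_pi.1 h.hol) a
  have hO : IsOpen {z | u z a ≠ 0} := isOpen_ne_fun hu.continuous continuous_const
  have h1 := ((Pool.Agent.Lib.MP_a47f92_an.Osg.contDiffOn_of_differentiableOn hO 1
    (f := fun z => (u z a)⁻¹ • u z) fun z hz =>
      (((hu z).fun_inv hz).fun_smul (h.hol z)).differentiableWithinAt).contDiffAt
        (hO.mem_nhds ha)).hasStrictFDerivAt (by simp)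
  obtain ⟨L, hL⟩ := LinearMap.exists_leftInverse_of_injective
    (fderiv ℂ (fun z => (u z a)⁻¹ • u z) z₀).toLinearMap (LinearMap.ker_eq_bot'.2 fun v hv => by
      have h2 := ((hu z₀).hasFDerivAt.fun_smul h1.hasFDerivAt).congr_of_eventuallyEq
        (f₁ := u) (by filter_upwards [hO.mem_nhds ha] with z hz using (smul_inv_smul₀ hz _).symm)
      refine h.imm (z₁ := z₀) (l := fderiv ℂ (fun z => u z a) z₀ v * (u z₀ a)⁻¹) ?_
      have hv' : fderiv ℂ (fun z => (u z a)⁻¹ • u z) z₀ v = 0 := hv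
      simp [h2.fderiv, hv', mul_smul])
  have h2 : HasStrictFDerivAt (fun z => L ((u z a)⁻¹ • u z))
      (ContinuousLinearEquiv.refl ℂ (κ → ℂ) : (κ → ℂ) →L[ℂ] κ → ℂ) z₀ := by
    refine (L.toContinuousLinearMap.hasStrictFDerivAt.comp z₀ h1).congr_fderiv ?_
    ext1 v
    exact LinearMap.congr_fun hL v
  exact ⟨fun q => h2.localInverse _ _ _ (L q), h2.to_localInverse.differentiableAt.comp _
    L.toContinuousLinearMap.differentiableAt, h2.eventually_left_inverse⟩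

end M4.Un
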