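import Pool.Agent.Lib.MP_33b3f9_ag.Un.GLio

/-!
Simple roots depend holomorphically on parameters; sums over all roots; bounds for roots.
-/

set_option autoImplicit false

noncomputable section

namespace M4.Un

open Filter Topology Function Polynomial

variable {α : Type} [Fintype α]

/-- The specialisation of a polynomial with polynomial coefficients. -/
abbrev sp (Q : (MvPolynomial α ℂ)[X]) (ξ : α → ℂ) : ℂ[X] := Q.map (MvPolynomial.eval ξ)

theorem sp_analytic (Q : (MvPolynomial α ℂ)[X]) (u : (α → ℂ) × ℂ) :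
    AnalyticAt ℂ (fun v : (α → ℂ) × ℂ => (sp Q v.1).eval v.2) u := by
  simp only [sp, eval_map, eval₂_eq_sum_range]
  exact Finset.analyticAt_fun_sum _ fun i _ =>
    ((AnalyticOnNhd.eval_mvPolynomial (Q.coeff i) _ (Set.mem_univ _)).comp analyticAt_fst).mul
      (analyticAt_snd.pow i)

theorem sp_diff (Q : (MvPolynomial α ℂ)[X]) {τ : (α → ℂ) → ℂ} {ξ : α → ℂ}
    (h : DifferentiableAt ℂ τ ξ) : DifferentiableAt ℂ (fun x => (sp Q x).eval (τ x)) ξ :=
  DifferentiableAt.comp ξ (f := fun x => (x, τ x)) (sp_analytic Q (ξ, τ ξ)).differentiableAt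
    (differentiableAt_id.prodMk h)

theorem exists_branch (Q : (MvPolynomial α ℂ)[X]) {ξ : α → ℂ} {T : ℂ}
    (h0 : (sp Q ξ).eval T = 0) (h1 : (sp Q ξ).derivative.eval T ≠ 0) :
    ∃ τ : (α → ℂ) → ℂ, DifferentiableAt ℂ τ ξ ∧ τ ξ = T ∧
      ∀ᶠ x in 𝓝 ξ, (sp Q x).eval (τ x) = 0 := by
  have hf := (sp_analytic Q (ξ, T)).hasStrictFDerivAt
  have h2 := (hf.hasFDerivAt.comp T (hasFDerivAt_prodMk_right ξ T)).unique
    ((sp Q ξ).hasDerivAt T).hasFDerivAt
  have hi : (fderiv ℂ (fun v : (α → ℂ) × ℂ => (sp Q v.1).eval v.2) (ξ, T) ∘L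
      ContinuousLinearMap.inr ℂ (α → ℂ) ℂ).IsInvertible := by
    rw [h2]
    exact ⟨ContinuousLinearEquiv.unitsEquivAut ℂ (Units.mk0 _ h1), by ext; simp⟩
  exact ⟨_, (hf.hasStrictFDerivAt_implicitFunctionOfProdDomain hi).differentiableAt,
    (hf.eventually_apply_eq_iff_implicitFunctionOfProdDomain hi).self_of_nhds.1 rfl,
    (hf.eventually_apply_implicitFunctionOfProdDomain hi).mono fun x hx => hx.trans h0⟩

theorem sep_ne {p : ℂ[X]} (h : p.Separable) {T : ℂ} (h0 : p.eval T = 0) :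
    p.derivative.eval T ≠ 0 := by
  simpa using h.aeval_derivative_ne_zero (x := T) (by simpa using h0)

theorem sum_roots_diff {Q : (MvPolynomial α ℂ)[X]} (hQ : Q.Monic) {ξ : α → ℂ}
    (hs : (sp Q ξ).Separable) {F : (α → ℂ) → ℂ → ℂ}
    (hF : ∀ τ : (α → ℂ) → ℂ, DifferentiableAt ℂ τ ξ → (∀ᶠ x in 𝓝 ξ, (sp Q x).eval (τ x) = 0) →
      DifferentiableAt ℂ (fun x => F x (τ x)) ξ) :
    DifferentiableAt ℂ (fun x => ∑ T ∈ (sp Q x).roots.toFinset, F x T) ξ := by
  have hm : ∀ x T, T ∈ (sp Q x).roots.toFinset ↔ (sp Q x).eval T = 0 := fun x T => by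
    rw [Multiset.mem_toFinset, mem_roots (hQ.map _).ne_zero, IsRoot.def]
  choose! τ h1 h2 h3 using fun T (hT : T ∈ (sp Q ξ).roots.toFinset) =>
    exists_branch Q ((hm _ _).1 hT) (sep_ne hs ((hm _ _).1 hT))
  refine (DifferentiableAt.fun_sum fun T hT => hF _ (h1 T hT) (h3 T hT)).congr_of_eventuallyEq ?_
  have h4 : ∀ᶠ x in 𝓝 ξ, ∀ T ∈ (sp Q ξ).roots.toFinset, ∀ T' ∈ (sp Q ξ).roots.toFinset,
      τ T x = τ T' x → T = T' := by
    simp only [Finset.eventually_all]
    intro T hT T' hT'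
    by_cases h : T = T'
    · exact .of_forall fun _ _ => h
    exact (((h1 T hT).continuousAt.sub (h1 T' hT').continuousAt).eventually_ne
      (y := 0) (by simpa [h2 T hT, h2 T' hT', sub_eq_zero] using h)).mono fun x hx e =>
        absurd (sub_eq_zero.2 e) hx
  filter_upwards [h4, (Finset.eventually_all _).2 h3] with x h4 h5
  rw [← Finset.sum_image (g := fun T => τ T x) h4]
  refine Finset.sum_congr (Finset.eq_of_subset_of_card_le ?_ ?_).symm fun _ _ => rfl
  · intro y hy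
    obtain ⟨T, hT, rfl⟩ := Finset.mem_image.1 hy
    exact (hm _ _).2 (h5 T hT)
  · rw [Finset.card_image_of_injOn h4, Multiset.toFinset_card_of_nodup (nodup_roots hs),
      ← (IsAlgClosed.splits _).natDegree_eq_card_roots, hQ.natDegree_map]
    exact (Multiset.toFinset_card_le _).trans ((card_roots' _).trans (hQ.natDegree_map _).le)

/-- The roots of a monic polynomial have polynomial growth. -/
theorem root_growth {Q : (MvPolynomial α ℂ)[X]} (hQ : Q.Monic) :
    ∃ b : (α → ℂ) → ℝ, (∀ S, Gw S b) ∧ (∀ ξ, 0 ≤ b ξ) ∧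
      ∀ ξ T, (sp Q ξ).eval T = 0 → ‖T‖ ≤ b ξ := by
  refine ⟨fun ξ => 1 + ∑ i ∈ Finset.range Q.natDegree, ‖MvPolynomial.eval ξ (Q.coeff i)‖,
    fun S => (Gw.const 1).add (Gw.sum _ fun i _ => Gw.eval _ _), fun ξ => by positivity,
    fun ξ T h => ?_⟩
  by_contra hT
  have h0 : 0 ≤ ∑ i ∈ Finset.range Q.natDegree, ‖MvPolynomial.eval ξ (Q.coeff i)‖ := by positivity
  have h1 : 1 < ‖T‖ := by linarith
  rw [sp, eval_map, eval₂_eq_sum_range, Finset.sum_range_succ, hQ.coeff_natDegree, map_one,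
    one_mul, add_eq_zero_iff_eq_neg] at h
  have h2 : ‖T‖ ^ Q.natDegree * ‖T‖ ≤
      (∑ i ∈ Finset.range Q.natDegree, ‖MvPolynomial.eval ξ (Q.coeff i)‖) * ‖T‖ ^ Q.natDegree := by
    refine (mul_le_mul_of_nonneg_right (((norm_pow _ _).symm.trans ((norm_neg _).symm.trans
      (congrArg norm h.symm))).trans_le (norm_sum_le _ _)) (norm_nonneg T)).trans ?_
    rw [Finset.sum_mul, Finset.sum_mul]
    refine Finset.sum_le_sum fun i hi => ?_
    rw [norm_mul, mul_assoc, norm_pow, ← pow_succ]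
    exact mul_le_mul_of_nonneg_left (pow_le_pow_right₀ h1.le (Finset.mem_range.1 hi))
      (norm_nonneg _)
  have h3 : 0 < ‖T‖ ^ Q.natDegree := by positivity
  nlinarith

end M4.Un
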