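import Pool.Agent.Lib.MP_33b3f9_ag.M4.P.GA
import Pool.Agent.Lib.MP_33b3f9_ag.M4.ThBasis

/-!
Descent of the theta coordinates: analytic and group theoretic lemmas.
-/

set_option autoImplicit false

noncomputable section

namespace M4.Un

open Complex Matrix MvPolynomial

variable {ι α : Type} [Fintype ι] {τ : Matrix ι ι ℂ}

theorem s_hom {g : MvPolynomial α ℂ} {e : ℕ} (hg : g.IsHomogeneous e) (c : ℂ) (x : α → ℂ) :
    eval (fun a => c * x a) g = c ^ e * eval x g := by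
  rw [eval_eq, eval_eq, Finset.mul_sum]
  refine Finset.sum_congr rfl fun d hd => ?_
  simp only [mul_pow, Finset.prod_mul_distrib, Finset.prod_pow_eq_pow_sum,
    ← hg.degree_eq_sum_deg_support hd]
  ring

theorem s_map (σ : ℂ →+* ℂ) (x : α → ℂ) (P : MvPolynomial α ℂ) :
    σ (eval x P) = eval (fun a => σ (x a)) (map σ P) := by
  induction P using MvPolynomial.induction_on with
  | C a => simp
  | add p q hp hq => simp [hp, hq]
  | mul_X p e hp => simp [hp]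

theorem s_diff {V : Type} [NormedAddCommGroup V] [NormedSpace ℂ V] {F : α → V → ℂ}
    (hF : ∀ a, Differentiable ℂ (F a)) (P : MvPolynomial α ℂ) :
    Differentiable ℂ fun z => eval (fun a => F a z) P := by
  induction P using MvPolynomial.induction_on with
  | C a => simp
  | add p q hp hq => simp only [map_add]; exact hp.add hq
  | mul_X p e hp => simp only [map_mul, eval_X]; exact hp.mul (hF e)

theorem hol_eval {μ : ℝ} {v : α → (ι ⊕ ι → ℝ) → ℂ} (hv : ∀ a, v a ∈ Hol τ μ)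
    {P : MvPolynomial α ℂ} {e : ℕ} (hP : P.IsHomogeneous e) :
    (fun w => eval (fun a => v a w) P) ∈ Hol τ (e * μ) := by
  choose F hF eF using hv
  refine ⟨fun z => eval (fun a => F a z) P, s_diff hF P, fun x => ?_⟩
  simp only [eF]
  rw [s_hom hP, ← ee_nat_mul]
  congr 2
  push_cast
  ring

/-- A function that is locally a quotient. -/
theorem hol_loc (hτ : InH τ) {n : ℝ} {μ : (ι ⊕ ι → ℝ) → ℂ}
    (h : ∀ x, ∃ m : ℝ, ∃ f ∈ Hol τ (n + m), ∃ g ∈ Hol τ m, g x ≠ 0 ∧ ∀ y, f y = μ y * g y) :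
    μ ∈ Hol τ n := by
  obtain ⟨σ, hσ, hσ'⟩ := Function.bijective_iff_has_inverse.1 (per_bijective hτ)
  refine ⟨fun z => ee (-(n * (fa (σ z) ⬝ᵥ z) / 2)) * μ (σ z), fun z => ?_, fun x => ?_⟩
  · obtain ⟨m, f, ⟨F, hF, eF⟩, g, ⟨G, hG, eG⟩, hg, e⟩ := h (σ z)
    rw [eG, hσ' z] at hg
    have hi := right_ne_zero_of_mul hg
    refine ((hF z).mul ((hG z).inv hi)).congr_of_eventuallyEq ?_
    filter_upwards [hG.continuous.continuousAt.eventually_ne hi] with w hw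
    have h1 := e (σ w)
    rw [eF, eG, hσ' w] at h1
    rw [Pi.mul_apply, Pi.inv_apply, eq_mul_inv_iff_mul_eq₀ hw]
    refine mul_left_cancel₀ (ee_ne_zero (((n + m : ℝ) : ℂ) * (fa (σ w) ⬝ᵥ w) / 2)) ?_
    have h2 : ee (((n + m : ℝ) : ℂ) * (fa (σ w) ⬝ᵥ w) / 2) * ee (-(n * (fa (σ w) ⬝ᵥ w) / 2)) =
        ee (m * (fa (σ w) ⬝ᵥ w) / 2) := by
      rw [← ee_add]
      congr 1
      push_cast
      ring
    rw [h1, ← h2]
    ring
  · beta_reduce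
    rw [hσ x, ← mul_assoc, ← ee_add, add_neg_cancel, ee_zero, one_mul]

theorem const_of_lat (hτ : InH τ) {D : ℕ} (hD : D ≠ 0) {f : (ι ⊕ ι → ℝ) → ℂ} (hf : f ∈ Hol τ 0)
    (hp : ∀ x n, f (x + rz ((D : ℤ) • n)) = f x) (x : ι ⊕ ι → ℝ) : f x = f 0 := by
  have h1 := Hol.scale hf D
  rw [zero_mul] at h1
  have h2 := Hol.const_of_periodic hτ h1 (fun x n => by
    rw [smul_add, ← hp ((D : ℝ) • x) n, rz_smul, Int.cast_natCast]) ((D : ℝ)⁻¹ • x)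
  rwa [smul_inv_smul₀ (Nat.cast_ne_zero.2 hD), smul_zero] at h2

theorem XX_neg (τ : Matrix ι ι ℂ) (k : ι ⊕ ι → ℤ) (x : ι ⊕ ι → ℝ) :
    XX τ k (-x) = XX τ (-k) x := by
  rw [XX, XX, U_apply, U_apply, hf_neg, smul_neg, E_neg_left, E_neg_right, ← Th_neg]
  congr 2
  abel

theorem U_XX (τ : Matrix ι ι ℂ) (k : ι ⊕ ι → ℤ) :
    U 4 ((4 : ℝ)⁻¹ • rz k) (XX τ 0) = XX τ k := by
  have h := U_scale 2 1 ((4 : ℝ)⁻¹ • rz k) (Th τ)
  have e : XX τ 0 = fun x => Th τ ((2 : ℝ) • x) := by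
    funext x
    rw [XX, hf, rz_zero, smul_zero, U_zero]
  rw [show (1 : ℝ) * 2 ^ 2 = 4 by norm_num] at h
  rw [e, h, smul_smul]
  funext x
  rw [XX, hf]
  norm_num

/-- The joint eigenspace of the half periods is a line. -/
theorem eq_XX (hτ : InH τ) {g : (ι ⊕ ι → ℝ) → ℂ} (hg : g ∈ Hol τ 4)
    (h : ∀ l, U 4 (hf l) g = chi l • g) : ∃ a : ℂ, g = a • XX τ 0 := by
  have e4 : (4 : ℝ) * (1 / 2) ^ 2 = 1 := by norm_num
  obtain ⟨a, ha⟩ := Gam_one hτ (c := 0) (f := fun x => g ((1 / 2 : ℝ) • x))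
    ⟨by simpa only [e4, Nat.cast_one] using Hol.scale hg (1 / 2), fun n => by
      have h1 := U_scale (1 / 2) 4 (rz n) g
      rw [e4] at h1
      rw [Nat.cast_one, h1, ← hf, h]
      funext x
      simp⟩
  refine ⟨a, funext fun x => ?_⟩
  have h1 := congrFun ha ((2 : ℝ) • x)
  rw [smul_smul, show (1 / 2 * 2 : ℝ) = 1 by norm_num, one_smul, U_zero] at h1
  rw [h1, Pi.smul_apply, Pi.smul_apply, XX, hf, rz_zero, smul_zero, U_zero]

theorem fin_of_map {Γ X : Type} [Group Γ] [Finite X] (A S : Subgroup Γ) [A.FiniteIndex]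
    (φ : Γ → X) (h : ∀ σ ∈ A, ∀ σ' ∈ A, φ σ = φ σ' → σ⁻¹ * σ' ∈ S) : S.FiniteIndex := by
  have h1 : ∀ g : Γ, ((g : Γ ⧸ A).out)⁻¹ * g ∈ A := fun g =>
    QuotientGroup.eq.1 (QuotientGroup.out_eq' _)
  have : Finite (Γ ⧸ S) := Finite.of_injective
    (fun q : Γ ⧸ S => ((q.out : Γ ⧸ A), φ (((q.out : Γ ⧸ A).out)⁻¹ * q.out))) fun q q' e => by
      obtain ⟨e1, e2⟩ := Prod.ext_iff.1 e
      have h2 := h _ (h1 _) _ (h1 _) e2
      dsimp only at e1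
      rw [← e1, _root_.mul_inv_rev, inv_inv, mul_assoc, mul_inv_cancel_left] at h2
      rw [← QuotientGroup.out_eq' q, ← QuotientGroup.out_eq' q']
      exact QuotientGroup.eq.2 h2
  exact Subgroup.finiteIndex_of_finite_quotient

variable {F : Type} [Field F] [Algebra F ℂ] {v : α → (ι ⊕ ι → ℝ) → ℂ} {σ ρ : ℂ ≃ₐ[F] ℂ}
  {w w' w'' : ι ⊕ ι → ℝ} {c c' : ℂ}

/-- `σ` maps the vector `v w` to `c` times the vector `v w'`. -/
def Rc (v : α → (ι ⊕ ι → ℝ) → ℂ) (σ : ℂ ≃ₐ[F] ℂ) (w w' : ι ⊕ ι → ℝ) (c : ℂ) : Prop :=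
  ∀ a, σ (v a w) = c * v a w'

/-- `σ` maps the point `v w` to the point `v w'`. -/
def Rv (v : α → (ι ⊕ ι → ℝ) → ℂ) (σ : ℂ ≃ₐ[F] ℂ) (w w' : ι ⊕ ι → ℝ) : Prop := ∃ c, Rc v σ w w' c

omit [Fintype ι]

theorem Rc.ne (nz : ∀ w, ∃ a, v a w ≠ 0) (h : Rc v σ w w' c) : c ≠ 0 := by
  rintro rfl
  obtain ⟨a, ha⟩ := nz w
  exact ha ((map_eq_zero σ).1 ((h a).trans (zero_mul _)))

theorem Rc.inv (nz : ∀ w, ∃ a, v a w ≠ 0) (h : Rc v σ w w' c) : Rc v σ⁻¹ w' w (σ⁻¹ c)⁻¹ :=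
  fun a => by
    have h1 := congrArg (σ⁻¹ : ℂ ≃ₐ[F] ℂ) (h a)
    rw [← AlgEquiv.mul_apply, inv_mul_cancel, AlgEquiv.one_apply, map_mul] at h1
    rw [h1, inv_mul_cancel_left₀ ((map_ne_zero _).2 (h.ne nz))]

theorem Rc.mul (h : Rc v ρ w w' c) (h' : Rc v σ w' w'' c') : Rc v (σ * ρ) w w'' (σ c * c') :=
  fun a => by rw [AlgEquiv.mul_apply, h a, map_mul, h' a, mul_assoc]

theorem Rc.uniq (nz : ∀ w, ∃ a, v a w ≠ 0) (h : Rc v σ w w' c) (h' : Rc v σ w w' c') :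
    c = c' := by
  obtain ⟨a, ha⟩ := nz w'
  exact mul_right_cancel₀ ha ((h a).symm.trans (h' a))

theorem Rv.inv (nz : ∀ w, ∃ a, v a w ≠ 0) (h : Rv v σ w w') : Rv v σ⁻¹ w' w :=
  ⟨_, h.choose_spec.inv nz⟩

theorem Rv.mul (h : Rv v ρ w w') (h' : Rv v σ w' w'') : Rv v (σ * ρ) w w'' :=
  ⟨_, h.choose_spec.mul h'.choose_spec⟩

theorem Rv.one (w : ι ⊕ ι → ℝ) : Rv v (1 : ℂ ≃ₐ[F] ℂ) w w := ⟨1, fun _ => (one_mul _).symm⟩

end M4.Un
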