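import Pool.Agent.Lib.MP_33b3f9_ag.Un.SAn

/-!
Descent of the theta coordinates: conjugation of sections.
-/

set_option autoImplicit false

noncomputable section

namespace M4.Un

open Complex Matrix MvPolynomial

variable {ι α : Type} [Fintype ι]

/-- `f` is a section of the `k`-th power of the bundle defined by `v`. -/
def Ty (v : α → (ι ⊕ ι → ℝ) → ℂ) (k : ℕ) (f : (ι ⊕ ι → ℝ) → ℂ) : Prop :=
  ∀ w w' c, (∀ a, v a w = c * v a w') → f w = c ^ k * f w'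

/-- The data of the descent. -/
structure Dat (F : Type) [Field F] [Algebra F ℂ] (τ : Matrix ι ι ℂ)
    (Λ : AddSubgroup (ι ⊕ ι → ℤ)) (D k : ℕ) (μ : ℝ) (y : ι ⊕ ι → ℝ)
    (v : α → (ι ⊕ ι → ℝ) → ℂ) : Prop where
  inH : InH τ
  D0 : D ≠ 0
  mem : ∀ m : ι ⊕ ι → ℤ, (D : ℤ) • m ∈ Λ
  lev : k * μ = 4
  hol : ∀ a, v a ∈ Hol τ μ
  nz : ∀ w, ∃ a, v a w ≠ 0
  law : ∀ n ∈ Λ, ∃ χ : ℂ, χ ^ k = ee (4 * E y (rz n)) ∧ ∀ a, U μ (rz n) (v a) = χ • v a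
  ex : ∀ (σ : ℂ ≃ₐ[F] ℂ) w, ∃ w', Rv v σ w w'
  sub : ∀ (σ : ℂ ≃ₐ[F] ℂ) a a' b b', Rv v σ a a' → Rv v σ b b' → Rv v σ (a - b) (a' - b')
  un : ∀ (σ : ℂ ≃ₐ[F] ℂ) w a b, Rv v σ w a → Rv v σ w b → ∃ n ∈ Λ, a - b = rz n
  rat : ∀ f ∈ Hol τ 4, Ty v k f → ∀ w₀, ∃ (e : ℕ) (P Q : MvPolynomial α ℂ),
    P.IsHomogeneous (e + k) ∧ Q.IsHomogeneous e ∧ eval (fun a => v a w₀) Q ≠ 0 ∧
      ∀ w, f w * eval (fun a => v a w) Q = eval (fun a => v a w) P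

variable {F : Type} [Field F] [Algebra F ℂ]

/-- `g` is the conjugate of `f`. -/
def Cj (v : α → (ι ⊕ ι → ℝ) → ℂ) (k : ℕ) (σ : ℂ ≃ₐ[F] ℂ) (f g : (ι ⊕ ι → ℝ) → ℂ) : Prop :=
  ∀ w w' c, Rc v σ w w' c → σ (f w) = c ^ k * g w'

/-- The normalised translation operator. -/
def Tr (y a : ι ⊕ ι → ℝ) (f : (ι ⊕ ι → ℝ) → ℂ) : (ι ⊕ ι → ℝ) → ℂ := ee (4 * E a y) • U 4 a f

theorem Tr_smul (y a : ι ⊕ ι → ℝ) (c : ℂ) (f : (ι ⊕ ι → ℝ) → ℂ) :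
    Tr y a (c • f) = c • Tr y a f := by rw [Tr, Tr, U_smul, smul_comm]

theorem Tr_Tr (y a b : ι ⊕ ι → ℝ) (f : (ι ⊕ ι → ℝ) → ℂ) :
    Tr y a (Tr y b f) = ee (2 * E b a) • Tr y (a + b) f := by
  simp only [Tr, U_smul, U_U, smul_smul, ← ee_add, E_add_left]
  congr 2
  push_cast
  ring

theorem Tr_U (y a : ι ⊕ ι → ℝ) (f : (ι ⊕ ι → ℝ) → ℂ) : Tr y a (U 4 y f) = U 4 y (U 4 a f) := by
  rw [Tr, U_comm 4 y a]
  norm_num

theorem Tr_apply (y a : ι ⊕ ι → ℝ) (f : (ι ⊕ ι → ℝ) → ℂ) (w : ι ⊕ ι → ℝ) :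
    Tr y a f w = ee (4 * E a y + 2 * E a w) * f (w + a) := by
  rw [Tr, Pi.smul_apply, smul_eq_mul, U_apply, ← mul_assoc, ← ee_add]
  congr 2
  push_cast
  ring

variable {τ : Matrix ι ι ℂ} {Λ : AddSubgroup (ι ⊕ ι → ℤ)} {D k : ℕ} {μ : ℝ} {y : ι ⊕ ι → ℝ}
  {v : α → (ι ⊕ ι → ℝ) → ℂ} {σ ρ : ℂ ≃ₐ[F] ℂ} {f g g' : (ι ⊕ ι → ℝ) → ℂ}

omit [Fintype ι] in
theorem Cj.smul (h : Cj v k σ f g) (c : ℂ) : Cj v k σ (c • f) (σ c • g) := fun w w' d hd => by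
  rw [Pi.smul_apply, Pi.smul_apply, smul_eq_mul, smul_eq_mul, map_mul, h w w' d hd, mul_left_comm]

omit [Fintype ι] in
theorem cj_pow (a : α) : Cj v k σ (v a ^ k) (v a ^ k) := fun w w' c h => by
  rw [Pi.pow_apply, Pi.pow_apply, map_pow, h a, mul_pow]

namespace Dat

variable (h : Dat F τ Λ D k μ y v)
include h

theorem ex' (σ : ℂ ≃ₐ[F] ℂ) (w' : ι ⊕ ι → ℝ) : ∃ w c, Rc v σ w w' c := by
  obtain ⟨w, hw⟩ := h.ex σ⁻¹ w'
  exact ⟨w, hw.inv h.nz⟩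

theorem cj_inv (hc : Cj v k σ f g) : Cj v k σ⁻¹ g f := fun w w' c hw => by
  have h1 := congrArg (σ⁻¹ : ℂ ≃ₐ[F] ℂ) (hc _ _ _ (hw.inv h.nz))
  rw [← AlgEquiv.mul_apply, inv_mul_cancel, AlgEquiv.one_apply, map_mul, map_pow, map_inv₀,
    ← AlgEquiv.mul_apply, mul_inv_cancel, AlgEquiv.one_apply] at h1
  rw [h1, inv_pow, mul_inv_cancel_left₀ (pow_ne_zero _ (hw.ne h.nz))]

theorem cj_mul (h1 : Cj v k ρ f g) (h2 : Cj v k σ g g') : Cj v k (σ * ρ) f g' :=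
  fun w w' c hw => by
    obtain ⟨z, d, hd⟩ := h.ex ρ w
    have h3 := (hd.inv h.nz).mul hw
    rw [mul_inv_cancel_right] at h3
    generalize (σ * ρ) (ρ⁻¹ d)⁻¹ * c = d' at h3
    rw [AlgEquiv.mul_apply, h1 _ _ _ hd, map_mul, h2 _ _ _ h3, hw.uniq h.nz (hd.mul h3), map_pow,
      mul_pow, mul_assoc]

theorem cj_uniq (h1 : Cj v k σ f g) (h2 : Cj v k σ f g') : g = g' := funext fun w' => by
  obtain ⟨w, c, hc⟩ := h.ex' σ w'
  exact mul_left_cancel₀ (pow_ne_zero k (hc.ne h.nz)) ((h1 _ _ _ hc).symm.trans (h2 _ _ _ hc))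

theorem shift {n : ι ⊕ ι → ℤ} (hn : n ∈ Λ) (w : ι ⊕ ι → ℝ) : ∃ c : ℂ,
    (∀ a, v a (w + rz n) = c * v a w) ∧ ee (2 * E (rz n) w) * c ^ k = ee (4 * E y (rz n)) := by
  obtain ⟨χ, h1, h2⟩ := h.law n hn
  refine ⟨ee (-(μ * E (rz n) w / 2)) * χ, fun a => ?_, ?_⟩
  · have h3 := congrFun (h2 a) w
    rw [U_apply, Pi.smul_apply, smul_eq_mul] at h3
    rw [mul_assoc, ← h3, ← mul_assoc, ← ee_add, neg_add_cancel, ee_zero, one_mul]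
  · have h3 : (k : ℂ) * μ = 4 := by exact_mod_cast h.lev
    rw [mul_pow, h1, ← ee_nat_mul, ← mul_assoc, ← ee_add, show 2 * (E (rz n) w : ℂ) +
      k * -(μ * E (rz n) w / 2) = 0 by linear_combination -(E (rz n) w : ℂ) / 2 * h3, ee_zero,
      one_mul]

theorem ty_iff : Ty v k f ↔ ∀ n ∈ Λ, U 4 (rz n) f = ee (4 * E y (rz n)) • f := by
  have e : ∀ a w : ι ⊕ ι → ℝ, ((4 : ℝ) : ℂ) * E a w / 2 = 2 * E a w := fun a w => by
    push_cast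
    ring
  refine ⟨fun hf n hn => funext fun w => ?_, fun hf w w' c hc => ?_⟩
  · obtain ⟨c, h1, h2⟩ := h.shift hn w
    rw [U_apply, hf _ _ c h1, e, ← mul_assoc, h2, Pi.smul_apply, smul_eq_mul]
  · obtain ⟨n, hn, e1⟩ := h.un 1 w w w' (Rv.one w) ⟨c, hc⟩
    obtain rfl : w = w' + rz n := by rw [← e1, add_sub_cancel]
    obtain ⟨d, h1, h2⟩ := h.shift hn w'
    obtain ⟨a, ha⟩ := h.nz w'
    obtain rfl : c = d := mul_right_cancel₀ ha ((hc a).symm.trans (h1 a))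
    have h3 := congrFun (hf n hn) w'
    rw [U_apply, e, Pi.smul_apply, smul_eq_mul, ← h2, mul_assoc] at h3
    exact mul_left_cancel₀ (ee_ne_zero _) h3

theorem zero (σ : ℂ ≃ₐ[F] ℂ) : Rv v σ 0 0 := by
  obtain ⟨w, hw⟩ := h.ex σ 0
  simpa using h.sub σ _ _ _ _ hw hw

theorem add {a a' b b' : ι ⊕ ι → ℝ} (h1 : Rv v σ a a') (h2 : Rv v σ b b') :
    Rv v σ (a + b) (a' + b') := by
  simpa using h.sub σ _ _ _ _ h1 (h.sub σ _ _ _ _ (h.zero σ) h2)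

theorem nsmul {a a' : ι ⊕ ι → ℝ} (h1 : Rv v σ a a') (n : ℕ) :
    Rv v σ ((n : ℝ) • a) ((n : ℝ) • a') := by
  induction n with
  | zero => simpa using h.zero σ
  | succ n ih => simpa [add_smul] using h.add ih h1

theorem sh {a a' : ι ⊕ ι → ℝ} (h1 : Rv v σ a a') {n n' : ι ⊕ ι → ℤ} (hn : n ∈ Λ) (hn' : n' ∈ Λ) :
    Rv v σ (a + rz n) (a' + rz n') := by
  obtain ⟨c, hc, -⟩ := h.shift hn a
  obtain ⟨d, hd, -⟩ := h.shift hn' a'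
  have h2 : Rv v (1 : ℂ ≃ₐ[F] ℂ) (a + rz n) a := ⟨c, hc⟩
  have h3 : Rv v (1 : ℂ ≃ₐ[F] ℂ) (a' + rz n') a' := ⟨d, hd⟩
  simpa using (h2.mul h1).mul (h3.inv h.nz)

theorem hol_pow (a : α) : v a ^ k ∈ Hol τ 4 := by
  have h1 := hol_eval h.hol (isHomogeneous_X_pow (R := ℂ) a k)
  rw [h.lev] at h1
  simp only [map_pow, eval_X] at h1
  exact h1

omit h [Fintype ι] in
theorem ty_pow (a : α) : Ty v k (v a ^ k) := fun w w' c hc => by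
  rw [Pi.pow_apply, Pi.pow_apply, hc a, mul_pow]

/-- The conjugate of a section is a section. -/
theorem cj_ex (σ : ℂ ≃ₐ[F] ℂ) (hf : f ∈ Hol τ 4) (ht : Ty v k f) :
    ∃ g ∈ Hol τ 4, Ty v k g ∧ Cj v k σ f g := by
  choose s c hc using h.ex' σ
  have hj : Cj v k σ f fun w' => σ (f (s w')) / c w' ^ k := fun w w' d hd => by
    have h0 := (hc w').ne h.nz
    have h1 := hd.mul ((hc w').inv h.nz)
    rw [inv_mul_cancel] at h1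
    rw [ht _ _ _ h1, map_mul, map_pow, map_mul, map_inv₀, ← AlgEquiv.mul_apply,
      ← AlgEquiv.mul_apply, mul_inv_cancel, AlgEquiv.one_apply, AlgEquiv.one_apply, mul_pow,
      inv_pow]
    ring
  refine ⟨_, hol_loc h.inH fun x => ?_, fun w w' d hd => ?_, hj⟩
  · obtain ⟨e, P, Q, hP, hQ, h0, h1⟩ := h.rat f hf ht (s x)
    have key : ∀ {R : MvPolynomial α ℂ} {j : ℕ}, R.IsHomogeneous j → ∀ w',
        σ (eval (fun a => v a (s w')) R) =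
          c w' ^ j * eval (fun a => v a w') (map (σ : ℂ →+* ℂ) R) := fun hR w' => by
      rw [← s_hom (hR.map _)]
      exact (s_map (σ : ℂ →+* ℂ) _ _).trans (by simp only [← hc w' _, RingHom.coe_coe])
    have h2 := hol_eval h.hol (hP.map (σ : ℂ →+* ℂ))
    rw [Nat.cast_add, add_mul, h.lev, add_comm] at h2
    refine ⟨e * μ, _, h2, _, hol_eval h.hol (hQ.map (σ : ℂ →+* ℂ)), fun e0 => h0 ?_, fun w => ?_⟩
    · rw [← map_eq_zero σ, key hQ, e0, mul_zero]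
    · have h3 := congrArg σ (h1 (s w))
      have h4 := (hc w).ne h.nz
      rw [map_mul, key hQ, key hP] at h3
      field_simp
      apply mul_left_cancel₀ (pow_ne_zero e h4)
      linear_combination -h3
  · have h1 : Rc v σ (s w) w' (c w * d) := fun a => by rw [hc w a, hd a, mul_assoc]
    have h2 := hj _ _ _ h1
    have h4 := (hc w).ne h.nz
    beta_reduce at h2 ⊢
    rw [h2, mul_pow, mul_assoc, mul_div_cancel_left₀ _ (pow_ne_zero k h4)]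

end Dat

end M4.Un
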