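import Pool.Agent.Lib.MP_33b3f9_ag.Un.SHe

/-!
Descent of the theta coordinates: the subgroup of finite index.
-/

set_option autoImplicit false

noncomputable section

namespace M4.Un

open Complex Matrix MvPolynomial

variable {ι α : Type} [Fintype ι] {F : Type} [Field F] [Algebra F ℂ]
  {τ : Matrix ι ι ℂ} {Λ : AddSubgroup (ι ⊕ ι → ℤ)} {D k : ℕ} {μ : ℝ} {y : ι ⊕ ι → ℝ}
  {v : α → (ι ⊕ ι → ℝ) → ℂ}

namespace Dat

variable (h : Dat F τ Λ D k μ y v)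

/-- The stabiliser of a point. -/
def Stab (a : ι ⊕ ι → ℝ) : Subgroup (ℂ ≃ₐ[F] ℂ) where
  carrier := {σ | Rv v σ a a}
  one_mem' := Rv.one a
  mul_mem' := fun h1 h2 => Rv.mul h2 h1
  inv_mem' := fun h1 => Rv.inv h.nz h1

theorem stab_fin (A : Subgroup (ℂ ≃ₐ[F] ℂ)) [A.FiniteIndex] (a : ι ⊕ ι → ℝ) {N : ℕ} (hN : N ≠ 0)
    (hA : ∀ σ ∈ A, ∃ n, Rv v σ a (a + (N : ℝ)⁻¹ • rz n)) : (h.Stab a).FiniteIndex := by
  choose! n hn using hA
  have : NeZero (N * D) := ⟨mul_ne_zero hN h.D0⟩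
  refine fin_of_map A _ (fun σ i => (n σ i : ZMod (N * D))) fun σ hσ ρ hρ e => ?_
  choose q hq using fun i => (ZMod.intCast_eq_intCast_iff_dvd_sub _ _ _).1 (congrFun e i)
  have h1 := h.sh (hn σ hσ) Λ.zero_mem (h.mem q)
  have e1 : a + (N : ℝ)⁻¹ • rz (n σ) + rz ((D : ℤ) • q) = a + (N : ℝ)⁻¹ • rz (n ρ) := by
    funext i
    have h2 : (n ρ i : ℝ) = n σ i + N * D * q i := by exact_mod_cast eq_add_of_sub_eq' (hq i)
    have h3 : (N : ℝ) ≠ 0 := Nat.cast_ne_zero.2 hN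
    simp only [Pi.add_apply, Pi.smul_apply, rz, smul_eq_mul, h2]
    push_cast
    field_simp
    ring
  rw [rz_zero, add_zero, e1] at h1
  exact (hn ρ hρ).mul (h1.inv h.nz)

theorem stab_qt (m : ι ⊕ ι → ℤ) : (h.Stab (qt m)).FiniteIndex := by
  have hD : 4 * D ≠ 0 := mul_ne_zero four_ne_zero h.D0
  refine h.stab_fin ⊤ _ hD fun σ _ => ?_
  obtain ⟨a, ha⟩ := h.ex σ (qt m)
  have h0 : (D : ℝ) ≠ 0 := Nat.cast_ne_zero.2 h.D0
  have h1 := h.nsmul ha (4 * D)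
  have e : ((4 * D : ℕ) : ℝ) • qt m = 0 + rz ((D : ℤ) • m) := by
    funext i
    simp [qt, rz]
    ring
  rw [e] at h1
  obtain ⟨n, -, hn⟩ := h.un σ _ _ _ h1 (h.sh (h.zero σ) (h.mem m) Λ.zero_mem)
  refine ⟨n - (D : ℤ) • m, ?_⟩
  convert ha
  funext i
  have h2 := congrFun hn i
  simp only [qt, rz, Pi.add_apply, Pi.sub_apply, Pi.smul_apply, Pi.zero_apply, smul_eq_mul] at h2 ⊢
  push_cast at h2 ⊢
  field_simp
  linear_combination -h2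

include h in
theorem qt_dec (m : ι ⊕ ι → ℤ) : ∃ (r : ι ⊕ ι → Fin (4 * D)) (q : ι ⊕ ι → ℤ),
    qt m = qt (fz r) + rz ((D : ℤ) • q) := by
  have hD : (0 : ℤ) < (4 * D : ℕ) := by
    have := h.D0
    positivity
  refine ⟨fun i => ⟨(m i % (4 * D : ℕ)).toNat, ?_⟩, fun i => m i / (4 * D : ℕ), ?_⟩
  · exact (Int.toNat_lt (Int.emod_nonneg _ hD.ne')).2 (Int.emod_lt_of_pos _ hD)
  · rw [← qt_add]
    congr 1
    funext i
    simp only [fz, Pi.add_apply, Pi.smul_apply, smul_eq_mul]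
    rw [Int.toNat_of_nonneg (Int.emod_nonneg _ hD.ne'), ← mul_assoc]
    exact (Int.emod_add_mul_ediv (m i) (4 * D : ℕ)).symm.trans (by push_cast; rfl)

include h in
theorem nzX (w : ι ⊕ ι → ℝ) : ∃ j, XX τ j w ≠ 0 := (XX_bpf h.inH w).elim fun _ he => ⟨_, he⟩

/-- The automorphisms that are compatible with the shifted theta coordinates. -/
def Good : Subgroup (ℂ ≃ₐ[F] ℂ) where
  carrier := {σ | ∀ w w', Rv v σ w w' → Rv (XX τ) σ (w + y) (w' + y)}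
  one_mem' := fun w w' hw => by
    obtain ⟨n, -, hn⟩ := h.un 1 w w' w hw (Rv.one w)
    have h1 := Gal.Rl.shift h.inH (σ := RingHom.id ℂ) (x := w + y) (y := w + y)
      ⟨1, fun _ => (one_mul _).symm⟩ 0 n
    rw [rz_zero, add_zero, ← hn, show w + y + (w' - w) = w' + y by abel] at h1
    exact h1
  mul_mem' := fun {σ ρ} h1 h2 w w' hw => by
    obtain ⟨z, hz⟩ := h.ex ρ w
    have h3 := (hz.inv h.nz).mul hw
    rw [mul_inv_cancel_right] at h3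
    exact (h2 w z hz).mul (h1 z w' h3)
  inv_mem' := fun {σ} h1 w w' hw => (h1 w' w (hw.inv h.nz)).inv h.nzX

theorem good_fin : h.Good.FiniteIndex := by
  have hD : 0 < 4 * D := Nat.pos_of_ne_zero (mul_ne_zero four_ne_zero h.D0)
  let A : Subgroup (ℂ ≃ₐ[F] ℂ) := ⨅ r : ι ⊕ ι → Fin (4 * D), h.Stab (qt (fz r))
  have : A.FiniteIndex := Subgroup.finiteIndex_iInf fun r => h.stab_qt _
  have : Finite {z : ℂ | z ^ (4 * D) = 1} :=
    ((Polynomial.nthRoots (4 * D) (1 : ℂ)).finite_toSet.subset fun z hz =>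
      (Polynomial.mem_nthRoots hD).2 hz).to_subtype
  have key : ∀ (σ : ℂ ≃ₐ[F] ℂ) (r : ι ⊕ ι → Fin (4 * D)), ∃ κ : {z : ℂ | z ^ (4 * D) = 1},
      σ ∈ A → Km τ v k y σ (qt (fz r)) κ := fun σ r => by
    by_cases hσ : σ ∈ A
    · obtain ⟨κ, hκ⟩ := h.km_ex (Subgroup.mem_iInf.1 hσ r)
      exact ⟨⟨κ, h.km_pow hκ⟩, fun _ => hκ⟩
    · exact ⟨⟨1, one_pow _⟩, fun e => absurd e hσ⟩
  choose κ hκ using key
  refine fin_of_map A _ κ fun σ hσ ρ hρ e w w' hw => h.km_theta (fun m => ?_) hw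
  obtain ⟨r, q, e1⟩ := h.qt_dec m
  rw [e1]
  exact h.km_lat (h.mem q) (h.km_div (hκ σ r hσ) (e ▸ hκ ρ r hρ))

include h in
theorem core : ∃ U₁ : Subgroup (ℂ ≃ₐ[F] ℂ), U₁.FiniteIndex ∧
    ∀ σ ∈ U₁, ∀ w w', Rv v σ w w' → Rv (XX τ) σ w w' := by
  have := h.good_fin
  have : (h.Stab y).FiniteIndex := h.stab_fin h.Good y two_ne_zero fun σ hσ => by
    obtain ⟨z, hz⟩ := h.ex σ y
    obtain ⟨c, hc⟩ := hσ _ _ (h.zero σ)
    have h1 : Rv (XX τ) σ (-y) (-y) := ⟨c, fun j => by simpa only [XX_neg, zero_add] using hc (-j)⟩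
    have h2 := hσ _ _ (h.sub σ _ _ _ _ (h.sub σ _ _ _ _ (h.zero σ) hz) hz)
    rw [sub_add_cancel, zero_sub] at h2
    obtain ⟨n, hn⟩ := Gal.Rl.unique h.inH (σ := (σ : ℂ →+* ℂ)) h1 h2
    refine ⟨n, ?_⟩
    convert hz
    rw [← hn]
    funext i
    simp
    ring
  refine ⟨h.Good ⊓ h.Stab y, inferInstance, fun σ hσ w w' hw => ?_⟩
  simpa using hσ.1 _ _ (h.sub σ _ _ _ _ hw hσ.2)

end Dat

end M4.Un
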