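import Pool.Agent.Lib.MP_33b3f9_ag.Un.SCj

/-!
Descent of the theta coordinates: translation operators commute with conjugation.
-/

set_option autoImplicit false

noncomputable section

namespace M4.Un

open Complex Matrix MvPolynomial

variable {ι α : Type} [Fintype ι] {F : Type} [Field F] [Algebra F ℂ]

/-- A quarter period. -/
def qt (m : ι ⊕ ι → ℤ) : ι ⊕ ι → ℝ := (4 : ℝ)⁻¹ • rz m

/-- Conjugation by `σ` commutes with the translation by `a` up to the factor `κ`. -/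
def Km (τ : Matrix ι ι ℂ) (v : α → (ι ⊕ ι → ℝ) → ℂ) (k : ℕ) (y : ι ⊕ ι → ℝ) (σ : ℂ ≃ₐ[F] ℂ)
    (a : ι ⊕ ι → ℝ) (κ : ℂ) : Prop :=
  ∀ f ∈ Hol τ 4, Ty v k f → ∀ g ∈ Hol τ 4, Ty v k g → Cj v k σ f g →
    Cj v k σ (Tr y a f) (κ • Tr y a g)

variable {τ : Matrix ι ι ℂ} {Λ : AddSubgroup (ι ⊕ ι → ℤ)} {D k : ℕ} {μ : ℝ} {y : ι ⊕ ι → ℝ}
  {v : α → (ι ⊕ ι → ℝ) → ℂ} {σ ρ : ℂ ≃ₐ[F] ℂ} {f g : (ι ⊕ ι → ℝ) → ℂ}

omit [Fintype ι] in
theorem qt_add (m n : ι ⊕ ι → ℤ) : qt (m + (4 : ℤ) • n) = qt m + rz n := by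
  funext i
  simp [qt, rz]
  ring

omit [Fintype ι] in
theorem qt_nsmul (j : ℕ) (m : ι ⊕ ι → ℤ) : qt ((j : ℤ) • m) = (j : ℝ) • qt m := by
  funext i
  simp [qt, rz]
  ring

namespace Dat

variable (h : Dat F τ Λ D k μ y v)
include h

theorem tr_hol (hf : f ∈ Hol τ 4) (a : ι ⊕ ι → ℝ) : Tr y a f ∈ Hol τ 4 :=
  (Hol τ 4).smul_mem _ (Hol.U h.inH.1 hf a)

theorem tr_ty (ht : Ty v k f) (m : ι ⊕ ι → ℤ) : Ty v k (Tr y (qt m) f) :=
  h.ty_iff.2 fun n hn => by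
    have e : ((4 : ℝ) : ℂ) * E (qt m) (rz n) = E (rz m) (rz n) := by
      rw [qt, E_smul_left]
      push_cast
      ring
    rw [Tr, U_smul, U_comm, h.ty_iff.1 ht n hn, U_smul, e, ee_E_rz, one_smul, smul_comm]

theorem tr_lat (ht : Ty v k f) {n : ι ⊕ ι → ℤ} (hn : n ∈ Λ) : Tr y (rz n) f = f := by
  rw [Tr, h.ty_iff.1 ht n hn, smul_smul, ← ee_add, E_swap (rz n) y]
  simp

theorem km_ex {m : ι ⊕ ι → ℤ} (ha : Rv v σ (qt m) (qt m)) : ∃ κ, Km τ v k y σ (qt m) κ := by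
  choose s c hc using h.ex' σ
  choose d hd using fun w' => h.add ⟨_, hc w'⟩ ha
  let r : (ι ⊕ ι → ℝ) → ℂ := fun w' => σ (ee (4 * E (qt m) y + 2 * E (qt m) (s w'))) * d w' ^ k /
    (c w' ^ k * ee (4 * E (qt m) y + 2 * E (qt m) w'))
  have key : ∀ f g t, Cj v k σ f g → Cj v k σ (Tr y (qt m) f) t → ∀ w',
      t w' = r w' * Tr y (qt m) g w' := fun f g t h1 h2 w' => by
    have h3 := h2 _ _ _ (hc w')
    have h4 := (hc w').ne h.nz
    have h5 := ee_ne_zero (4 * E (qt m) y + 2 * E (qt m) w')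
    rw [Tr_apply, map_mul, h1 _ _ _ (hd w')] at h3
    rw [Tr_apply]
    simp only [r]
    field_simp
    linear_combination -h3
  choose t ht1 ht2 ht3 using fun a =>
    h.cj_ex σ (h.tr_hol (h.hol_pow a) (qt m)) (h.tr_ty (ty_pow a) m)
  have hnz : ∀ w, ∃ a, Tr y (qt m) (v a ^ k) w ≠ 0 := fun w => by
    obtain ⟨a, ha⟩ := h.nz (w + qt m)
    exact ⟨a, by rw [Tr_apply]; exact mul_ne_zero (ee_ne_zero _) (pow_ne_zero k ha)⟩
  have hr : r ∈ Hol τ 0 := Hol.of_ratio h.inH (m := 4) (f := t) (fun a => by simpa using ht1 a)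
    (fun a => h.tr_hol (h.hol_pow a) _) hnz fun a => key _ _ _ (cj_pow a) (ht3 a)
  have hconst := const_of_lat h.inH h.D0 hr fun x n => by
    obtain ⟨e, he, -⟩ := h.shift (h.mem n) x
    obtain ⟨a, ha⟩ := hnz (x + rz ((D : ℤ) • n))
    refine mul_right_cancel₀ ha ?_
    rw [← key _ _ _ (cj_pow a) (ht3 a), ht2 a _ _ e he, key _ _ _ (cj_pow a) (ht3 a),
      h.tr_ty (ty_pow a) m _ _ e he, mul_left_comm]
  refine ⟨r 0, fun f hf hft g _ _ hj => ?_⟩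
  obtain ⟨u, -, -, hu⟩ := h.cj_ex σ (h.tr_hol hf (qt m)) (h.tr_ty hft m)
  rwa [show u = r 0 • Tr y (qt m) g from funext fun w => by
    rw [key _ _ _ hj hu, hconst w, Pi.smul_apply, smul_eq_mul]] at hu

theorem km_pow {m : ι ⊕ ι → ℤ} {κ : ℂ} (hk : Km τ v k y σ (qt m) κ) : κ ^ (4 * D) = 1 := by
  obtain ⟨a, ha⟩ := h.nz 0
  have key : ∀ j : ℕ, Cj v k σ (Tr y (qt ((j : ℤ) • m)) (v a ^ k))
      (κ ^ j • Tr y (qt ((j : ℤ) • m)) (v a ^ k)) := fun j => by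
    induction j with
    | zero => simpa [qt, Tr, rz_zero] using cj_pow a
    | succ j ih =>
      have h1 := h.tr_hol (h.hol_pow a) (qt ((j : ℤ) • m))
      have h2 := h.tr_ty (ty_pow a) ((j : ℤ) • m)
      have h3 := hk _ h1 h2 _ ((Hol τ 4).smul_mem _ h1) (fun w w' c hc => by
        rw [Pi.smul_apply, Pi.smul_apply, h2 w w' c hc, smul_eq_mul, smul_eq_mul,
          mul_left_comm]) ih
      rw [Tr_smul, Tr_Tr, smul_smul κ, ← pow_succ', qt_nsmul, E_smul_left, E_self] at h3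
      rw [qt_nsmul, Nat.cast_succ, add_smul, one_smul, add_comm _ (qt m)]
      simpa using h3
  have h1 := key (4 * D)
  have e : qt (((4 * D : ℕ) : ℤ) • m) = rz ((D : ℤ) • m) := by
    rw [← zero_add (rz _), Nat.cast_mul, mul_smul, ← zero_add (_ • _)]
    simpa [qt, rz_zero] using qt_add 0 ((D : ℤ) • m)
  rw [e, h.tr_lat (ty_pow a) (h.mem m)] at h1
  have h2 := congrFun (h.cj_uniq h1 (cj_pow a)) 0
  rw [Pi.smul_apply, smul_eq_mul] at h2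
  exact (mul_eq_right₀ (pow_ne_zero k ha)).1 h2

theorem km_div {m : ι ⊕ ι → ℤ} {κ : ℂ} (h1 : Km τ v k y σ (qt m) κ)
    (h2 : Km τ v k y ρ (qt m) κ) : Km τ v k y (σ⁻¹ * ρ) (qt m) 1 := fun f hf hft g hg hgt hj => by
  obtain ⟨t, ht, htt, hgt'⟩ := h.cj_ex σ hg hgt
  have h3 := h.cj_mul hj hgt'
  rw [mul_inv_cancel_left] at h3
  rw [one_smul]
  exact h.cj_mul (h2 f hf hft t ht htt h3) (h.cj_inv (h1 g hg hgt t ht htt hgt'))

theorem km_lat {m n : ι ⊕ ι → ℤ} (hn : n ∈ Λ) (h1 : Km τ v k y σ (qt m) 1) :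
    Km τ v k y σ (qt m + rz n) 1 := fun f hf hft g hg hgt hj => by
  obtain ⟨j, hj'⟩ := E_rz n m
  have e : ee (2 * E (rz n) (qt m)) = (-1) ^ j := by
    rw [← ee_half_int, qt, E_smul_right, hj']
    congr 1
    push_cast
    ring
  have key : ∀ f, Ty v k f → Tr y (qt m + rz n) f = ((-1 : ℂ) ^ j)⁻¹ • Tr y (qt m) f :=
    fun f hf => by
      have h2 := Tr_Tr y (qt m) (rz n) f
      rw [h.tr_lat hf hn, e] at h2
      rw [h2, inv_smul_smul₀ (zpow_ne_zero j (by norm_num))]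
  have h3 := (h1 f hf hft g hg hgt hj).smul ((-1 : ℂ) ^ j)⁻¹
  rw [map_inv₀, map_zpow₀, map_neg, map_one, smul_comm] at h3
  rwa [key f hft, key g hgt]

/-- If `σ` commutes with all quarter periods, it preserves the theta coordinates. -/
theorem km_theta (h1 : ∀ m, Km τ v k y σ (qt m) 1) {w w' : ι ⊕ ι → ℝ} (hw : Rv v σ w w') :
    Rv (XX τ) σ (w + y) (w' + y) := by
  have hX : ∀ j, U 4 y (XX τ j) ∈ Hol τ 4 := fun j =>
    Hol.U h.inH.1 (by simpa using (XX_mem h.inH j).1) y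
  have hT : Ty v k (U 4 y (XX τ 0)) := h.ty_iff.2 fun n _ => by
    have h2 := (XX_mem h.inH 0).2 n
    rw [show chi n ^ 4 = 1 by rw [show 4 = 2 * 2 by norm_num, pow_mul, chi_sq, one_pow]] at h2
    rw [U_comm, show U 4 (rz n) (XX τ 0) = XX τ 0 by simpa using h2]
    norm_num
  have hU : ∀ j, Tr y (qt j) (U 4 y (XX τ 0)) = U 4 y (XX τ j) := fun j => by
    rw [Tr_U, qt, U_XX]
  obtain ⟨g, hg, hgt, hj⟩ := h.cj_ex σ (hX 0) hT
  have eg : g = U 4 y (U 4 (-y) g) := by simpa using (U_neg_U 4 (-y) g).symm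
  obtain ⟨a, ha⟩ := eq_XX h.inH (Hol.U h.inH.1 hg (-y)) fun l => by
    have h2 := h1 ((2 : ℤ) • l) _ (hX 0) hT g hg hgt hj
    have h3 := XX_add_two τ 0 l
    have h4 := hj.smul (chi l)
    have e : qt ((2 : ℤ) • l) = hf l := by
      funext i
      simp [qt, hf, rz]
      ring
    rw [zero_add, show hf (0 : ι ⊕ ι → ℤ) = 0 by simp [hf, rz_zero]] at h3
    rw [hU, h3, U_smul, one_smul, e] at h2
    rw [show σ (chi l) = chi l by simp [chi]] at h4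
    have h5 := h.cj_uniq (by simpa using h2) h4
    rw [eg, Tr_U, ← U_smul] at h5
    have h6 := congrArg (U 4 (-y)) h5
    rwa [U_neg_U, U_neg_U] at h6
  obtain ⟨c, hc⟩ := hw
  refine ⟨c ^ k * a * ee (((4 : ℝ) : ℂ) * E y w' / 2) / σ (ee (((4 : ℝ) : ℂ) * E y w / 2)),
    fun j => ?_⟩
  have h2 := h1 j _ (hX 0) hT g hg hgt hj w w' c hc
  rw [eg, ha, U_smul, Tr_smul, hU, one_smul, Pi.smul_apply, U_apply, U_apply, map_mul,
    smul_eq_mul] at h2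
  have h3 := (map_ne_zero σ).2 (ee_ne_zero (((4 : ℝ) : ℂ) * E y w / 2))
  field_simp
  linear_combination h2

end Dat

end M4.Un
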