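import Pool.Agent.Lib.MP_33b3f9_ag.M4.P.Stmt

open Matrix MvPolynomial

namespace Pool.Agent.M4

noncomputable section

variable {K : IntermediateField ℚ ℂ} {ι : Type}

/-- The projective variety `A` with equations `J` over `K` is a fourfold with a group law over `K`,
and `u` is a complex uniformisation `ℂ^4 / p(ℤ^8) → A(ℂ)` in homogeneous coordinates. -/
structure Unif [Fintype ι] (J : Set (MvPolynomial ι K)) (p : (ν → ℝ) ≃ₗ[ℝ] (Fin 4 → ℂ))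
    (u : (Fin 4 → ℂ) → ι → ℂ) : Prop where
  hol : Differentiable ℂ u
  img : ∀ v : ι → ℂ, (v ≠ 0 ∧ ∀ P ∈ J, aeval v P = 0) ↔ ∃ z, ∃ c : ℂ, c ≠ 0 ∧ v = c • u z
  inj : ∀ z w, (∃ c : ℂ, u z = c • u w) ↔ ∃ n : ν → ℤ, z - w = p fun i => (n i : ℝ)
  sub : ∀ z₀ w₀, ∃ Ψ : ι → MvPolynomial (ι ⊕ ι) K,
    (∃ a, aeval (Sum.elim (u z₀) (u w₀)) (Ψ a) ≠ 0) ∧ ∀ z w, ∀ s t : ℂ, ∃ c : ℂ, ∀ a,
      aeval (Sum.elim (s • u z) (t • u w)) (Ψ a) = c * u (z - w) a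

/-- `g` is the matrix of `σ` on the `ℓ`-adic Tate module in the lattice basis: `σ` maps the torsion
point `x / ℓ ^ n` to the torsion point `y / ℓ ^ n` when `y = g x` modulo `ℓ ^ n`. -/
def ActsU (p : (ν → ℝ) ≃ₗ[ℝ] (Fin 4 → ℂ)) (u : (Fin 4 → ℂ) → ι → ℂ) (σ : ℂ → ℂ) {ℓ : ℕ}
    [Fact ℓ.Prime] (g : GL ν ℤ_[ℓ]) : Prop :=
  ∀ (n : ℕ) (x y : ν → ℤ),
    (∀ i, (ℓ : ℤ_[ℓ]) ^ n ∣ ((g : Matrix ν ν ℤ_[ℓ]) *ᵥ fun j => (x j : ℤ_[ℓ])) i - (y i : ℤ_[ℓ])) →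
    ∃ c : ℂ, ∀ a, σ (u (p fun i => (x i : ℝ) / (ℓ : ℝ) ^ n) a) =
      c * u (p fun i => (y i : ℝ) / (ℓ : ℝ) ^ n) a

/-- The image of the group `U` of automorphisms of `ℂ` in `GL_8(ℚ_ℓ)`. -/
def galU (p : (ν → ℝ) ≃ₗ[ℝ] (Fin 4 → ℂ)) (u : (Fin 4 → ℂ) → ι → ℂ) (ℓ : ℕ) [Fact ℓ.Prime]
    (U : Subgroup (ℂ ≃ₐ[K] ℂ)) : Set (GL ν ℚ_[ℓ]) :=
  toQ '' {g : GL ν ℤ_[ℓ] | ∃ σ ∈ U, ActsU p u σ g}

end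

end Pool.Agent.M4
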